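import Pool.Agent.H861.CE.Defs
import Pool.Agent.H861.CD.T5

/-!
Project CE (helper861), MP_8dbee4_ag, part P1: `place_dvd2` below, from `kummer2_odd`, `kummer2_two` (hypothesis `kummer2` below) and T2, T3 of project CD. It generalises `place_dvd'` of `Pool/Agent/H861/CD/T5.lean`;
the proof there can be copied with the changes below, and its lemmas (`T5aux.one_prod`, `T5aux.res_eq`, `T5aux.val_unit`, `exists_gauss`, `dvd_finrank_of_residue`, ...) cited.

Let `O, DO, Q` be as in `GoodPlace p s D (fun _ => i)`, `κ = O/m_O` algebraically closed of characteristic 0, `δ_k = p^(s k)`. `E` is an algebra over `RatFunc ℂ` via `X ↦ u i`, with image `ℂ(u_i)`. Let `A ⊆ RatFunc ℂ`, `π : A → RatFunc κ` be as in `exists_gauss`.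
By `dvd_finrank_of_residue` (with `L = RatFunc κ`, `q = p^(Σ s k)`) it suffices to show `q ∣ [κ_B : RatFunc κ]` for every valuation subring `B` of `E` with `B ∩ RatFunc ℂ = A` and the given `i' : RatFunc κ → κ_B = ResidueField B`.
For `j ≠ i` and `k`: let `a := w_j^δ_k`, so `a + a⁻¹ = (dickson 1 1 δ_k)(u_j)` (`Polynomial.dickson_one_one_eval_add_inv`), and `h = h k j` satisfies `h + 1/h = D_{k,j}(u_j) = a + 1/a + τ`, `τ := (D_{k,j} - dickson 1 1 δ_k)(u_j)`. `D_{k,j}` and `dickson 1 1 δ_k` are monic of degree `δ_k`,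
so `D_{k,j} - dickson` has degree `< δ_k`, and its coefficients are in `m_O`. Put `M := max(v w_j, v w_j⁻¹) ≥ 1`, so `v u_j ≤ M`, `v τ < M^δ_k = max(v a, v a⁻¹)`.
Lemma (`core2`, cf. `T5aux.core`, `T5aux.sign`): `v τ < max(v a, v a⁻¹)`, `h + 1/h = a + 1/a + τ` imply `v(h a⁻¹ - 1) < 1` or `v(h a - 1) < 1`. Proof: replacing `a` by `1/a` and `h` by `1/h` we may assume `v a ≤ 1`, `v h ≤ 1`. `(h - a)(h a - 1) = τ a h`, so `v(h-a) v(ha-1) = v(τ a) v(h) < v h ≤ 1`.
If `v(h) v(a) < 1` then `v(h a - 1) = 1`, so `v(h - a) < v h`, so `v h = v a` and `v(h/a - 1) = v(h - a)/v(a) < 1`. If `v(h) v(a) = 1` then `v h = v a = 1` and one of the two factors has valuation `< 1`.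
So there is `e_{k,j} ∈ {w_j, w_j⁻¹}` with `h k j · e_{k,j}^δ_k ∈ 1 + m_B`. `R'_k := R_k ∏_{j≠i} e_{k,j}` satisfies `R'_k^δ_k = h k i · (element of 1 + m_B)`; `h k i` is a unit of `B` since `h k i + 1/h k i = D_{k,i}(u_i) ∈ B` (`u_i = X` is in `A` and `D_{k,i} ∈ O[X]`). Its residue satisfies
`h̄_k + 1/h̄_k = i'(D̄_{k,i}(X))`, `D̄_{k,i} = (DO k i).map (residue O)`, and the residue `r_k` of the unit `R'_k` satisfies `r_k^δ_k = h̄_k`. Apply `kummer2` to `N = κ_B`.
-/

set_option autoImplicit false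

open Polynomial Module

namespace Pool.Agent.H861.CE

/-- `kummer2` (proved elsewhere) as a hypothesis -/
def Kummer2 (p : ℕ) : Prop := ∀ {κ : Type} [Field κ] [IsAlgClosed κ] [CharZero κ] {ι : Type} [Fintype ι]
    (s : ι → ℕ) (D Q : ι → κ[X]), Nondeg p D Q →
    ∀ {N : Type} [Field N] [Algebra (RatFunc κ) N] [FiniteDimensional (RatFunc κ) N]
    (h R : ι → N), (∀ k, h k ≠ 0) →
    (∀ k, h k + (h k)⁻¹ = algebraMap (RatFunc κ) N (algebraMap κ[X] (RatFunc κ) (D k))) →
    (∀ k, R k ^ (p ^ s k) = h k) → p ^ (∑ k, s k) ∣ finrank (RatFunc κ) N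

namespace P1aux

section val

variable {E Γ : Type*} [Field E] [LinearOrderedCommGroupWithZero Γ] (v : Valuation E Γ)

/-- the core case -/
theorem core2 {a h τ : E} (ha : a ≠ 0) (hh : h ≠ 0) (e : h + h⁻¹ = a + a⁻¹ + τ)
    (hτ : v τ * v a < 1) (ha1 : v a ≤ 1) (hh1 : v h ≤ 1) :
    v (h * a⁻¹ - 1) < 1 ∨ v (h * a - 1) < 1 := by
  have e1 : (h - a) * (h * a - 1) = τ * (a * h) := by
    have e2 : τ = h + h⁻¹ - a - a⁻¹ := by rw [e]; ring
    rw [e2]
    field_simp
    ring
  have hva : v a ≠ 0 := (Valuation.ne_zero_iff v).2 ha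
  have hvh : v h ≠ 0 := (Valuation.ne_zero_iff v).2 hh
  have e3 : v (h - a) * v (h * a - 1) = v τ * v a * v h := by
    rw [← map_mul, e1, map_mul, map_mul, mul_assoc]
  have e5 : v τ * v a * v h < v h := by
    calc v τ * v a * v h < 1 * v h := mul_lt_mul_of_pos_right hτ (zero_lt_iff.2 hvh)
      _ = v h := one_mul _
  have e4 : h * a⁻¹ - 1 = (h - a) * a⁻¹ := by field_simp
  rcases lt_or_eq_of_le (mul_le_one' hh1 ha1 : v h * v a ≤ 1) with hlt | heq
  · left
    have h1 : v (h * a - 1) = 1 := by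
      rw [← Valuation.map_neg, neg_sub]
      apply v.map_one_sub_of_lt
      rwa [map_mul]
    rw [h1, mul_one] at e3
    rw [← e3] at e5
    have h2 : v a = v h := by
      have h3 : a = h - (h - a) := by ring
      rw [h3]
      exact Valuation.map_sub_eq_of_lt_left v e5
    rw [e4, map_mul, map_inv₀, h2]
    calc v (h - a) * (v h)⁻¹ < v h * (v h)⁻¹ :=
          mul_lt_mul_of_pos_right e5 (zero_lt_iff.2 (inv_ne_zero hvh))
      _ = 1 := mul_inv_cancel₀ hvh
  · have hvh1 : v h = 1 := by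
      refine le_antisymm hh1 ?_
      rw [← heq]
      calc v h * v a ≤ v h * 1 := mul_le_mul_right ha1 _
        _ = v h := mul_one _
    have hva1 : v a = 1 := by rwa [hvh1, one_mul] at heq
    rw [← e3, hvh1] at e5
    by_contra hcon
    push Not at hcon
    obtain ⟨c1, c2⟩ := hcon
    rw [e4, map_mul, map_inv₀, hva1, inv_one, mul_one] at c1
    have : 1 ≤ v (h - a) * v (h * a - 1) := one_le_mul c1 c2
    exact absurd e5 (not_lt.2 this)

/-- a sign -/
theorem sign2 {a h τ : E} (ha : a ≠ 0) (hh : h ≠ 0) (e : h + h⁻¹ = a + a⁻¹ + τ)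
    (hτ : v τ < max (v a) (v a⁻¹)) :
    v (h * a⁻¹ - 1) < 1 ∨ v (h * a - 1) < 1 := by
  have inv_swap : ∀ {b g : E}, v (g⁻¹ * b⁻¹ - 1) < 1 ∨ v (g⁻¹ * b - 1) < 1 →
      v (g * b⁻¹ - 1) < 1 ∨ v (g * b - 1) < 1 := by
    intro b g h1
    rcases h1 with h1 | h1
    · right
      have := CD.T5aux.one_inv v h1
      rwa [mul_inv, inv_inv, inv_inv] at this
    · left
      have := CD.T5aux.one_inv v h1
      rwa [mul_inv, inv_inv] at this
  have le_of : ∀ x : E, x ≠ 0 → ¬ v x ≤ 1 → v x⁻¹ ≤ 1 := by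
    intro x hx h1
    rw [map_inv₀]
    exact inv_le_one_of_one_le₀ (le_of_lt (not_le.1 h1))
  have hmx : ∀ b : E, b ≠ 0 → v b ≤ 1 → max (v b) (v b⁻¹) = v b⁻¹ := by
    intro b hb hb1
    apply max_eq_right
    rw [map_inv₀]
    exact hb1.trans ((one_le_inv₀ (zero_lt_iff.2 ((Valuation.ne_zero_iff v).2 hb))).2 hb1)
  -- the case `v a ≤ 1`
  have main : ∀ {b g : E}, b ≠ 0 → g ≠ 0 → g + g⁻¹ = b + b⁻¹ + τ → v b ≤ 1 →
      v τ < max (v b) (v b⁻¹) → v (g * b⁻¹ - 1) < 1 ∨ v (g * b - 1) < 1 := by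
    intro b g hb hg e hb1 hτ
    have hvb : v b ≠ 0 := (Valuation.ne_zero_iff v).2 hb
    have hτ' : v τ * v b < 1 := by
      rw [hmx b hb hb1] at hτ
      calc v τ * v b < v b⁻¹ * v b := mul_lt_mul_of_pos_right hτ (zero_lt_iff.2 hvb)
        _ = 1 := by rw [map_inv₀, inv_mul_cancel₀ hvb]
    by_cases h1 : v g ≤ 1
    · exact core2 v hb hg e hτ' hb1 h1
    · apply inv_swap
      refine core2 v hb (inv_ne_zero hg) ?_ hτ' hb1 (le_of g hg h1)
      rw [inv_inv, ← e, add_comm]
  by_cases h1 : v a ≤ 1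
  · exact main ha hh e h1 hτ
  · have h2 := main (inv_ne_zero ha) hh (by rw [inv_inv, e]; ring) (le_of a ha h1)
      (by rwa [inv_inv, max_comm])
    rw [inv_inv] at h2
    exact h2.symm

end val

theorem dick (A : Type*) [CommRing A] (n : ℕ) :
    (∀ e, n < e → (dickson 1 (1 : A) n).coeff e = 0) ∧
      (n ≠ 0 → (dickson 1 (1 : A) n).coeff n = 1) := by
  induction n using Nat.strong_induction_on with
  | _ n ih =>
    match n, ih with
    | 0, _ =>
      refine ⟨fun e he => ?_, fun h => absurd rfl h⟩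
      have h1 : dickson 1 (1 : A) 0 = C 2 := by
        rw [dickson_zero, Nat.cast_one, map_ofNat]
        norm_num
      rw [h1, coeff_C, if_neg (by omega)]
    | 1, _ =>
      refine ⟨fun e he => ?_, fun _ => ?_⟩
      · rw [dickson_one, coeff_X, if_neg (by omega)]
      · rw [dickson_one, coeff_X_one]
    | n + 2, ih =>
      obtain ⟨a1, a2⟩ := ih (n + 1) (by omega)
      obtain ⟨b1, b2⟩ := ih n (by omega)
      refine ⟨fun e he => ?_, fun _ => ?_⟩
      · obtain ⟨e, rfl⟩ : ∃ e', e = e' + 1 := ⟨e - 1, by omega⟩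
        rw [dickson_add_two, coeff_sub, coeff_X_mul, coeff_C_mul, a1 e (by omega),
          b1 (e + 1) (by omega)]
        ring
      · rw [dickson_add_two, coeff_sub, coeff_X_mul, coeff_C_mul, a2 (by omega),
          b1 (n + 2) (by omega)]
        ring

/-- the estimate of the error term -/
theorem tau_lt {E Γ : Type*} [Field E] [LinearOrderedCommGroupWithZero Γ] (v : Valuation E Γ)
    (f : ℂ →+* E) {w u : E} (hw : w ≠ 0) (hu : w + w⁻¹ = u) {δ : ℕ} (hδ : 0 < δ) {D : ℂ[X]}
    (hD : D.Monic ∧ D.natDegree = δ)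
    (hc : ∀ e, v (f ((D - dickson 1 1 δ).coeff e)) < 1) :
    v (eval₂ f u (D - dickson 1 1 δ)) < max (v (w ^ δ)) (v (w ^ δ)⁻¹) := by
  obtain ⟨M, hM⟩ : ∃ M, M = max (v w) (v w⁻¹) := ⟨_, rfl⟩
  have hvw : v w ≠ 0 := (Valuation.ne_zero_iff v).2 hw
  have hM1 : 1 ≤ M := by
    rw [hM]
    rcases le_total 1 (v w) with h | h
    · exact h.trans (le_max_left _ _)
    · refine le_trans ?_ (le_max_right _ _)
      rw [map_inv₀]
      exact (one_le_inv₀ (zero_lt_iff.2 hvw)).2 h
  have hM0 : M ≠ 0 := by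
    intro h
    rw [h] at hM1
    exact absurd hM1 (not_le.2 zero_lt_one)
  have hvu : v u ≤ M := by
    rw [← hu, hM]
    exact Valuation.map_add v _ _
  have hMδ : M ^ δ ≤ max (v (w ^ δ)) (v (w ^ δ)⁻¹) := by
    rcases max_choice (v w) (v w⁻¹) with h | h
    · rw [hM, h, ← map_pow]
      exact le_max_left _ _
    · rw [hM, h, ← map_pow, inv_pow]
      exact le_max_right _ _
  refine lt_of_lt_of_le ?_ hMδ
  have hdeg : (D - dickson 1 1 δ).natDegree < δ := by
    have h1 : (D - dickson 1 1 δ).natDegree ≤ δ - 1 := by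
      rw [natDegree_le_iff_coeff_eq_zero]
      intro N hN
      rw [coeff_sub]
      rcases (by omega : N = δ ∨ δ < N) with rfl | h2
      · rw [(dick ℂ N).2 hδ.ne']
        have h3 := hD.1.coeff_natDegree
        rw [hD.2] at h3
        rw [h3, sub_self]
      · rw [(dick ℂ δ).1 N h2, coeff_eq_zero_of_natDegree_lt (by rw [hD.2]; exact h2), sub_self]
    omega
  rw [eval₂_eq_sum_range' f hdeg]
  refine v.map_sum_lt (pow_ne_zero _ hM0) fun e he => ?_
  have he' := Finset.mem_range.1 he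
  rw [map_mul, map_pow]
  calc v (f ((D - dickson 1 1 δ).coeff e)) * v u ^ e
      ≤ v (f ((D - dickson 1 1 δ).coeff e)) * M ^ δ := by
        refine mul_le_mul_right ?_ _
        exact (pow_le_pow_left₀ zero_le hvu e).trans (pow_le_pow_right₀ hM1 he'.le)
    _ < 1 * M ^ δ := mul_lt_mul_of_pos_right (hc e) (zero_lt_iff.2 (pow_ne_zero _ hM0))
    _ = M ^ δ := one_mul _

end P1aux

theorem place_dvd2 {p : ℕ} (hp : p.Prime) (hK : Kummer2 p) {ι J : Type} [Fintype ι] [Fintype J]
    (s : ι → ℕ) (D : ι → J → ℂ[X]) (hD : ∀ k j, (D k j).Monic ∧ (D k j).natDegree = p ^ s k) (i : J)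
    (hG : GoodPlace p s D (fun _ => i))
    {E : Type} [Field E] [Algebra ℂ E] (u w : J → E) (hu : ∀ j, w j + (w j)⁻¹ = u j)
    (hui : Transcendental ℂ (u i)) (hfin : FiniteDimensional (IntermediateField.adjoin ℂ {u i}) E)
    (hw : ∀ j, w j ≠ 0) (h : ι → J → E) (h0 : ∀ k j, h k j ≠ 0)
    (hh : ∀ k j, h k j + (h k j)⁻¹ = aeval (u j) (D k j))
    (R : ι → E) (hR : ∀ k, R k ^ (p ^ s k) = ∏ j, h k j) :
    p ^ (∑ k, s k) ∣ finrank (IntermediateField.adjoin ℂ {u i}) E := by
  classical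
  obtain ⟨O, DO, Q, hcl, hchar, hDO, hdick, hnd⟩ := hG
  haveI := hcl
  haveI := hchar
  let φ : RatFunc ℂ ≃ₐ[ℂ] IntermediateField.adjoin ℂ {u i} :=
    RatFunc.algEquivOfTranscendental (u i) hui
  letI alg1 : Algebra (RatFunc ℂ) E :=
    ((algebraMap (IntermediateField.adjoin ℂ {u i}) E).comp
      (φ.toRingEquiv : RatFunc ℂ →+* IntermediateField.adjoin ℂ {u i})).toAlgebra
  have hmap : ∀ x : RatFunc ℂ, algebraMap (RatFunc ℂ) E x = (φ x : E) := fun x => rfl
  have hfin2 : FiniteDimensional (RatFunc ℂ) E := by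
    refine Module.Finite.of_equiv_equiv (A₁ := IntermediateField.adjoin ℂ {u i}) (B₁ := E)
      φ.symm.toRingEquiv (RingEquiv.refl E) ?_
    ext x
    change algebraMap (RatFunc ℂ) E (φ.symm x) = x
    rw [hmap, AlgEquiv.apply_symm_apply]
  have hrank : finrank (RatFunc ℂ) E = finrank (IntermediateField.adjoin ℂ {u i}) E := by
    refine Algebra.finrank_eq_of_equiv_equiv φ.toRingEquiv (RingEquiv.refl E) ?_
    ext x
    rfl
  have huX : u i = algebraMap (RatFunc ℂ) E RatFunc.X := by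
    rw [hmap]
    exact (RatFunc.algEquivOfTranscendental_X (u i) hui).symm
  have hCE : ∀ c : ℂ, algebraMap ℂ E c = algebraMap (RatFunc ℂ) E (RatFunc.C c) := by
    intro c
    rw [hmap, ← RatFunc.algebraMap_eq_C, AlgEquiv.commutes]
    rfl
  rw [← hrank]
  obtain ⟨A, π, hπ, ⟨hX, hπX⟩, hC, hπC⟩ := CD.exists_gauss O
  haveI : CharZero (RatFunc (IsLocalRing.ResidueField O)) :=
    charZero_of_injective_algebraMap
      (algebraMap (IsLocalRing.ResidueField O) (RatFunc (IsLocalRing.ResidueField O))).injective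
  apply CD.dvd_finrank_of_residue A π hπ
  intro B hB i' hi
  letI alg := i'.toAlgebra
  by_cases hf : FiniteDimensional (RatFunc (IsLocalRing.ResidueField O)) (IsLocalRing.ResidueField B)
  swap
  · rw [finrank_of_not_finite hf]
    exact dvd_zero _
  -- the element `u i`
  have huiB : u i ∈ B := by
    rw [huX]
    exact (hB _).2 hX
  have hures : IsLocalRing.residue B ⟨u i, huiB⟩ = i' RatFunc.X := by
    rw [← hπX, hi ⟨RatFunc.X, hX⟩]
    congr 1
    exact Subtype.ext huX
  -- the constants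
  have hOB : ∀ c : O, algebraMap ℂ E (c : ℂ) ∈ B := by
    intro c
    rw [hCE]
    exact (hB _).2 (hC c)
  have hOres : ∀ c : O, IsLocalRing.residue B ⟨algebraMap ℂ E (c : ℂ), hOB c⟩ =
      i' (RatFunc.C (IsLocalRing.residue O c)) := by
    intro c
    rw [← hπC, hi]
    congr 1
    exact Subtype.ext (hCE c)
  have hOv : ∀ c : O, IsLocalRing.residue O c = 0 → B.valuation (algebraMap ℂ E (c : ℂ)) < 1 := by
    intro c hc
    refine CD.T5aux.val_lt_of_res B (x := ⟨_, hOB c⟩) ?_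
    rw [hOres, hc, map_zero, map_zero]
  have hinj : Function.Injective O.subtype := Subtype.val_injective
  have hδ : ∀ k, 0 < p ^ s k := fun k => pow_pos hp.pos _
  -- the error terms
  have hτ : ∀ k j, j ≠ i → B.valuation (eval₂ (algebraMap ℂ E) (u j) (D k j - dickson 1 1 (p ^ s k))) <
      max (B.valuation (w j ^ (p ^ s k))) (B.valuation (w j ^ (p ^ s k))⁻¹) := by
    intro k j hj
    refine P1aux.tau_lt B.valuation (algebraMap ℂ E) (hw j) (hu j) (hδ k) (hD k j) fun e => ?_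
    have h1 : (D k j - dickson 1 1 (p ^ s k)).coeff e =
        (((DO k j - dickson 1 1 (p ^ s k)).coeff e : O) : ℂ) := by
      have h2 : (DO k j - dickson 1 1 (p ^ s k)).map O.subtype =
          D k j - dickson 1 1 (p ^ s k) := by
        rw [Polynomial.map_sub, hDO, map_dickson, map_one]
      rw [← h2, coeff_map]
      rfl
    rw [h1]
    apply hOv
    rw [← coeff_map, Polynomial.map_sub, hdick k j hj, map_dickson, map_one, sub_self, coeff_zero]
  -- the signs
  have hsign : ∀ k j, ∃ e : E, j ≠ i → B.valuation (h k j * e ^ (p ^ s k) - 1) < 1 := by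
    intro k j
    by_cases hj : j = i
    · exact ⟨1, fun h => absurd hj h⟩
    have heq : h k j + (h k j)⁻¹ = w j ^ (p ^ s k) + (w j ^ (p ^ s k))⁻¹ +
        eval₂ (algebraMap ℂ E) (u j) (D k j - dickson 1 1 (p ^ s k)) := by
      rw [hh, eval₂_sub, ← eval_map, ← eval_map, map_dickson, map_one, ← hu j,
        dickson_one_one_eval_add_inv (w j) (w j)⁻¹ (mul_inv_cancel₀ (hw j)), aeval_def, eval_map,
        inv_pow]
      ring
    rcases P1aux.sign2 B.valuation (pow_ne_zero _ (hw j)) (h0 k j) heq (hτ k j hj) with h1 | h1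
    · refine ⟨(w j)⁻¹, fun _ => ?_⟩
      rwa [inv_pow]
    · exact ⟨w j, fun _ => h1⟩
  choose e he using hsign
  -- the reduction of polynomials
  let cB : O →+* B := ((algebraMap ℂ E).comp O.subtype).codRestrict B hOB
  have hcBres : (IsLocalRing.residue B).comp cB = (i'.comp RatFunc.C).comp (IsLocalRing.residue O) := by
    ext c
    exact hOres c
  have hpol : ∀ P : (↥O)[X], ((eval₂ cB ⟨u i, huiB⟩ P : B) : E) = aeval (u i) (P.map O.subtype) := by
    intro P
    have h1 := hom_eval₂ P cB B.subtype ⟨u i, huiB⟩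
    rw [aeval_def, eval₂_map]
    exact h1
  have hpolres : ∀ P : (↥O)[X], IsLocalRing.residue B (eval₂ cB ⟨u i, huiB⟩ P) =
      i' (algebraMap (IsLocalRing.ResidueField O)[X] (RatFunc (IsLocalRing.ResidueField O))
        (P.map (IsLocalRing.residue O))) := by
    intro P
    rw [hom_eval₂, hures, hcBres, ← eval₂_map]
    have h1 : ∀ q : (IsLocalRing.ResidueField O)[X], eval₂ (i'.comp RatFunc.C) (i' RatFunc.X) q =
        i' (algebraMap (IsLocalRing.ResidueField O)[X] (RatFunc (IsLocalRing.ResidueField O)) q) := by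
      intro q
      have h2 : (Polynomial.eval₂RingHom (i'.comp RatFunc.C) (i' RatFunc.X)) =
          i'.comp (algebraMap (IsLocalRing.ResidueField O)[X]
            (RatFunc (IsLocalRing.ResidueField O))) := by
        apply Polynomial.ringHom_ext
        · intro a
          rw [coe_eval₂RingHom, eval₂_C, RingHom.comp_apply, RingHom.comp_apply,
            RatFunc.algebraMap_C]
        · rw [coe_eval₂RingHom, eval₂_X, RingHom.comp_apply, RatFunc.algebraMap_X]
      exact RingHom.congr_fun h2 q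
    exact h1 _
  -- `h k i`
  have hsum : ∀ k, h k i + (h k i)⁻¹ = ((eval₂ cB ⟨u i, huiB⟩ (DO k i) : B) : E) := by
    intro k
    rw [hpol, hDO, hh]
  have hhv : ∀ k, B.valuation (h k i) = 1 := by
    intro k
    refine CD.T5aux.val_unit B.valuation (a := 1)
      (τ := ((eval₂ cB ⟨u i, huiB⟩ (DO k i) - 2 : B) : E)) (h0 k i) ?_ ?_ ?_
    · rw [hsum]
      push_cast
      rw [inv_one]
      have h2 : ((2 : B) : E) = 2 := rfl
      rw [h2]
      ring
    · exact map_one _
    · exact (B.valuation_le_one_iff _).2 (Subtype.property _)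
  -- the modified roots
  set R' : ι → E := fun k => R k * ∏ j ∈ Finset.univ.erase i, e k j with hR'
  have hpow : ∀ k, R' k ^ (p ^ s k) =
      h k i * ∏ j ∈ Finset.univ.erase i, (h k j * e k j ^ (p ^ s k)) := by
    intro k
    rw [hR']
    simp only
    rw [mul_pow, hR k, Finset.prod_mul_distrib, ← Finset.mul_prod_erase _ _ (Finset.mem_univ i),
      ← Finset.prod_pow]
    ring
  have hprod : ∀ k, B.valuation
      (∏ j ∈ Finset.univ.erase i, (h k j * e k j ^ (p ^ s k)) - 1) < 1 := by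
    intro k
    refine CD.T5aux.one_prod B.valuation _ _ fun j hj => ?_
    exact he k j (Finset.ne_of_mem_erase hj)
  have hRv : ∀ k, B.valuation (R' k) = 1 := by
    intro k
    have h1 : B.valuation (R' k) ^ (p ^ s k) = 1 := by
      rw [← map_pow, hpow, map_mul, hhv, CD.T5aux.one_val B.valuation (hprod k), one_mul]
    exact (pow_eq_one_iff.1 h1).resolve_right (pow_pos hp.pos _).ne'
  refine hK s (fun k => (DO k i).map (IsLocalRing.residue O)) Q hnd
    (fun k => IsLocalRing.residue B ⟨h k i, CD.T5aux.mem_of_val B (hhv k)⟩)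
    (fun k => IsLocalRing.residue B ⟨R' k, CD.T5aux.mem_of_val B (hRv k)⟩) ?_ ?_ ?_
  · intro k
    exact CD.T5aux.res_ne B (hhv k)
  · intro k
    have hinvB : (h k i)⁻¹ ∈ B := CD.T5aux.mem_of_val B (by rw [map_inv₀, hhv, inv_one])
    have e1 : (⟨h k i, CD.T5aux.mem_of_val B (hhv k)⟩ : B) + ⟨(h k i)⁻¹, hinvB⟩ =
        eval₂ cB ⟨u i, huiB⟩ (DO k i) :=
      Subtype.ext (hsum k)
    have e2 := congrArg (IsLocalRing.residue B) e1
    rw [map_add, hpolres,
      CD.T5aux.res_inv B (x := ⟨h k i, CD.T5aux.mem_of_val B (hhv k)⟩) (y := ⟨(h k i)⁻¹, hinvB⟩)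
        (h0 k i) rfl] at e2
    exact e2
  · intro k
    rw [← map_pow]
    refine CD.T5aux.res_eq B ?_
    change B.valuation (R' k ^ (p ^ s k) - h k i) < 1
    rw [hpow]
    have e1 : h k i * ∏ j ∈ Finset.univ.erase i, (h k j * e k j ^ (p ^ s k)) - h k i =
        h k i * (∏ j ∈ Finset.univ.erase i, (h k j * e k j ^ (p ^ s k)) - 1) := by ring
    rw [e1, map_mul, hhv, one_mul]
    exact hprod k

end Pool.Agent.H861.CE
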