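import Mathlib

set_option autoImplicit false

open Polynomial

namespace Pool.Agent.H861.CE

/-- the homogenisation of degree `d` of a polynomial -/
noncomputable def hom {Ω : Type*} [CommRing Ω] [Algebra ℂ Ω] (P : ℂ[X]) (d : ℕ) (a b : Ω) : Ω :=
  ∑ i ∈ Finset.range (d + 1), algebraMap ℂ Ω (P.coeff i) * a ^ i * b ^ (d - i)

/-- solutions of the Pell equation over a quartic -/
structure IsPell {R : Type*} [CommRing R] (δ : ℕ) (D H L B : R[X]) : Prop where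
  D_monic : D.Monic
  D_deg : D.natDegree = δ
  H_monic : H.Monic
  H_deg : H.natDegree = 2
  L_deg : L.natDegree ≤ 1
  B_monic : B.Monic
  B_deg : B.natDegree = δ - 2
  eq : D ^ 2 - 4 = (H ^ 2 - L) * B ^ 2

/-- the relations between the auxiliary quantities -/
structure Rel2 {n : ℕ} {Ω : Type*} [CommRing Ω] [Algebra ℂ Ω] (δ : ℕ) (D H L B : Fin n → ℂ[X])
    (a b ρ ρ' τ τ' y : Fin n → Ω) : Prop where
  h1 : ∀ j, ρ j * ρ' j = b j ^ 2
  h2 : ∀ j, y j ^ 2 = hom (H j) 2 (a j) (b j) ^ 2 - hom (L j) 1 (a j) (b j) * b j ^ 3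
  h3 : ∀ j, 2 * ρ j ^ δ = hom (D j) δ (a j) (b j) + hom (B j) (δ - 2) (a j) (b j) * y j
  h4 : ∀ j, 2 * ρ' j ^ δ = hom (D j) δ (a j) (b j) - hom (B j) (δ - 2) (a j) (b j) * y j
  h5 : ∀ j, τ j * ρ' j = y j - hom (H j) 2 (a j) (b j)
  h6 : ∀ j, τ' j * ρ j = - (y j + hom (H j) 2 (a j) (b j))
  h7 : ∀ j, τ j * τ' j = b j * hom (L j) 1 (a j) (b j)

/-- the form whose `m`-th root is taken -/
noncomputable def WW2 {n : ℕ} {Ω : Type*} [CommRing Ω] [Algebra ℂ Ω] (m : ℕ) (μ : Fin n → ℕ → ℂ)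
    (a b ρ τ : Fin n → Ω) : Ω :=
  ∑ c ∈ Finset.Icc 1 n, ∏ j, ((ρ j + (c : Ω) * τ j) ^ c *
    (a j - algebraMap ℂ Ω (μ j c) * b j) ^ (m - c))

/-- the conditions on the parameters `μ` -/
def GoodMu {n : ℕ} (H L : Fin n → ℂ[X]) (μ : Fin n → ℕ → ℂ) : Prop :=
  ∀ j, ∀ c ∈ Finset.Icc 1 n, ∀ c' ∈ Finset.Icc 1 n, (c ≠ c' → μ j c ≠ μ j c') ∧
    1 - 2 * (c : ℂ) * (H j).eval (μ j c') + (c : ℂ) ^ 2 * (L j).eval (μ j c') ≠ 0

/-- nondegenerate systems of solutions of Pell equations over a field -/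
structure Nondeg {κ : Type*} [Field κ] {ι : Type*} (p : ℕ) (D Q : ι → κ[X]) : Prop where
  pell : ∀ k, ∃ B : κ[X], D k ^ 2 - 4 = Q k * B ^ 2
  sqf : ∀ k, Squarefree (Q k)
  deg : ∀ k, (Q k).natDegree ≠ 0
  cop : ∀ k l, k ≠ l → IsCoprime (Q k) (Q l)
  prim : ∀ k (G : κ[X]), (dickson 1 1 p).comp G ≠ D k
  two : p = 2 → ∀ k (G : κ[X]), D k - 2 ≠ G ^ 2

/-- there is a place of `ℂ` at which the `D k j`, `j ≠ i k`, become Dickson polynomials, and the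
`D k (i k)` a nondegenerate system -/
def GoodPlace {ι J : Type*} (p : ℕ) (s : ι → ℕ) (D : ι → J → ℂ[X]) (i : ι → J) : Prop :=
  ∃ (O : ValuationSubring ℂ) (DO : ι → J → (↥O)[X]) (Q : ι → (IsLocalRing.ResidueField O)[X]),
    IsAlgClosed (IsLocalRing.ResidueField O) ∧ CharZero (IsLocalRing.ResidueField O) ∧
    (∀ k j, (DO k j).map O.subtype = D k j) ∧
    (∀ k j, j ≠ i k → (DO k j).map (IsLocalRing.residue O) = dickson 1 1 (p ^ s k)) ∧
    Nondeg p (fun k => (DO k (i k)).map (IsLocalRing.residue O)) Q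

end Pool.Agent.H861.CE
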