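import Pool.Agent.H861.CD.T9
import Pool.Agent.H861.CE.Defs

/-!
Project CE (helper861), MP_8dbee4_ag, part R1: `root_small2` and `exists_mu` below; cf. `root_small` in `Pool/Agent/H861/CD/T9.lean`.

`exists_mu`: choose the `μ j c`, `c = 1, …, n`, one after the other: for each `j` it suffices to have `n` distinct complex numbers outside the finite set of roots of the polynomials `1 - 2 c H_j + c^2 L_j`, `c = 1..n` (nonzero: degree 2, leading coefficient `-2c`).

`root_small2`: `l_j := b_j` if `b_j ≠ 0`, else `a_j` (then `a_j ≠ 0`). `hom P d a b = b^d P(a/b)` for `b ≠ 0`, `deg P ≤ d`; `hom P d a 0 = P.coeff d * a^d`. `v := z/∏ l_j ∈ E`.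
* `j` with `b_j ≠ 0`: `u := a_j/b_j ∈ E`, `g := ρ_j/b_j`, `η := y_j/b_j^2 - H(u) ∈ E`; `τ_j ρ'_j = y_j - b^2 H(u)`, `ρ_j ρ'_j = b^2` give `τ_j/b_j = g η`. So `(ρ_j + cτ_j)^c (a_j - μ b_j)^(m-c) = l_j^m g^c (1 + cη)^c (u - μ_{j,c})^(m-c)`.
* `j` with `b_j = 0`: `y_j^2 = a_j^4`. If `y_j = a_j^2`: `2ρ^δ = 2a^δ` (`B, D` monic), `ρ = ε a`, `ε^δ = 1`, so `ε ∈ ℂ`; `ρρ' = 0` so `ρ' = 0`; `τ'ρ = -2a^2 ≠ 0` and `ττ' = 0` so `τ = 0`; the factor is `(εa)^c a^(m-c) = l_j^m ε^c`. If `y_j = -a_j^2`: `2ρ'^δ = 2a^δ`, `ρ' = ε'a`, `ρ = 0`, `τ = -2a/ε'`,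
the factor is `(cτ)^c a^(m-c) = l_j^m (-2c/ε')^c`. In both cases it is `l_j^m k_{j,c}` with `k_{j,c} ∈ ℂ`, `k_{j,c} ≠ 0`.
So `v^m = Σ_{c=1}^n G_c R^c` with `R := ∏_{b_j ≠ 0} g_j` and `G_c := ∏_{b_j≠0} (1 + cη_j)^c (u_j - μ_{j,c})^(m-c) ∏_{b_j = 0} k_{j,c} ∈ E`; `R^δ = ∏_{b_j≠0} (ρ_j/b_j)^δ`. If some `G_c ≠ 0` then `q := Σ G_c X^c - v^m` is nonzero of degree `≤ n` and we are done. Otherwise for each `c ∈ {1..n}` there is `j(c)` with `b_j ≠ 0` and `1 + cη_j = 0` or
(`c < m` and) `u_j = μ_{j,c}`. `1 + cη_j = 0` implies `1 - 2cH(u_j) + c^2 L(u_j) = 0` (since `(η_j + H(u_j))^2 = (y_j/b_j^2)^2 = H(u_j)^2 - L(u_j)`). For one `j` this can hold for at most one `c` (by `GoodMu`; `1 + cη = 0 = 1 + c'η` is impossible for `c ≠ c'`), so `c ↦ j(c)` is injective, hence every `j` is a `j(c)`. But then for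
all `j`: `b_j ≠ 0` and `u_j` is algebraic over `ℂ` (root of `1 - 2cH + c^2 L`, of degree 2, or equal to `μ_{j,c}`), so `u_j ∈ ⊥` (`mem_bot_of_alg` in T9), contradicting `hnc`.
-/

set_option autoImplicit false

open Polynomial Module

namespace Pool.Agent.H861.CE

namespace R1aux

lemma hom_b0 {Ω : Type*} [CommRing Ω] [Algebra ℂ Ω] (P : ℂ[X]) (d : ℕ) (a : Ω) :
    hom P d a 0 = algebraMap ℂ Ω (P.coeff d) * a ^ d := by
  unfold hom
  rw [Finset.sum_eq_single d]
  · rw [Nat.sub_self, pow_zero, mul_one]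
  · intro i hi hne
    rw [Finset.mem_range] at hi
    have h1 : d - i ≠ 0 := by omega
    rw [zero_pow h1, mul_zero]
  · intro h
    exact absurd (Finset.mem_range.mpr (Nat.lt_succ_self d)) h

lemma hom_ne {Ω : Type*} [Field Ω] [Algebra ℂ Ω] (P : ℂ[X]) (d : ℕ) (hd : P.natDegree ≤ d)
    (a b : Ω) (hb : b ≠ 0) : hom P d a b = b ^ d * aeval (a / b) P := by
  unfold hom
  rw [aeval_eq_sum_range' (Nat.lt_succ_of_le hd), Finset.mul_sum]
  refine Finset.sum_congr rfl fun i hi => ?_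
  rw [Finset.mem_range] at hi
  rw [Algebra.smul_def, div_pow]
  have h1 : b ^ d = b ^ i * b ^ (d - i) := by
    rw [← pow_add]
    congr 1
    omega
  rw [h1]
  have h2 : b ^ i ≠ 0 := pow_ne_zero _ hb
  field_simp

/-- the polynomial `1 - 2 c H + c ^ 2 L` -/
noncomputable def QQ (H L : ℂ[X]) (c : ℕ) : ℂ[X] :=
  1 - C (2 * (c : ℂ)) * H + C ((c : ℂ) ^ 2) * L

lemma QQ_ne {H L : ℂ[X]} (hH : H.Monic) (hH2 : H.natDegree = 2) (hL : L.natDegree ≤ 1) {c : ℕ}
    (hc : c ≠ 0) : QQ H L c ≠ 0 := by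
  intro h0
  have h1 := congrArg (fun q => q.coeff 2) h0
  unfold QQ at h1
  simp only [coeff_add, coeff_sub, coeff_C_mul, coeff_zero] at h1
  have h2 : H.coeff 2 = 1 := by
    have := hH.coeff_natDegree
    rwa [hH2] at this
  have h3 : L.coeff 2 = 0 := coeff_eq_zero_of_natDegree_lt (by omega)
  have h4 : (1 : ℂ[X]).coeff 2 = 0 := by
    rw [coeff_one, if_neg (by norm_num)]
  rw [h2, h3, h4] at h1
  have h5 : (c : ℂ) ≠ 0 := Nat.cast_ne_zero.mpr hc
  apply h5
  linear_combination (-1 / 2) * h1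

lemma QQ_eval (H L : ℂ[X]) (c : ℕ) (x : ℂ) :
    (QQ H L c).eval x = 1 - 2 * (c : ℂ) * H.eval x + (c : ℂ) ^ 2 * L.eval x := by
  unfold QQ
  simp only [eval_add, eval_sub, eval_mul, eval_C, eval_one]

lemma QQ_aeval {Ω : Type*} [Field Ω] [Algebra ℂ Ω] (H L : ℂ[X]) (c : ℕ) (x : Ω) :
    aeval x (QQ H L c) = 1 - 2 * (c : Ω) * aeval x H + (c : Ω) ^ 2 * aeval x L := by
  unfold QQ
  simp only [map_add, map_sub, map_mul, map_one, map_pow, map_natCast, map_ofNat]

end R1aux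

open R1aux

theorem exists_mu {n : ℕ} (H L : Fin n → ℂ[X]) (hH : ∀ j, (H j).Monic ∧ (H j).natDegree = 2)
    (hL : ∀ j, (L j).natDegree ≤ 1) : ∃ μ : Fin n → ℕ → ℂ, GoodMu H L μ := by
  classical
  have hS : ∀ j : Fin n, ∃ f : ℕ → ℂ, Function.Injective f ∧
      ∀ k, ∀ c ∈ Finset.Icc 1 n, (QQ (H j) (L j) c).eval (f k) ≠ 0 := by
    intro j
    let S : Finset ℂ := (Finset.Icc 1 n).biUnion fun c => (QQ (H j) (L j) c).roots.toFinset
    have hinf : ((S : Set ℂ)ᶜ).Infinite := S.finite_toSet.infinite_compl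
    refine ⟨fun k => (hinf.natEmbedding _ k : ℂ), ?_, ?_⟩
    · intro k k' h
      exact (hinf.natEmbedding _).injective (Subtype.ext h)
    · intro k c hc h0
      have hk : ((hinf.natEmbedding _ k : ℂ)) ∉ S := (hinf.natEmbedding _ k).2
      apply hk
      rw [Finset.mem_biUnion]
      refine ⟨c, hc, ?_⟩
      rw [Multiset.mem_toFinset, mem_roots']
      rw [Finset.mem_Icc] at hc
      exact ⟨QQ_ne (hH j).1 (hH j).2 (hL j) (by omega), h0⟩
  choose f hf1 hf2 using hS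
  refine ⟨f, fun j c hc c' hc' => ⟨fun hne h => hne (hf1 j h), ?_⟩⟩
  have := hf2 j c' c hc
  rwa [QQ_eval] at this

namespace R1aux

/-- the data for one index -/
theorem loc {n m δ : ℕ} (hm : n ≤ m) (hδ : 2 ≤ δ) {D H L B : ℂ[X]}
    (hP : IsPell δ D H L B) (μ : ℕ → ℂ)
    {Ω : Type*} [Field Ω] [Algebra ℂ Ω] (E : IntermediateField ℂ Ω) {a b ρ ρ' τ τ' y : Ω}
    (h1 : ρ * ρ' = b ^ 2)
    (h2 : y ^ 2 = hom H 2 a b ^ 2 - hom L 1 a b * b ^ 3)
    (h3 : 2 * ρ ^ δ = hom D δ a b + hom B (δ - 2) a b * y)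
    (h4 : 2 * ρ' ^ δ = hom D δ a b - hom B (δ - 2) a b * y)
    (h5 : τ * ρ' = y - hom H 2 a b)
    (h6 : τ' * ρ = - (y + hom H 2 a b))
    (h7 : τ * τ' = b * hom L 1 a b) (hab : a ≠ 0 ∨ b ≠ 0)
    (hu : b ≠ 0 → a / b ∈ E) (hy : b ≠ 0 → y / b ^ 2 ∈ E) [Decidable (b = 0)] :
    ∃ (g : Ω) (G : ℕ → Ω), (g ^ δ = if b = 0 then 1 else (ρ / b) ^ δ) ∧
      (∀ c ∈ Finset.Icc 1 n, (ρ + (c : Ω) * τ) ^ c * (a - algebraMap ℂ Ω (μ c) * b) ^ (m - c) =
        (if b = 0 then a else b) ^ m * g ^ c * G c) ∧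
      (∀ c, G c ∈ E) ∧
      (∀ c ∈ Finset.Icc 1 n, G c = 0 → b ≠ 0 ∧
        (aeval (a / b) (QQ H L c) = 0 ∧ 1 + (c : Ω) * (y / b ^ 2 - aeval (a / b) H) = 0 ∨
          a / b = algebraMap ℂ Ω (μ c))) := by
  have hcz : CharZero Ω := charZero_of_injective_algebraMap (algebraMap ℂ Ω).injective
  have h20 : (2 : Ω) ≠ 0 := two_ne_zero
  by_cases hb : b = 0
  · have ha : a ≠ 0 := by
      rcases hab with h | h
      · exact h
      · exact absurd hb h
    subst hb
    have cD : D.coeff δ = 1 := by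
      have := hP.D_monic.coeff_natDegree
      rwa [hP.D_deg] at this
    have cH : H.coeff 2 = 1 := by
      have := hP.H_monic.coeff_natDegree
      rwa [hP.H_deg] at this
    have cB : B.coeff (δ - 2) = 1 := by
      have := hP.B_monic.coeff_natDegree
      rwa [hP.B_deg] at this
    rw [hom_b0, hom_b0, cH, map_one, one_mul] at h2
    rw [hom_b0, hom_b0, cD, cB, map_one, one_mul, one_mul] at h3 h4
    rw [hom_b0, cH, map_one, one_mul] at h5 h6
    rw [zero_mul] at h7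
    rw [zero_pow two_ne_zero] at h1
    rw [zero_pow three_ne_zero, mul_zero, sub_zero] at h2
    obtain ⟨d, rfl⟩ : ∃ d, δ = d + 2 := ⟨δ - 2, by omega⟩
    rw [Nat.add_sub_cancel] at h3 h4
    have hyy : (y - a ^ 2) * (y + a ^ 2) = 0 := by linear_combination h2
    rcases mul_eq_zero.mp hyy with hy1 | hy1
    · have hy2 : y = a ^ 2 := by linear_combination hy1
      subst hy2
      have e1 : ρ ^ (d + 2) = a ^ (d + 2) := by
        have : 2 * ρ ^ (d + 2) = 2 * a ^ (d + 2) := by rw [h3]; ring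
        exact mul_left_cancel₀ h20 this
      have hρ : ρ ≠ 0 := by
        intro h0
        rw [h0, zero_pow (by omega)] at e1
        exact pow_ne_zero _ ha e1.symm
      have hτ' : τ' ≠ 0 := by
        intro h0
        rw [h0, zero_mul] at h6
        have : 2 * a ^ 2 = 0 := by linear_combination h6
        exact mul_ne_zero h20 (pow_ne_zero 2 ha) this
      have hτ : τ = 0 := by
        rcases mul_eq_zero.mp h7 with h | h
        · exact h
        · exact absurd h hτ'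
      refine ⟨ρ / a, fun _ => 1, ?_, ?_, fun _ => E.one_mem, ?_⟩
      · rw [if_pos rfl, div_pow, e1, div_self (pow_ne_zero _ ha)]
      · intro c hc
        rw [Finset.mem_Icc] at hc
        rw [if_pos rfl, hτ, mul_zero, add_zero, mul_zero, sub_zero, mul_one]
        obtain ⟨e, he⟩ : ∃ e, m = c + e := ⟨m - c, by omega⟩
        have h8 : m - c = e := by omega
        rw [h8, he, div_pow, pow_add]
        field_simp
      · intro c _ h
        exact absurd h one_ne_zero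
    · have hy2 : y = - a ^ 2 := by linear_combination hy1
      subst hy2
      have e1 : ρ' ^ (d + 2) = a ^ (d + 2) := by
        have : 2 * ρ' ^ (d + 2) = 2 * a ^ (d + 2) := by rw [h4]; ring
        exact mul_left_cancel₀ h20 this
      have hρ' : ρ' ≠ 0 := by
        intro h0
        rw [h0, zero_pow (by omega)] at e1
        exact pow_ne_zero _ ha e1.symm
      have hρ : ρ = 0 := by
        rcases mul_eq_zero.mp h1 with h | h
        · exact h
        · exact absurd h hρ'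
      have hτ : τ = - 2 * (a / ρ') * a := by
        have : τ = (τ * ρ') / ρ' := by field_simp
        rw [this, h5]
        field_simp
        ring
      refine ⟨a / ρ', fun c => (- 2 * (c : Ω)) ^ c, ?_, ?_, ?_, ?_⟩
      · rw [if_pos rfl, div_pow, e1, div_self (pow_ne_zero _ ha)]
      · intro c hc
        rw [Finset.mem_Icc] at hc
        rw [if_pos rfl, hτ, hρ, mul_zero, sub_zero, zero_add]
        obtain ⟨e, he⟩ : ∃ e, m = c + e := ⟨m - c, by omega⟩
        have h8 : m - c = e := by omega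
        rw [h8, he, pow_add]
        generalize a / ρ' = g
        have h9 : (c : Ω) * (-2 * g * a) = a * g * (-2 * (c : Ω)) := by ring
        rw [h9, mul_pow, mul_pow]
        ring
      · intro c
        refine pow_mem (E.mul_mem (E.neg_mem ?_) (natCast_mem E c)) _
        exact ofNat_mem E 2
      · intro c hc h
        rw [Finset.mem_Icc] at hc
        exfalso
        have : (c : Ω) ≠ 0 := Nat.cast_ne_zero.mpr (by omega)
        exact pow_ne_zero _ (mul_ne_zero (neg_ne_zero.mpr h20) this) h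
  · have hb2 : b ^ 2 ≠ 0 := pow_ne_zero 2 hb
    have hρρ : ρ * ρ' ≠ 0 := by rw [h1]; exact hb2
    have hρ : ρ ≠ 0 := left_ne_zero_of_mul hρρ
    have hρ' : ρ' ≠ 0 := right_ne_zero_of_mul hρρ
    rw [hom_ne H 2 hP.H_deg.le a b hb] at h2 h5
    rw [hom_ne L 1 hP.L_deg a b hb] at h2
    obtain ⟨x, hx⟩ : ∃ x, x = a / b := ⟨_, rfl⟩
    obtain ⟨g, hg⟩ : ∃ g, g = ρ / b := ⟨_, rfl⟩
    obtain ⟨Y, hY⟩ : ∃ Y, Y = y / b ^ 2 := ⟨_, rfl⟩
    have hae : a = b * x := by
      rw [hx]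
      field_simp
    have hρe : ρ = b * g := by
      rw [hg]
      field_simp
    have hye : y = b ^ 2 * Y := by
      rw [hY]
      field_simp
    rw [← hx] at h2 h5
    -- the value of `τ`
    have hτ : τ = ρ * (Y - aeval x H) := by
      have h8 : τ * ρ' = (ρ * (Y - aeval x H)) * ρ' := by
        rw [h5, hye]
        linear_combination -(Y - aeval x H) * h1
      exact mul_right_cancel₀ hρ' h8
    have hY2 : Y ^ 2 = (aeval x H) ^ 2 - aeval x L := by
      have h8 : b ^ 4 * Y ^ 2 = b ^ 4 * ((aeval x H) ^ 2 - aeval x L) := by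
        rw [hye] at h2
        linear_combination h2
      exact mul_left_cancel₀ (pow_ne_zero 4 hb) h8
    have hxE : x ∈ E := by
      rw [hx]
      exact hu hb
    have hYE : Y ∈ E := by
      rw [hY]
      exact hy hb
    have hHE : aeval x H ∈ E := by
      have h8 : aeval x H = ((aeval (⟨x, hxE⟩ : E) H : E) : Ω) :=
        aeval_algebraMap_apply Ω (⟨x, hxE⟩ : E) H
      rw [h8]
      exact (aeval (⟨x, hxE⟩ : E) H).2
    refine ⟨g, fun c => (1 + (c : Ω) * (Y - aeval x H)) ^ c *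
      (x - algebraMap ℂ Ω (μ c)) ^ (m - c), ?_, ?_, ?_, ?_⟩
    · rw [if_neg hb, hg]
    · intro c hc
      rw [Finset.mem_Icc] at hc
      rw [if_neg hb, hτ, hρe, hae]
      beta_reduce
      obtain ⟨e, rfl⟩ : ∃ e, m = c + e := ⟨m - c, by omega⟩
      have h8 : c + e - c = e := by omega
      rw [h8, pow_add]
      have h9 : b * g + (c : Ω) * (b * g * (Y - aeval x H)) =
          b * g * (1 + (c : Ω) * (Y - aeval x H)) := by ring
      have h10 : b * x - algebraMap ℂ Ω (μ c) * b = b * (x - algebraMap ℂ Ω (μ c)) := by ring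
      rw [h9, h10, mul_pow, mul_pow, mul_pow]
      ring
    · intro c
      refine E.mul_mem (pow_mem (E.add_mem E.one_mem (E.mul_mem (natCast_mem E c)
        (E.sub_mem hYE hHE))) _) (pow_mem (E.sub_mem hxE (E.algebraMap_mem _)) _)
    · intro c hc h
      rw [Finset.mem_Icc] at hc
      refine ⟨hb, ?_⟩
      rw [← hx, ← hY]
      rcases mul_eq_zero.mp h with h8 | h8
      · left
        have h9 := eq_zero_of_pow_eq_zero h8
        refine ⟨?_, h9⟩
        rw [QQ_aeval]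
        linear_combination ((c : Ω) ^ 2) * hY2 +
          (1 - (c : Ω) * aeval x H - (c : Ω) * Y) * h9
      · right
        have h9 := eq_zero_of_pow_eq_zero h8
        linear_combination h9

end R1aux

open Classical in
theorem root_small2 {n m δ : ℕ} (hn : 1 ≤ n) (hm : n ≤ m) (hδ : 2 ≤ δ) (D H L B : Fin n → ℂ[X])
    (hP : ∀ j, IsPell δ (D j) (H j) (L j) (B j)) (μ : Fin n → ℕ → ℂ) (hμ : GoodMu H L μ)
    {Ω : Type*} [Field Ω] [Algebra ℂ Ω] (E : IntermediateField ℂ Ω) (a b ρ ρ' τ τ' y : Fin n → Ω)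
    (hrel : Rel2 δ D H L B a b ρ ρ' τ τ' y) (hab : ∀ j, a j ≠ 0 ∨ b j ≠ 0)
    (hu : ∀ j, b j ≠ 0 → a j / b j ∈ E) (hy : ∀ j, b j ≠ 0 → y j / b j ^ 2 ∈ E)
    (z : Ω) (hz : z ^ m = WW2 m μ a b ρ τ) (hzE : z / ∏ j, (if b j = 0 then a j else b j) ∈ E)
    (hnc : ¬ ∀ j, b j ≠ 0 ∧ a j / b j ∈ (⊥ : IntermediateField ℂ Ω)) :
    ∃ R : Ω, R ^ δ = (∏ j, if b j = 0 then 1 else (ρ j / b j) ^ δ) ∧
      ∃ q : Polynomial E, q ≠ 0 ∧ q.natDegree ≤ n ∧ Polynomial.aeval R q = 0 := by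
  have hcz : CharZero Ω := charZero_of_injective_algebraMap (algebraMap ℂ Ω).injective
  have hex := fun j => loc (n := n) hm hδ (hP j) (μ j) E (hrel.h1 j) (hrel.h2 j) (hrel.h3 j)
    (hrel.h4 j) (hrel.h5 j) (hrel.h6 j) (hrel.h7 j) (hab j) (hu j) (hy j)
  choose g G hgδ hgc hGE hG0 using hex
  set S : Ω := ∏ j, (if b j = 0 then a j else b j) with hS
  have hS0 : S ≠ 0 := by
    rw [hS, Finset.prod_ne_zero_iff]
    intro j _
    split_ifs with h
    · rcases hab j with h' | h'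
      · exact h'
      · exact absurd h h'
    · exact h
  set R : Ω := ∏ j, g j with hR
  have hRδ : R ^ δ = ∏ j, if b j = 0 then 1 else (ρ j / b j) ^ δ := by
    rw [hR, ← Finset.prod_pow]
    exact Finset.prod_congr rfl fun j _ => hgδ j
  have hWW : WW2 m μ a b ρ τ = S ^ m * ∑ c ∈ Finset.Icc 1 n, (∏ j, G j c) * R ^ c := by
    unfold WW2
    rw [Finset.mul_sum]
    refine Finset.sum_congr rfl fun c hc => ?_
    rw [Finset.prod_congr rfl fun j _ => hgc j c hc, Finset.prod_mul_distrib,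
      Finset.prod_mul_distrib, Finset.prod_pow, Finset.prod_pow]
    ring
  have hv : (z / S) ^ m = ∑ c ∈ Finset.Icc 1 n, (∏ j, G j c) * R ^ c := by
    rw [div_pow, hz, hWW]
    have hSm : S ^ m ≠ 0 := pow_ne_zero _ hS0
    field_simp
  by_cases hG : ∃ c ∈ Finset.Icc 1 n, ∏ j, G j c ≠ 0
  · obtain ⟨c₀, hc₀, hc₀'⟩ := hG
    rw [Finset.mem_Icc] at hc₀
    let GE : ℕ → E := fun c => ⟨∏ j, G j c, prod_mem fun j _ => hGE j c⟩
    let vE : E := ⟨z / S, hzE⟩
    let Q : Polynomial E := ∑ c ∈ Finset.Icc 1 n, Polynomial.C (GE c) * Polynomial.X ^ c -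
      Polynomial.C (vE ^ m)
    have hcoeff : Q.coeff c₀ = GE c₀ := by
      show (∑ c ∈ Finset.Icc 1 n, Polynomial.C (GE c) * Polynomial.X ^ c -
        Polynomial.C (vE ^ m)).coeff c₀ = _
      rw [Polynomial.coeff_sub, Polynomial.finsetSum_coeff, Polynomial.coeff_C_of_ne_zero (by omega),
        sub_zero, Finset.sum_eq_single c₀]
      · rw [Polynomial.coeff_C_mul, Polynomial.coeff_X_pow_self, mul_one]
      · intro c _ hc
        rw [Polynomial.coeff_C_mul, Polynomial.coeff_X_pow, if_neg (Ne.symm hc), mul_zero]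
      · intro h
        exact absurd (Finset.mem_Icc.mpr hc₀) h
    have hQ0 : Q ≠ 0 := by
      intro h0
      rw [h0, Polynomial.coeff_zero] at hcoeff
      exact hc₀' (congrArg Subtype.val hcoeff).symm
    have hQd : Q.natDegree ≤ n := by
      refine (Polynomial.natDegree_sub_le _ _).trans (max_le ?_ ?_)
      · refine Polynomial.natDegree_sum_le_of_forall_le _ _ fun c hc => ?_
        rw [Finset.mem_Icc] at hc
        exact (Polynomial.natDegree_C_mul_X_pow_le _ _).trans hc.2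
      · rw [Polynomial.natDegree_C]
        exact Nat.zero_le _
    have hQR : Polynomial.aeval R Q = 0 := by
      show Polynomial.aeval R (∑ c ∈ Finset.Icc 1 n, Polynomial.C (GE c) * Polynomial.X ^ c -
        Polynomial.C (vE ^ m)) = 0
      rw [map_sub, map_sum, Polynomial.aeval_C, sub_eq_zero, map_pow]
      refine Eq.trans ?_ hv.symm
      refine Finset.sum_congr rfl fun c _ => ?_
      rw [map_mul, Polynomial.aeval_C, map_pow, Polynomial.aeval_X]
      rfl
    exact ⟨R, hRδ, Q, hQ0, hQd, hQR⟩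
  · exfalso
    push Not at hG
    have hex : ∀ c ∈ Finset.Icc 1 n, ∃ j, b j ≠ 0 ∧
        (aeval (a j / b j) (QQ (H j) (L j) c) = 0 ∧
          1 + (c : Ω) * (y j / b j ^ 2 - aeval (a j / b j) (H j)) = 0 ∨
          a j / b j = algebraMap ℂ Ω (μ j c)) := by
      intro c hc
      obtain ⟨j, -, hj⟩ := Finset.prod_eq_zero_iff.mp (hG c hc)
      exact ⟨j, hG0 j c hc hj⟩
    have hmix : ∀ (j : Fin n) (c c' : ℕ), c ∈ Finset.Icc 1 n → c' ∈ Finset.Icc 1 n →
        aeval (a j / b j) (QQ (H j) (L j) c) = 0 → a j / b j = algebraMap ℂ Ω (μ j c') →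
        False := by
      intro j c c' hc hc' h1 h2
      rw [h2, aeval_algebraMap_apply] at h1
      have h3 : (QQ (H j) (L j) c).eval (μ j c') = 0 := by
        have h4 := (map_eq_zero (algebraMap ℂ Ω)).mp h1
        exact h4
      rw [QQ_eval] at h3
      exact (hμ j c hc c' hc').2 h3
    let f : Fin n → Fin n := fun c => (hex (c + 1) (Finset.mem_Icc.mpr ⟨by omega, c.2⟩)).choose
    have hf : ∀ c : Fin n, b (f c) ≠ 0 ∧
        (aeval (a (f c) / b (f c)) (QQ (H (f c)) (L (f c)) (c + 1)) = 0 ∧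
          1 + ((c + 1 : ℕ) : Ω) * (y (f c) / b (f c) ^ 2 - aeval (a (f c) / b (f c)) (H (f c))) = 0 ∨
          a (f c) / b (f c) = algebraMap ℂ Ω (μ (f c) (c + 1))) :=
      fun c => (hex (c + 1) (Finset.mem_Icc.mpr ⟨by omega, c.2⟩)).choose_spec
    have hIcc : ∀ c : Fin n, (c : ℕ) + 1 ∈ Finset.Icc 1 n :=
      fun c => Finset.mem_Icc.mpr ⟨by omega, c.2⟩
    have hinj : Function.Injective f := by
      intro c c' h
      by_contra hne
      have hne' : (c : ℕ) + 1 ≠ (c' : ℕ) + 1 := fun h1 => hne (Fin.ext (by omega))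
      obtain ⟨-, h2⟩ := hf c
      obtain ⟨-, h4⟩ := hf c'
      rw [← h] at h4
      rcases h2 with ⟨h2, h2'⟩ | h2
      · rcases h4 with ⟨h4, h4'⟩ | h4
        · generalize y (f c) / b (f c) ^ 2 - aeval (a (f c) / b (f c)) (H (f c)) = η at h2' h4'
          have h5 : ((((c : ℕ) + 1 : ℕ) : Ω) - (((c' : ℕ) + 1 : ℕ) : Ω)) * η = 0 := by
            linear_combination h2' - h4'
          rcases mul_eq_zero.mp h5 with h6 | h6
          · apply hne'
            exact Nat.cast_injective (R := Ω) (by linear_combination h6)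
          · rw [h6, mul_zero, add_zero] at h2'
            exact one_ne_zero h2'
        · exact hmix _ _ _ (hIcc c) (hIcc c') h2 h4
      · rcases h4 with ⟨h4, -⟩ | h4
        · exact hmix _ _ _ (hIcc c') (hIcc c) h4 h2
        · rw [h2] at h4
          exact (hμ (f c) _ (hIcc c) _ (hIcc c')).1 hne' ((algebraMap ℂ Ω).injective h4)
    have hsurj := Finite.surjective_of_injective hinj
    apply hnc
    intro j
    obtain ⟨c, rfl⟩ := hsurj j
    obtain ⟨h1, h2⟩ := hf c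
    refine ⟨h1, CD.T9aux.mem_bot_of_alg ?_⟩
    rcases h2 with ⟨h2, -⟩ | h2
    · exact ⟨_, QQ_ne (hP (f c)).H_monic (hP (f c)).H_deg (hP (f c)).L_deg (Nat.succ_ne_zero _), h2⟩
    · rw [h2]
      exact isAlgebraic_algebraMap _

end Pool.Agent.H861.CE
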