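import Pool.Agent.H861.CD.Field
import Pool.Agent.H861.CE.P1
import Pool.Agent.H861.CE.R1

set_option autoImplicit false

open Module Polynomial

namespace Pool.Agent.H861.CE

open IntermediateField
open Pool.Agent.H861.CD (sig sig_unique sig_root sig_zero_of prod_if_subtype GoodC goodC_adjoin_range root_zero
  root_quadratic exists_nonconst zdiv_mem transc_of_nonconst fd_main finrank_prod comap_nonunits relfinrank_sub)

lemma hom_eq {Ω : Type*} [Field Ω] [Algebra ℂ Ω] (P : ℂ[X]) {d : ℕ} (hd : P.natDegree ≤ d) (a : Ω) {b : Ω}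
    (hb : b ≠ 0) : hom P d a b = b ^ d * aeval (a / b) P := by
  rw [hom, aeval_eq_sum_range' (n := d + 1) (by omega), Finset.mul_sum]
  refine Finset.sum_congr rfl fun i hi => ?_
  have hi' : i ≤ d := by
    rw [Finset.mem_range] at hi; omega
  have h1 : b ^ d = b ^ i * b ^ (d - i) := by rw [← pow_add]; congr 1; omega
  rw [Algebra.smul_def, div_pow, h1]
  have h2 : b ^ i ≠ 0 := pow_ne_zero _ hb
  field_simp

lemma rel_fin {Ω : Type*} [Field Ω] [Algebra ℂ Ω] {δ : ℕ} (hδ : 2 ≤ δ) {D H L B : ℂ[X]}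
    (hP : IsPell δ D H L B) {a b ρ ρ' y : Ω} (hb : b ≠ 0) (h1 : ρ * ρ' = b ^ 2)
    (h2 : y ^ 2 = hom H 2 a b ^ 2 - hom L 1 a b * b ^ 3)
    (h3 : 2 * ρ ^ δ = hom D δ a b + hom B (δ - 2) a b * y)
    (h4 : 2 * ρ' ^ δ = hom D δ a b - hom B (δ - 2) a b * y) :
    (y / b ^ 2) ^ 2 = aeval (a / b) (H ^ 2 - L) ∧
    2 * (ρ / b) ^ δ = aeval (a / b) D + aeval (a / b) B * (y / b ^ 2) ∧
    (ρ / b) ^ δ ≠ 0 ∧ (ρ / b) ^ δ + ((ρ / b) ^ δ)⁻¹ = aeval (a / b) D := by
  have hc : CharZero Ω := charZero_of_injective_algebraMap (algebraMap ℂ Ω).injective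
  rw [hom_eq H hP.H_deg.le a hb, hom_eq L hP.L_deg a hb] at h2
  rw [hom_eq D hP.D_deg.le a hb, hom_eq B hP.B_deg.le a hb] at h3 h4
  have hbδ : b ^ δ = b ^ (δ - 2) * b ^ 2 := by rw [← pow_add]; congr 1; omega
  have hb0 : b ^ δ ≠ 0 := pow_ne_zero _ hb
  have e1 : (y / b ^ 2) ^ 2 = aeval (a / b) (H ^ 2 - L) := by
    rw [div_pow, h2, map_sub, map_pow]
    field_simp
  have e2 : 2 * (ρ / b) ^ δ = aeval (a / b) D + aeval (a / b) B * (y / b ^ 2) := by
    rw [div_pow, ← mul_div_assoc, h3, div_eq_iff hb0, hbδ]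
    field_simp
  have e3 : 2 * (ρ' / b) ^ δ = aeval (a / b) D - aeval (a / b) B * (y / b ^ 2) := by
    rw [div_pow, ← mul_div_assoc, h4, div_eq_iff hb0, hbδ]
    field_simp
  have e4 : (ρ / b) ^ δ * (ρ' / b) ^ δ = 1 := by
    rw [← mul_pow]
    have : ρ / b * (ρ' / b) = 1 := by
      rw [div_mul_div_comm, h1, ← pow_two, div_self (pow_ne_zero _ hb)]
    rw [this, one_pow]
  have e5 : (ρ / b) ^ δ ≠ 0 := left_ne_zero_of_mul_eq_one e4
  refine ⟨e1, e2, e5, ?_⟩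
  rw [← eq_inv_of_mul_eq_one_right e4]
  have h2' : (2 : Ω) ≠ 0 := two_ne_zero
  apply mul_left_cancel₀ h2'
  rw [mul_add, e2, e3]
  ring

/-- a square root -/
lemma root_sq {Ω : Type*} [Field Ω] [Algebra ℂ Ω] {L : IntermediateField ℂ Ω} {n : ℕ} (hn : 2 ≤ n) {w f : Ω}
    (hf : f ∈ L) (h : w ^ 2 = f) : ∃ q : Polynomial L, q ≠ 0 ∧ q.natDegree ≤ n ∧ aeval w q = 0 := by
  refine ⟨X ^ 2 - C (⟨f, hf⟩ : L), ?_, ?_, ?_⟩
  · exact X_pow_sub_C_ne_zero (by norm_num) _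
  · rw [natDegree_X_pow_sub_C]; exact hn
  · simp only [map_sub, map_pow, aeval_X, aeval_C]
    rw [show (algebraMap L Ω) ⟨f, hf⟩ = f from rfl, h, sub_self]

lemma exists_w {Ω : Type*} [Field Ω] [IsAlgClosed Ω] (u : Ω) : ∃ w : Ω, w ≠ 0 ∧ w + w⁻¹ = u := by
  obtain ⟨w, hw⟩ := IsAlgClosed.exists_root (X ^ 2 - C u * X + 1 : Polynomial Ω) (by
    have : (X ^ 2 - C u * X + 1 : Polynomial Ω).natDegree = 2 := by compute_degree!
    intro h0
    have := natDegree_eq_of_degree_eq_some (n := 0) h0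
    omega)
  simp only [IsRoot.def, eval_add, eval_sub, eval_pow, eval_X, eval_mul, eval_C, eval_one] at hw
  have hw0 : w ≠ 0 := by
    rintro rfl
    simp at hw
  refine ⟨w, hw0, ?_⟩
  field_simp
  linear_combination hw

lemma aeval_mem {Ω : Type*} [Field Ω] [Algebra ℂ Ω] (E : IntermediateField ℂ Ω) {x : Ω} (hx : x ∈ E) (P : ℂ[X]) :
    aeval x P ∈ E := by
  have := (aeval (⟨x, hx⟩ : E) P).2
  have h2 : ((aeval (⟨x, hx⟩ : E) P : E) : Ω) = aeval x P :=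
    (aeval_algebraMap_apply Ω (⟨x, hx⟩ : E) P).symm
  rwa [h2] at this

/-- The main theorem on the level of fields. -/
theorem field_main2 {n r : ℕ} (hn : 2 ≤ n) (m : Fin r → ℕ) (hm : ∀ k, n ≤ m k) {p : ℕ} (hp : p.Prime) (hK : Kummer2 p) (s : Fin r → ℕ)
    (hs : ∀ k, s k ≠ 0) (D H L' B' : Fin r → Fin n → ℂ[X])
    (hP : ∀ k j, IsPell (p ^ s k) (D k j) (H k j) (L' k j) (B' k j))
    (hG : ∀ i : Fin r → Fin n, GoodPlace p s D i) (μ : Fin r → Fin n → ℕ → ℂ)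
    (hμ : ∀ k, GoodMu (H k) (L' k) (μ k))
    {Ω : Type} [Field Ω] [Algebra ℂ Ω] [IsAlgClosed Ω] (y : Fin (n + 1) → Ω) (z : Fin r → Ω)
    (a b ρ ρ' τ τ' v : Fin r → Fin n → Ω) (hsig : ∀ k (i : Fin (n + 1)), y i = sig (a k) (b k) i)
    (hrel : ∀ k, Rel2 (p ^ s k) (D k) (H k) (L' k) (B' k) (a k) (b k) (ρ k) (ρ' k) (τ k) (τ' k) (v k))
    (hz : ∀ k, z k ^ m k = WW2 (m k) (μ k) (a k) (b k) (ρ k) (τ k))
    (hr : 0 < r)
    {ι : Type} [Finite ι] (f : ι → Ω) (L : IntermediateField ℂ Ω) (hL : L = adjoin ℂ (Set.range f))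
    (hLy : ∀ i i', y i / y i' ∈ L) (hLz : ∀ k i, z k / y i ∈ L)
    (hdep : ∀ u : Fin 2 → Ω, (∀ i, u i ∈ L) → ¬ AlgebraicIndependent ℂ u)
    (hnc : ∃ i i', y i' ≠ 0 ∧ y i / y i' ∉ (⊥ : IntermediateField ℂ Ω)) :
    ∃ (E : IntermediateField ℂ Ω) (A B : Fin n → Ω) (P : MvPolynomial (Fin 2) ℂ),
      GoodC p ((n + n + r * n + r) * Nat.log p n) L E ∧
      (∀ i : Fin (n + 1), y i = sig A B i) ∧ (∀ j, A j ≠ 0 ∨ B j ≠ 0) ∧ P ≠ 0 ∧
      ∀ c : Fin 2 → ℂ, MvPolynomial.eval c P ≠ 0 → c 0 ≠ c 1 ∧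
        (∀ j m, B j ≠ 0 → A j / B j ≠ algebraMap ℂ Ω (c m)) ∧
        (∀ (j j' : Fin n) (V : ValuationSubring Ω), (∀ z : ℂ, algebraMap ℂ Ω z ∈ V) → B j ≠ 0 → B j' ≠ 0 →
          ¬ (A j / B j - algebraMap ℂ Ω (c 0) ∈ V.nonunits ∧
            A j' / B j' - algebraMap ℂ Ω (c 1) ∈ V.nonunits)) ∧
        p ^ (∑ k, s k) ∣ relfinrank (adjoin ℂ {∏ j, (B j * algebraMap ℂ Ω (c 0) - A j) /
          (B j * algebraMap ℂ Ω (c 1) - A j)}) E := by
  classical
  have hn1 : 1 ≤ n := by omega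
  have hδ : ∀ k, 2 ≤ p ^ s k := fun k => le_trans hp.two_le (Nat.le_self_pow (hs k) p)
  obtain ⟨i₁, i₀, hy0, hnc'⟩ := hnc
  have hab : ∀ k j, a k j ≠ 0 ∨ b k j ≠ 0 := by
    intro k j
    by_contra hc
    push Not at hc
    exact hy0 (by rw [hsig k i₀]; exact sig_zero_of _ _ hc.1 hc.2 _)
  set k₀ : Fin r := ⟨0, hr⟩ with hk₀
  set A := a k₀ with hA
  set B := b k₀ with hB
  have hAB := hab k₀
  have hperm : ∀ k, ∃ (π : Equiv.Perm (Fin n)) (l : Fin n → Ω), (∀ j, l j ≠ 0) ∧ (∏ j, l j) = 1 ∧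
      ∀ j, a k j = l j * A (π j) ∧ b k j = l j * B (π j) := by
    intro k
    refine sig_unique A B (a k) (b k) ⟨i₀, ?_⟩ fun i => ?_
    · rw [← hsig k₀ i₀]; exact hy0
    · rw [← hsig k₀ i, hsig k i]
  choose π l hl0 hl1 hl using hperm
  -- the elements u, w, h
  set u : Fin n → Ω := fun j => A j / B j with hu
  choose w hw0 hw1 using fun j => exists_w (u j)
  set h : Fin r → Fin n → Ω := fun k j => (ρ k ((π k).symm j) / b k ((π k).symm j)) ^ (p ^ s k) with hh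
  set x : Fin r → Fin n → Ω := fun k j => v k ((π k).symm j) / b k ((π k).symm j) ^ 2 with hx
  have hbB : ∀ k j, b k ((π k).symm j) = 0 ↔ B j = 0 := by
    intro k j
    rw [(hl k _).2, Equiv.apply_symm_apply, mul_eq_zero]
    constructor
    · rintro (h1 | h1)
      · exact absurd h1 (hl0 k _)
      · exact h1
    · intro h1; exact Or.inr h1
  have hratio : ∀ k j, a k j / b k j = u (π k j) := by
    intro k j
    rw [(hl k j).1, (hl k j).2]
    exact mul_div_mul_left _ _ (hl0 k j)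
  -- properties
  have hfin : ∀ k j, B j ≠ 0 → x k j ^ 2 = aeval (u j) (H k ((π k).symm j) ^ 2 - L' k ((π k).symm j)) ∧
      2 * h k j = aeval (u j) (D k ((π k).symm j)) + aeval (u j) (B' k ((π k).symm j)) * x k j ∧
      h k j ≠ 0 ∧ h k j + (h k j)⁻¹ = aeval (u j) (D k ((π k).symm j)) := by
    intro k j hj
    have hj' : b k ((π k).symm j) ≠ 0 := fun h0 => hj ((hbB k j).1 h0)
    have := rel_fin (hδ k) (hP k ((π k).symm j)) hj' ((hrel k).h1 _) ((hrel k).h2 _) ((hrel k).h3 _) ((hrel k).h4 _)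
    rwa [hratio, Equiv.apply_symm_apply] at this
  -- the tower
  set E1 := L ⊔ adjoin ℂ (Set.range u) with hE1
  set E2 := E1 ⊔ adjoin ℂ (Set.range w) with hE2
  set E3 := E2 ⊔ adjoin ℂ (Set.range fun q : Fin r × Fin n => x q.1 q.2) with hE3
  have hu1 : ∀ j, u j ∈ E1 := fun j =>
    (le_sup_right : adjoin ℂ (Set.range u) ≤ E1) (subset_adjoin _ _ ⟨j, rfl⟩)
  have hw4 : ∀ j, w j ∈ E2 := fun j =>
    (le_sup_right : adjoin ℂ (Set.range w) ≤ E2) (subset_adjoin _ _ ⟨j, rfl⟩)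
  have hx2 : ∀ k j, x k j ∈ E3 := fun k j =>
    (le_sup_right : adjoin ℂ (Set.range fun q : Fin r × Fin n => x q.1 q.2) ≤ E3)
      (subset_adjoin _ _ ⟨(k, j), rfl⟩)
  have h12 : E1 ≤ E2 := le_sup_left
  have h23 : E2 ≤ E3 := le_sup_left
  have hLE1 : L ≤ E1 := le_sup_left
  have hu3 : ∀ j, u j ∈ E3 := fun j => h23 (h12 (hu1 j))
  have hw5 : ∀ j, w j ∈ E3 := fun j => h23 (hw4 j)
  have hh2 : ∀ k j, B j ≠ 0 → h k j ∈ E3 := by
    intro k j hj
    obtain ⟨-, e2, -, -⟩ := hfin k j hj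
    have hc : CharZero Ω := charZero_of_injective_algebraMap (algebraMap ℂ Ω).injective
    have e3 : h k j = (aeval (u j) (D k ((π k).symm j)) + aeval (u j) (B' k ((π k).symm j)) * x k j) / 2 := by
      rw [← e2]; field_simp
    rw [e3]
    refine div_mem (add_mem (aeval_mem E3 (hu3 j) _) (mul_mem (aeval_mem E3 (hu3 j) _) (hx2 k j))) ?_
    exact ofNat_mem _ _
  have G1 : GoodC p (n * Nat.log p n) L E1 := by
    have := goodC_adjoin_range (n := n) hp L u (by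
      intro j
      exact sig_root L A B (l := i₀) (by rw [← hsig k₀ i₀]; exact hy0)
        (fun i => by rw [← hsig k₀ i, ← hsig k₀ i₀]; exact hLy i i₀) j)
    rwa [Fintype.card_fin] at this
  have G2 : GoodC p (n * Nat.log p n) E1 E2 := by
    have := goodC_adjoin_range (n := n) hp E1 w (by
      intro j
      have e1 := hw0 j
      refine root_quadratic hn (hu1 j) ?_
      rw [← hw1 j]; field_simp; ring)
    rwa [Fintype.card_fin] at this
  have G3 : GoodC p (r * n * Nat.log p n) E2 E3 := by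
    have := goodC_adjoin_range (n := n) hp E2 (fun q : Fin r × Fin n => x q.1 q.2) (by
      rintro ⟨k, j⟩
      by_cases hj : B j = 0
      · refine root_zero hn1 ?_
        show x k j = 0
        rw [hx]
        simp only [(hbB k j).2 hj]
        simp
      · exact root_sq hn (aeval_mem E2 (h12 (hu1 j)) _) (hfin k j hj).1)
    rwa [Fintype.card_prod, Fintype.card_fin, Fintype.card_fin] at this
  have G := G1.trans (G2.trans G3)
  have hLE3 : L ≤ E3 := G.1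
  -- some u is nonconstant
  obtain ⟨j₀, hj₀, hj₁⟩ := exists_nonconst A B hAB ⟨i₁, i₀, by rw [← hsig k₀ i₀]; exact hy0, by
    rw [← hsig k₀ i₀, ← hsig k₀ i₁]; exact hnc'⟩
  -- the roots
  have hroots : ∀ k, ∃ R : Ω, R ^ (p ^ s k) = (∏ j, if b k j = 0 then 1 else (ρ k j / b k j) ^ (p ^ s k)) ∧
      ∃ q : Polynomial E3, q ≠ 0 ∧ q.natDegree ≤ n ∧ Polynomial.aeval R q = 0 := by
    intro k
    refine root_small2 hn1 (hm k) (hδ k) (D k) (H k) (L' k) (B' k) (hP k) (μ k) (hμ k) E3 (a k) (b k) (ρ k) (ρ' k)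
      (τ k) (τ' k) (v k) (hrel k) (hab k) ?_ ?_ (z k) (hz k) ?_ ?_
    · intro j _; rw [hratio]; exact hu3 _
    · intro j _
      have := hx2 k (π k j)
      simp only [hx, Equiv.symm_apply_apply] at this
      exact this
    · refine zdiv_mem E3 (a k) (b k) (hab k) (fun j _ => by rw [hratio]; exact hu3 _) (z k) (i := i₀) ?_ ?_
      · rw [← hsig k i₀]; exact hy0
      · rw [← hsig k i₀]; exact hLE3 (hLz k i₀)
    · intro hall
      obtain ⟨e1, e2⟩ := hall ((π k).symm j₀)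
      rw [hratio, Equiv.apply_symm_apply] at e2
      exact hj₁ e2
  choose R hR hRq using hroots
  set E4 := E3 ⊔ adjoin ℂ (Set.range R) with hE4
  have h34 : E3 ≤ E4 := le_sup_left
  have hRE : ∀ k, R k ∈ E4 := fun k =>
    (le_sup_right : adjoin ℂ (Set.range R) ≤ E4) (subset_adjoin _ _ ⟨k, rfl⟩)
  have G4 : GoodC p (r * Nat.log p n) E3 E4 := by
    have := goodC_adjoin_range (n := n) hp E3 R hRq
    rwa [Fintype.card_fin] at this
  have G' : GoodC p ((n + n + r * n + r) * Nat.log p n) L E4 := (G.trans G4).mono (by ring_nf; exact le_rfl)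
  have hLE4 : L ≤ E4 := G'.1
  have hu4 : ∀ j, u j ∈ E4 := fun j => h34 (hu3 j)
  have hw6 : ∀ j, w j ∈ E4 := fun j => h34 (hw5 j)
  have hh4 : ∀ k j, B j ≠ 0 → h k j ∈ E4 := fun k j hj => h34 (hh2 k j hj)
  have hR' : ∀ k, R k ^ (p ^ s k) = ∏ j : {j // B j ≠ 0}, h k j := by
    intro k
    rw [hR k, ← Equiv.prod_comp (π k).symm]
    refine prod_if_subtype (fun j => B j ≠ 0) _ _ (fun j hj => ?_) (fun j hj => ?_)
    · rw [if_neg fun h0 => hj ((hbB k j).1 h0)]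
    · rw [if_pos ((hbB k j).2 (not_not.1 hj))]
  -- the index set
  have hfd : ∀ v : E4, Transcendental ℂ v → FiniteDimensional (adjoin ℂ {v}) E4 := by
    intro v hv
    exact fd_main f L E4 hL hLE4 hdep (hLy i₁ i₀) (transc_of_nonconst hnc') G'.2.1 v hv
  obtain ⟨P, hP0, hP'⟩ := finrank_prod (E := E4) (J := {j // B j ≠ 0}) (fun j => (⟨u j, hu4 j⟩ : E4))
    ⟨⟨j₀, hj₀⟩, by
      have h1 := transc_of_nonconst hj₁
      intro h2
      exact h1 (h2.algebraMap (A := Ω))⟩ (fun j hj => hfd _ hj)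
  refine ⟨E4, A, B, P, G', hsig k₀, hAB, hP0, fun c hc => ?_⟩
  obtain ⟨c1, c2, c3, c4⟩ := hP' c hc
  refine ⟨c1, ?_, ?_, ?_⟩
  · intro j m hj heq
    apply c2 ⟨j, hj⟩ m
    apply Subtype.ext
    exact heq
  · rintro j j' V hV hj hj' ⟨e1, e2⟩
    refine c3 ⟨j, hj⟩ ⟨j', hj'⟩ (V.comap (algebraMap E4 Ω)) (fun z => ?_) ⟨?_, ?_⟩
    · rw [ValuationSubring.mem_comap]
      exact hV z
    · rw [comap_nonunits]; exact e1
    · rw [comap_nonunits]; exact e2
  · have h4 := c4 (p ^ ∑ k, s k) fun i hi => by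
      refine place_dvd2 hp hK s (fun k (j : {j // B j ≠ 0}) => D k ((π k).symm j))
        (fun k j => ⟨(hP k _).D_monic, (hP k _).D_deg⟩) i ?_
        (fun j => (⟨u j, hu4 j⟩ : E4)) (fun j => (⟨w j, hw6 j⟩ : E4)) ?_ hi (hfd _ hi) ?_
        (fun k j => (⟨h k j, hh4 k j j.2⟩ : E4)) ?_ ?_ (fun k => (⟨R k, hRE k⟩ : E4)) ?_
      · obtain ⟨O, DO, Q, g1, g2, g3, g4, g5⟩ := hG (fun k => (π k).symm i)
        refine ⟨O, fun k j => DO k ((π k).symm j), Q, g1, g2, fun k j => g3 _ _, fun k j hj => ?_, g5⟩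
        refine g4 k _ fun h0 => hj ?_
        exact Subtype.ext ((π k).symm.injective h0)
      · intro j
        apply Subtype.ext
        exact hw1 j
      · intro j h0
        exact hw0 j (congrArg Subtype.val h0)
      · intro k j h0
        exact (hfin k j j.2).2.2.1 (congrArg Subtype.val h0)
      · intro k j
        apply Subtype.ext
        have h2 : ((aeval (⟨u j, hu4 j⟩ : E4) (D k ((π k).symm j)) : E4) : Ω) = aeval (u j) (D k ((π k).symm j)) :=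
          (aeval_algebraMap_apply Ω (⟨u j, hu4 j⟩ : E4) _).symm
        rw [h2]
        exact (hfin k j j.2).2.2.2
      · intro k
        apply Subtype.ext
        have e1 : (((fun k => (⟨R k, hRE k⟩ : E4)) k ^ p ^ s k : E4) : Ω) = R k ^ p ^ s k := rfl
        rw [e1, hR' k]
        exact (map_prod (algebraMap E4 Ω) (fun j : {j // B j ≠ 0} => (⟨h k j, hh4 k j j.2⟩ : E4)) Finset.univ).symm
    have h5 := relfinrank_sub E4 (∏ j : {j // B j ≠ 0}, ((⟨u j, hu4 j⟩ : E4) - algebraMap ℂ E4 (c 0)) /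
      ((⟨u j, hu4 j⟩ : E4) - algebraMap ℂ E4 (c 1)))
    rw [← h5] at h4
    have h6 : ((∏ j : {j // B j ≠ 0}, ((⟨u j, hu4 j⟩ : E4) - algebraMap ℂ E4 (c 0)) /
      ((⟨u j, hu4 j⟩ : E4) - algebraMap ℂ E4 (c 1)) : E4) : Ω) = ∏ j, (B j * algebraMap ℂ Ω (c 0) - A j) /
          (B j * algebraMap ℂ Ω (c 1) - A j) := by
      rw [prod_if_subtype (fun j => B j ≠ 0) (fun j => (B j * algebraMap ℂ Ω (c 0) - A j) /
          (B j * algebraMap ℂ Ω (c 1) - A j)) (fun j => (u j - algebraMap ℂ Ω (c 0)) / (u j - algebraMap ℂ Ω (c 1)))]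
      · exact (map_prod (algebraMap E4 Ω) _ Finset.univ)
      · intro j hj
        have e1 : A j = B j * u j := by simp only [hu]; field_simp
        rw [e1, ← mul_sub, ← mul_sub, mul_div_mul_left _ _ hj, ← neg_sub, ← neg_sub (u j), neg_div_neg_eq]
      · intro j hj
        rw [not_not] at hj
        rw [hj, zero_mul, zero_mul, zero_sub]
        refine div_self (neg_ne_zero.2 ?_)
        rcases hAB j with e | e
        · exact e
        · exact absurd hj e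
    rw [h6] at h4
    exact h4

end Pool.Agent.H861.CE
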