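import Pool.Agent.H861.CD.Curve2
import Pool.Agent.H861.CE.Field2

set_option autoImplicit false

open Module

namespace Pool.Agent.H861.CE

open IntermediateField
open Pool.Agent.H861.CD (sig sig_eval eY eZ eY_or_eZ emb hom_scale val_main loss exists_generic nonconstant eval_zero
  integral_z const_of_alg dependent integral_of_val degree_eq)

/-- what the form has to satisfy (conclusion of `exists_form2`) -/
def IsForm2 {n : ℕ} (m δ : ℕ) (D H L B : Fin n → Polynomial ℂ) (μ : Fin n → ℕ → ℂ)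
    (f : MvPolynomial (Fin (n + 1) ⊕ Unit) ℂ) : Prop :=
  f.IsHomogeneous (m * (δ * (n.factorial * 2 ^ n))) ∧
      f.coeff (Finsupp.single (Sum.inr ()) (m * (δ * (n.factorial * 2 ^ n)))) = 1 ∧
      ∀ (Ω : Type) [Field Ω] [Algebra ℂ Ω] [IsAlgClosed Ω] (y : Fin (n + 1) → Ω) (z : Ω),
        y ≠ 0 → MvPolynomial.aeval (Sum.elim y (fun _ => z)) f = 0 →
        ∃ a b ρ ρ' τ τ' w : Fin n → Ω, (∀ i : Fin (n + 1), y i = sig a b i) ∧
          Rel2 δ D H L B a b ρ ρ' τ τ' w ∧ z ^ m = WW2 m μ a b ρ τ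

theorem curve_dvd2 {n r : ℕ} (hn : 2 ≤ n) (m : Fin r → ℕ) (hm : ∀ k, n ≤ m k) {p : ℕ} (hp : p.Prime)
    (hK : Kummer2 p) (s : Fin r → ℕ)
    (hs : ∀ k, s k ≠ 0) (D H L' B' : Fin r → Fin n → Polynomial ℂ)
    (hP : ∀ k j, IsPell (p ^ s k) (D k j) (H k j) (L' k j) (B' k j))
    (hG : ∀ i : Fin r → Fin n, GoodPlace p s D i) (μ : Fin r → Fin n → ℕ → ℂ)
    (hμ : ∀ k, GoodMu (H k) (L' k) (μ k))
    (F : Fin r → MvPolynomial (Fin (n + 1) ⊕ Unit) ℂ)
    (hF : ∀ k, IsForm2 (m k) (p ^ s k) (D k) (H k) (L' k) (B' k) (μ k) (F k))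
    (I : Ideal (MvPolynomial (Fin (n + r + 1)) ℂ))
    (hhom : ∀ p ∈ I, ∀ k : ℕ, MvPolynomial.homogeneousComponent k p ∈ I) (hprime : I.IsPrime) {e : ℕ}
    (he : 0 < e)
    (hdeg : ∃ K : ℕ, ∀ k : ℕ, K ≤ k →
      finrank ℂ (Submodule.map (Ideal.Quotient.mkₐ ℂ I).toLinearMap
        (MvPolynomial.homogeneousSubmodule (Fin (n + r + 1)) ℂ (k + 1))) =
      finrank ℂ (Submodule.map (Ideal.Quotient.mkₐ ℂ I).toLinearMap
        (MvPolynomial.homogeneousSubmodule (Fin (n + r + 1)) ℂ k)) + e)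
    (hI : ∀ k, MvPolynomial.rename (emb k) (F k) ∈ I) :
    p ^ ((∑ k, s k) - loss n r p) ∣ e := by
  classical
  rcases Nat.eq_zero_or_pos r with hr | hr
  · subst hr
    simp
  obtain ⟨Ω, _, _, _, x, hx⟩ := exists_generic I hprime
  set y : Fin (n + 1) → Ω := fun i => x (eY i) with hy
  set z : Fin r → Ω := fun k => x (eZ k) with hz
  have hF0 : ∀ k, MvPolynomial.aeval (Sum.elim y (fun _ => z k)) (F k) = 0 := by
    intro k
    have h1 := (hx _).1 (hI k)
    rw [MvPolynomial.aeval_rename] at h1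
    have h2 : x ∘ emb k = Sum.elim y (fun _ => z k) := by
      funext i
      rcases i with i | i <;> rfl
    rwa [h2] at h1
  obtain ⟨v₁, v₀, hv0, hv1⟩ := nonconstant I he hdeg x hx
  have hy0 : y ≠ 0 := by
    intro h0
    apply hv0
    rcases eY_or_eZ v₀ with ⟨i, rfl⟩ | ⟨k, rfl⟩
    · exact congrFun h0 i
    · refine eval_zero (F k) (hF k).1 (hF k).2.1 (z k) ?_
      rw [← h0]; exact hF0 k
  obtain ⟨i₀, hi0⟩ := Function.ne_iff.1 hy0
  have hi0' : y i₀ ≠ 0 := hi0
  choose a b ρ ρ' τ τ' v hsig hrel hzz using fun k => (hF k).2.2 Ω y (z k) hy0 (hF0 k)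
  set L : IntermediateField ℂ Ω :=
    adjoin ℂ (Set.range fun q : Fin (n + r + 1) × Fin (n + r + 1) => x q.1 / x q.2) with hL
  have hLx : ∀ v v', x v / x v' ∈ L := fun v v' => subset_adjoin _ _ ⟨(v, v'), rfl⟩
  -- nonconstant ratio of the y
  have hnc : ∃ i i', y i' ≠ 0 ∧ y i / y i' ∉ (⊥ : IntermediateField ℂ Ω) := by
    by_contra hc
    push Not at hc
    have h1 : ∀ v, x v / y i₀ ∈ (⊥ : IntermediateField ℂ Ω) := by
      intro v
      rcases eY_or_eZ v with ⟨i, rfl⟩ | ⟨k, rfl⟩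
      · exact hc i i₀ hi0'
      · have h2 : MvPolynomial.aeval (Sum.elim (fun i => y i / y i₀) (fun _ => z k / y i₀)) (F k) = 0 := by
          have h3 : (Sum.elim (fun i => y i / y i₀) (fun _ => z k / y i₀) : Fin (n + 1) ⊕ Unit → Ω) =
              (fun i => (y i₀)⁻¹ * Sum.elim y (fun _ => z k) i) := by
            funext i
            rcases i with i | i
            · show y i / y i₀ = (y i₀)⁻¹ * y i
              rw [div_eq_inv_mul]
            · show z k / y i₀ = (y i₀)⁻¹ * z k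
              rw [div_eq_inv_mul]
          rw [h3, hom_scale (F k) (hF k).1, hF0 k, mul_zero]
        have h4 := integral_z (F k) (hF k).1 (hF k).2.1 (fun i => y i / y i₀) (z k / y i₀) h2
          (⊥ : IntermediateField ℂ Ω).toSubalgebra (fun i => hc i i₀ hi0')
        have h5 : IsIntegral ℂ (z k / y i₀) := by
          have : Algebra.IsIntegral ℂ (⊥ : IntermediateField ℂ Ω).toSubalgebra := by
            have : Algebra.IsIntegral ℂ (⊥ : IntermediateField ℂ Ω) := inferInstance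
            exact this
          exact isIntegral_trans _ h4
        exact const_of_alg h5.isAlgebraic
    apply hv1
    have h2 : x v₁ / x v₀ = (x v₁ / y i₀) / (x v₀ / y i₀) := by field_simp
    rw [h2]
    exact div_mem (h1 _) (h1 _)
  obtain ⟨E, A, B, P, G, hAB, hAB0, hP0, hP'⟩ := field_main2 hn m hm hp hK s hs D H L' B' hP hG μ hμ y z a b ρ ρ' τ τ' v
    hsig hrel hzz hr
    (fun q : Fin (n + r + 1) × Fin (n + r + 1) => x q.1 / x q.2) L hL (fun i i' => hLx _ _) (fun k i => hLx _ _)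
    (fun u hu => dependent I hhom hdeg x hx u hu) hnc
  obtain ⟨c, hc⟩ : ∃ c : Fin 2 → ℂ, MvPolynomial.eval c P ≠ 0 := by
    by_contra hcon
    push Not at hcon
    exact hP0 (MvPolynomial.funext fun c => by rw [hcon c, map_zero])
  obtain ⟨c1, c2, c3, c4⟩ := hP' c hc
  -- linear forms
  set l : Fin 2 → MvPolynomial (Fin (n + r + 1)) ℂ := fun m =>
    ∑ i : Fin (n + 1), MvPolynomial.C (c m ^ (i : ℕ)) * MvPolynomial.X (eY i) with hl
  have hlhom : ∀ m, (l m).IsHomogeneous 1 := by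
    intro m
    apply MvPolynomial.IsHomogeneous.sum
    intro i _
    have := (MvPolynomial.isHomogeneous_C (Fin (n + r + 1)) (c m ^ (i : ℕ))).mul
      (MvPolynomial.isHomogeneous_X ℂ (eY i : Fin (n + r + 1)))
    rwa [zero_add] at this
  have hleval : ∀ m, MvPolynomial.aeval x (l m) = ∏ j, (B j * algebraMap ℂ Ω (c m) - A j) := by
    intro m
    rw [← sig_eval, map_sum]
    refine Finset.sum_congr rfl fun i _ => ?_
    rw [map_mul, MvPolynomial.aeval_X, MvPolynomial.aeval_C, ← hAB i, map_pow, mul_comm]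
  -- integrality
  have hinty : ∀ i, IsIntegral (Algebra.adjoin ℂ {MvPolynomial.aeval x (l 0), MvPolynomial.aeval x (l 1)}) (y i) := by
    intro i
    refine integral_of_val _ _ _ fun V hV h1 h2 => ?_
    rw [hAB i]
    refine val_main A B hAB0 c V hV (fun j j' hj hj' => c3 j j' V hV hj hj') (fun q => ?_) i
    rw [← hleval]
    fin_cases q
    · exact h1
    · exact h2
  have hint : ∀ v, IsIntegral (Algebra.adjoin ℂ {MvPolynomial.aeval x (l 0), MvPolynomial.aeval x (l 1)}) (x v) := by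
    intro v
    rcases eY_or_eZ v with ⟨i, rfl⟩ | ⟨k, rfl⟩
    · exact hinty i
    · set R := Algebra.adjoin ℂ {MvPolynomial.aeval x (l 0), MvPolynomial.aeval x (l 1)} with hR
      have h4 := integral_z (F k) (hF k).1 (hF k).2.1 y (z k) (hF0 k)
        ((integralClosure R Ω).restrictScalars ℂ) (fun i => hinty i)
      have h5 : IsIntegral (integralClosure R Ω) (z k) := h4
      have h6 : IsScalarTower R (integralClosure R Ω) Ω := IsScalarTower.of_algebraMap_eq (fun _ => rfl)
      exact isIntegral_trans (R := R) (A := integralClosure R Ω) _ h5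
  have hmain := degree_eq I hhom he hdeg x hx (l 0) (l 1) (hlhom 0) (hlhom 1) hint
  have hθ : MvPolynomial.aeval x (l 0) / MvPolynomial.aeval x (l 1) =
      ∏ j, (B j * algebraMap ℂ Ω (c 0) - A j) / (B j * algebraMap ℂ Ω (c 1) - A j) := by
    rw [hleval, hleval, Finset.prod_div_distrib]
  have hθL : MvPolynomial.aeval x (l 0) / MvPolynomial.aeval x (l 1) ∈ L := by
    have h1 : ∀ m, MvPolynomial.aeval x (l m) / y i₀ ∈ L := by
      intro m
      rw [hl]
      simp only [map_sum, map_mul, MvPolynomial.aeval_X, MvPolynomial.aeval_C]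
      rw [Finset.sum_div]
      refine sum_mem fun i _ => ?_
      rw [mul_div_assoc]
      exact mul_mem (IntermediateField.algebraMap_mem _ _) (hLx _ _)
    have h2 : MvPolynomial.aeval x (l 0) / MvPolynomial.aeval x (l 1) =
        (MvPolynomial.aeval x (l 0) / y i₀) / (MvPolynomial.aeval x (l 1) / y i₀) := by
      rw [div_div_div_cancel_right₀ hi0']
    rw [h2]
    exact div_mem (h1 0) (h1 1)
  rw [← hθ] at c4
  rw [← relfinrank_mul_relfinrank (adjoin_simple_le_iff.2 hθL) G.1, hmain] at c4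
  have h5 := (hp.pow_dvd_iff_le_factorization (mul_ne_zero he.ne' G.2.1)).1 c4
  rw [Nat.factorization_mul he.ne' G.2.1, Finsupp.add_apply] at h5
  rw [hp.pow_dvd_iff_le_factorization he.ne']
  have h6 := G.2.2
  unfold loss
  omega

end Pool.Agent.H861.CE
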