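import Pool.Agent.H861.CD.T6
import Pool.Agent.H861.CE.Defs

/-!
Project CE (helper861), MP_8dbee4_ag, part F1: `exists_form2` below. It generalises `exists_form` of `Pool/Agent/H861/CD/T6.lean`; copy the proof there with the changes below (generic lemmas of `T6aux`: `exists_root_unity`, `sg`, `exists_ext`, `quad`, `root`, `sc*`, `coeff_sc`, `fac`, `exists_ab`, `map_sig`, `sig_perm`, `AA`, `MM`, ... can be cited).

Notation: `A = ℂ[a_j, b_j : j < n] = MvPolynomial (Fin n ⊕ Fin n) ℂ`, `M` = algebraic closure of `Frac A`, `Ā` = integral closure of `A` in `M`, `σ_i = sig a b i ∈ A`, `E = m · δ · n! · 2^n`.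
For a polynomial `P` and `d` write `P^h_j := hom P d a_j b_j` (`d = δ, 2, 1, δ-2` for `D, H, L, B`). From `IsPell`: `(D^h)^2 - ((H^h)^2 - L^h b^3)(B^h)^2 = 4 b^(2δ)` (homogenisation is multiplicative; e.g. for `b ≠ 0`: `hom P d a b = b^d P(a/b)` if `deg P ≤ d`; also `H^h(1, 0) = 1` etc.).

**The quantities in M.** For `l, j < n` (`l` = index of the polynomials, `j` = index of the variables): `y_{l,j} ∈ M` with `y^2 = (H_l^h)^2 - L_l^h b_j^3`; `ρ_{l,j}` with `2ρ^δ = D_l^h + B_l^h y`; `ρ'_{l,j} := b_j^2/ρ_{l,j}` (`ρ ≠ 0` as `(D^h + B^h y)(D^h - B^h y) = 4 b^(2δ) ≠ 0`), so `2ρ'^δ = D_l^h - B_l^h y`;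
`τ_{l,j} := ρ (y - H^h)/b^2`, `τ'_{l,j} := -ρ' (y + H^h)/b^2`. So `τρ' = y - H^h`, `τ'ρ = -(y + H^h)`, `ττ' = -(y^2 - (H^h)^2)/b^2 = b L^h`. The pair (`ρ', τ'`) with `-y` satisfies the same relations as (`ρ, τ`) with `y`. (*) If `(x, x', t, t', z)` satisfies the relations `Rel2` for `a_j, b_j` and `(D_l, H_l, L_l, B_l)` in `M` then
`z = ±y_{l,j}`, and there is `ζ ∈ ℂ`, `ζ^δ = 1`, with `(x, x', t, t') = (ζρ, ζ⁻¹ρ', ζτ, ζ⁻¹τ')` if `z = y`, and `(ζρ', ζ⁻¹ρ, ζτ', ζ⁻¹τ)` if `z = -y` (case `y ≠ 0`; as `b_j ≠ 0` in `M`, `τ` is determined by `ρ` and `y`).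

**Integrality.** `y, ρ, ρ'` are integral over `A` (`1/2 ∈ A`). `τ, τ'` are integral over `A`: an element of the field `M` is integral over `A` iff it is in every valuation ring `V ⊇ A` of `M` (`isIntegral_of_forall` in `Pool/Agent/H861/CD/T2.lean`). So let `V` be a valuation ring of `M` containing `A`; all is homogeneous in `(a, b) = (a_j, b_j)` (`ρ, ρ', τ, τ'` of degree 1,
`y` of degree 2). Case 1, `a/b ∈ V`: with `u = a/b`, `y/b^2` is a root of `T^2 = H(u)^2 - L(u)`, so in `V`, `ρ/b ∈ V` (a `δ`-th root of `(D(u) + B(u) y/b^2)/2`), `τ/b = (ρ/b)(y/b^2 - H(u)) ∈ V`, so `τ ∈ V`. Case 2, `b/a ∈ m_V` (`a ≠ 0`): put `b₁ = b/a`, `y₁ = y/a^2`, `ρ₁ = ρ/a`, `ρ'₁ = ρ'/a`, `τ₁ = τ/a`: the relations hold for `(1, b₁)`.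
`y₁^2 = H^h(1, b₁)^2 - L^h(1,b₁) b₁^3`, `H^h(1, b₁) ≡ 1` modulo `m_V` (`H` monic), so `y₁ ≡ ±1`. If `y₁ ≡ 1`: `y₁ + H^h(1,b₁) ≡ 2` is a unit, so `y₁ - H^h(1,b₁) = -L^h b₁^3/(y₁ + H^h) ∈ b₁^2 V`, `τ₁ = ρ₁ (y₁ - H^h)/b₁^2 ∈ V`. If `y₁ ≡ -1`: `2ρ'₁^δ = D^h(1,b₁) - B^h(1,b₁) y₁ ≡ 2` so `ρ'₁` is a unit, and
`τ₁ = (y₁ - H^h)/ρ'₁ ∈ V`. For `τ'` by symmetry (`y ↦ -y`).

**The index set.** `I = Perm(Fin n) × (Fin n → Bool) × μ_δ` as in T6. For `(π, ε, ζ) ∈ I`: `(x_l, t_l) := (ρ_{l,πl}, τ_{l,πl})` if `ε_l` and `(ρ'_{l,πl}, τ'_{l,πl})` otherwise and `W(π,ε,ζ) := Σ_{c=1}^n ζ^c ∏_l (x_l + c t_l)^c (a_{πl} - μ_{l,c} b_{πl})^(m-c)`. If `(x_l, t_l)` is replaced by `(η x_l, η t_l)`, `η^δ = 1`, for one `l`, the `c`-th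
summand is multiplied by `η^c`: i.e. `ζ` is replaced by `ζη`. `f₂(Z) := ∏_I (Z^m - W(π,ε,ζ))`, of degree `E`; `W` is homogeneous of degree `m` in every pair: if `τ̂` is an automorphism of `M/ℂ` with `τ̂ a_j = λ_j a_{θj}`, `τ̂ b_j = λ_j b_{θj}` then (`y ↦ ±λ_j^2 y_{l,θj}`, `ρ_{l,j} ↦ λ_j η ρ_{l,θj}` or `λ_j η ρ'_{l,θj}`, ...)
`τ̂ W(i) = (∏ λ_j)^m W(g(i))` for an injection `g : I → I`. The rest (descent with `multisymmetric`, specialisation, conclusion) is as in T6.
-/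

set_option autoImplicit false

open Polynomial Module

namespace Pool.Agent.H861.CE

open Pool.Agent.H861.CD (sig)

namespace F1aux
/-! ### homogenisation -/

section homs

theorem hom_map {R S : Type*} [CommRing R] [Algebra ℂ R] [CommRing S] [Algebra ℂ S]
    (ψ : R →ₐ[ℂ] S) (P : ℂ[X]) (d : ℕ) (a b : R) :
    ψ (hom P d a b) = hom P d (ψ a) (ψ b) := by
  simp only [hom, map_sum, map_mul, map_pow, AlgHom.commutes]

theorem hom_smul {R : Type*} [CommRing R] [Algebra ℂ R] (P : ℂ[X]) (d : ℕ) (c a b : R) :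
    hom P d (c * a) (c * b) = c ^ d * hom P d a b := by
  rw [hom, hom, Finset.mul_sum]
  refine Finset.sum_congr rfl fun i hi => ?_
  have hi' : i ≤ d := Nat.lt_succ_iff.1 (Finset.mem_range.1 hi)
  have h : c ^ d = c ^ i * c ^ (d - i) := by
    rw [← pow_add]; congr 1; omega
  rw [h, mul_pow, mul_pow]; ring

theorem hom_field {M : Type*} [Field M] [Algebra ℂ M] (P : ℂ[X]) (d : ℕ) (hd : P.natDegree ≤ d)
    (a b : M) (hb : b ≠ 0) : hom P d a b = b ^ d * aeval (a / b) P := by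
  rw [hom, aeval_eq_sum_range' (n := d + 1) (by omega), Finset.mul_sum]
  refine Finset.sum_congr rfl fun i hi => ?_
  have hi' : i ≤ d := Nat.lt_succ_iff.1 (Finset.mem_range.1 hi)
  have h : b ^ d = b ^ i * b ^ (d - i) := by
    rw [← pow_add]; congr 1; omega
  rw [h, Algebra.smul_def, div_pow]
  field_simp

theorem hom_pell {M : Type*} [Field M] [Algebra ℂ M] {δ : ℕ} (hδ : 2 ≤ δ) {D H L B : ℂ[X]}
    (hP : IsPell δ D H L B) (a b : M) (hb : b ≠ 0) :
    hom D δ a b ^ 2 - (hom H 2 a b ^ 2 - hom L 1 a b * b ^ 3) * hom B (δ - 2) a b ^ 2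
      = 4 * (b ^ 2) ^ δ := by
  rw [hom_field D δ hP.D_deg.le a b hb, hom_field H 2 hP.H_deg.le a b hb,
    hom_field L 1 hP.L_deg a b hb, hom_field B (δ - 2) hP.B_deg.le a b hb]
  have h := congrArg (fun p => aeval (a / b) p) hP.eq
  simp only [map_sub, map_mul, map_pow, map_ofNat] at h
  have h1 : (b ^ 2) ^ δ = b ^ δ * b ^ δ := by rw [← pow_mul, two_mul, pow_add]
  obtain ⟨k, rfl⟩ := Nat.exists_eq_add_of_le hδ
  have h2 : 2 + k - 2 = k := by omega
  rw [h1, h2]
  have h3 : b ^ (2 + k) = b ^ 2 * b ^ k := pow_add _ _ _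
  rw [h3]
  linear_combination (b ^ 2 * b ^ k) ^ 2 * h

theorem hom_mem {M : Type*} [Field M] [Algebra ℂ M] {V : ValuationSubring M}
    (hV : ∀ z : ℂ, algebraMap ℂ M z ∈ V) (P : ℂ[X]) (d : ℕ) {a b : M} (ha : a ∈ V) (hb : b ∈ V) :
    hom P d a b ∈ V :=
  sum_mem fun _ _ => mul_mem (mul_mem (hV _) (pow_mem ha _)) (pow_mem hb _)

theorem hom_one {M : Type*} [Field M] [Algebra ℂ M] {V : ValuationSubring M}
    (hV : ∀ z : ℂ, algebraMap ℂ M z ∈ V) (P : ℂ[X]) (d : ℕ) (hP : P.Monic) (hd : P.natDegree = d)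
    {v : M} (hv : v ∈ V) : ∃ G ∈ V, hom P d 1 v = 1 + v * G := by
  refine ⟨∑ i ∈ Finset.range d, algebraMap ℂ M (P.coeff i) * v ^ (d - i - 1), ?_, ?_⟩
  · exact sum_mem fun _ _ => mul_mem (hV _) (pow_mem hv _)
  · have hc : P.coeff d = 1 := by rw [← hd]; exact hP
    rw [hom, Finset.sum_range_succ, hc, Finset.mul_sum, map_one, one_pow, tsub_self, pow_zero,
      mul_one, mul_one, add_comm]
    congr 1
    refine Finset.sum_congr rfl fun i hi => ?_
    have hi' : i < d := Finset.mem_range.1 hi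
    have h : v ^ (d - i) = v * v ^ (d - i - 1) := by
      rw [← pow_succ']; congr 1; omega
    rw [h, one_pow]; ring

end homs

/-! ### the relations for one index -/

/-- the relations between the auxiliary quantities, for one index -/
structure R2 {R : Type*} [CommRing R] [Algebra ℂ R] (δ : ℕ) (D H L B : ℂ[X])
    (a b y x x' t t' : R) : Prop where
  h1 : x * x' = b ^ 2
  h2 : y ^ 2 = hom H 2 a b ^ 2 - hom L 1 a b * b ^ 3
  h3 : 2 * x ^ δ = hom D δ a b + hom B (δ - 2) a b * y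
  h4 : 2 * x' ^ δ = hom D δ a b - hom B (δ - 2) a b * y
  h5 : t * x' = y - hom H 2 a b
  h6 : t' * x = - (y + hom H 2 a b)
  h7 : t * t' = b * hom L 1 a b

section R2

variable {R : Type*} [CommRing R] [Algebra ℂ R] {δ : ℕ} {D H L B : ℂ[X]} {a b y x x' t t' : R}

theorem R2.symm (h : R2 δ D H L B a b y x x' t t') : R2 δ D H L B a b (-y) x' x t' t where
  h1 := by rw [mul_comm]; exact h.h1
  h2 := by rw [neg_sq]; exact h.h2
  h3 := by rw [h.h4]; ring
  h4 := by rw [h.h3]; ring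
  h5 := by rw [h.h6]; ring
  h6 := by rw [h.h5]; ring
  h7 := by rw [mul_comm]; exact h.h7

theorem R2.map {S : Type*} [CommRing S] [Algebra ℂ S] (ψ : R →ₐ[ℂ] S)
    (h : R2 δ D H L B a b y x x' t t') :
    R2 δ D H L B (ψ a) (ψ b) (ψ y) (ψ x) (ψ x') (ψ t) (ψ t') where
  h1 := by rw [← map_mul, h.h1, map_pow]
  h2 := by rw [← map_pow, h.h2]; simp only [map_sub, map_mul, map_pow, hom_map]
  h3 := by
    have := congrArg ψ h.h3
    simpa only [map_add, map_mul, map_pow, hom_map, map_ofNat] using this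
  h4 := by
    have := congrArg ψ h.h4
    simpa only [map_sub, map_mul, map_pow, hom_map, map_ofNat] using this
  h5 := by
    have := congrArg ψ h.h5
    simpa only [map_sub, map_mul, map_pow, hom_map] using this
  h6 := by
    have := congrArg ψ h.h6
    simpa only [map_add, map_neg, map_mul, map_pow, hom_map] using this
  h7 := by
    have := congrArg ψ h.h7
    simpa only [map_mul, map_pow, hom_map] using this

theorem R2.of_map {S : Type*} [CommRing S] [Algebra ℂ S] (ψ : R →ₐ[ℂ] S)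
    (hψ : Function.Injective ψ)
    (h : R2 δ D H L B (ψ a) (ψ b) (ψ y) (ψ x) (ψ x') (ψ t) (ψ t')) :
    R2 δ D H L B a b y x x' t t' where
  h1 := by apply hψ; rw [map_mul, h.h1, map_pow]
  h2 := by apply hψ; rw [map_pow, h.h2]; simp only [map_sub, map_mul, map_pow, hom_map]
  h3 := by
    apply hψ
    simpa only [map_add, map_mul, map_pow, hom_map, map_ofNat] using h.h3
  h4 := by
    apply hψ
    simpa only [map_sub, map_mul, map_pow, hom_map, map_ofNat] using h.h4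
  h5 := by
    apply hψ
    simpa only [map_sub, map_mul, map_pow, hom_map] using h.h5
  h6 := by
    apply hψ
    simpa only [map_add, map_neg, map_mul, map_pow, hom_map] using h.h6
  h7 := by
    apply hψ
    simpa only [map_mul, map_pow, hom_map] using h.h7

theorem R2.scale (hδ : 2 ≤ δ) (c : R) (h : R2 δ D H L B a b y x x' t t') :
    R2 δ D H L B (c * a) (c * b) (c ^ 2 * y) (c * x) (c * x') (c * t) (c * t') := by
  obtain ⟨k, rfl⟩ := Nat.exists_eq_add_of_le hδ
  have h2 : 2 + k - 2 = k := by omega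
  have h3 : c ^ (2 + k) = c ^ 2 * c ^ k := pow_add _ _ _
  constructor
  · linear_combination c ^ 2 * h.h1
  · rw [hom_smul, hom_smul]
    linear_combination c ^ 4 * h.h2
  · rw [hom_smul, hom_smul, mul_pow, h2, h3]
    have := h.h3
    rw [h2] at this
    linear_combination c ^ 2 * c ^ k * this
  · rw [hom_smul, hom_smul, mul_pow, h2, h3]
    have := h.h4
    rw [h2] at this
    linear_combination c ^ 2 * c ^ k * this
  · rw [hom_smul]
    linear_combination c ^ 2 * h.h5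
  · rw [hom_smul]
    linear_combination c ^ 2 * h.h6
  · rw [hom_smul]
    linear_combination c ^ 2 * h.h7

theorem R2.twist (h : R2 δ D H L B a b y x x' t t') {η η' : R} (hη : η * η' = 1)
    (h1 : η ^ δ = 1) : R2 δ D H L B a b y (η * x) (η' * x') (η * t) (η' * t') := by
  have h1' : η' ^ δ = 1 := by
    have : (η * η') ^ δ = 1 := by rw [hη, one_pow]
    rwa [mul_pow, h1, one_mul] at this
  constructor
  · linear_combination x * x' * hη + h.h1
  · exact h.h2
  · rw [mul_pow, h1, one_mul]; exact h.h3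
  · rw [mul_pow, h1', one_mul]; exact h.h4
  · linear_combination t * x' * hη + h.h5
  · linear_combination t' * x * hη + h.h6
  · linear_combination t * t' * hη + h.h7

end R2

section R2field

variable {M : Type*} [Field M] [Algebra ℂ M] {δ : ℕ} {D H L B : ℂ[X]}

/-- the relations determine the quantities up to a root of unity, given `y` -/
theorem R2.unique [NeZero δ] {a b y x x' t t' u u' v v' : M} (hb : b ≠ 0)
    (h : R2 δ D H L B a b y x x' t t') (k : R2 δ D H L B a b y u u' v v') :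
    ∃ e : rootsOfUnity δ ℂ, x = algebraMap ℂ M ((e : ℂˣ) : ℂ) * u ∧
      x' = algebraMap ℂ M (((e⁻¹ : rootsOfUnity δ ℂ) : ℂˣ) : ℂ) * u' ∧
      t = algebraMap ℂ M ((e : ℂˣ) : ℂ) * v ∧
      t' = algebraMap ℂ M (((e⁻¹ : rootsOfUnity δ ℂ) : ℂˣ) : ℂ) * v' := by
  have h2 : (2 : M) ≠ 0 := by
    have : CharZero M := charZero_of_injective_algebraMap (algebraMap ℂ M).injective
    exact two_ne_zero
  have hb2 : b ^ 2 ≠ 0 := pow_ne_zero 2 hb
  have hu : u ≠ 0 := fun h0 => hb2 (by rw [← k.h1, h0, zero_mul])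
  have hu' : u' ≠ 0 := fun h0 => hb2 (by rw [← k.h1, h0, mul_zero])
  have hx : x ≠ 0 := fun h0 => hb2 (by rw [← h.h1, h0, zero_mul])
  have hx' : x' ≠ 0 := fun h0 => hb2 (by rw [← h.h1, h0, mul_zero])
  have hxu : x ^ δ = u ^ δ := mul_left_cancel₀ h2 (by rw [h.h3, k.h3])
  obtain ⟨e, he⟩ := CD.T6aux.exists_root_unity (x / u) (δ := δ) (by
    rw [div_pow, hxu, div_self (pow_ne_zero _ hu)])
  have hx1 : x = algebraMap ℂ M ((e : ℂˣ) : ℂ) * u := by
    rw [he, div_mul_cancel₀ _ hu]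
  have he1 : algebraMap ℂ M (((e⁻¹ : rootsOfUnity δ ℂ) : ℂˣ) : ℂ)
      * algebraMap ℂ M ((e : ℂˣ) : ℂ) = 1 := by
    rw [← map_mul, ← Units.val_mul, ← Subgroup.coe_mul, inv_mul_cancel]
    simp
  have hx2 : x' = algebraMap ℂ M (((e⁻¹ : rootsOfUnity δ ℂ) : ℂˣ) : ℂ) * u' := by
    have h4 : u * u' = u * (algebraMap ℂ M ((e : ℂˣ) : ℂ) * x') := by
      rw [k.h1, ← h.h1, hx1]; ring
    have h5 := mul_left_cancel₀ hu h4
    rw [h5, ← mul_assoc, he1, one_mul]
  refine ⟨e, hx1, hx2, ?_, ?_⟩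
  · apply mul_right_cancel₀ hx'
    rw [h.h5, ← k.h5, hx2]
    linear_combination (- v * u') * he1
  · apply mul_right_cancel₀ hx
    rw [h.h6, ← k.h6, hx1]
    linear_combination (- v' * u) * he1

end R2field
/-! ### integrality -/

section integral

theorem isIntegral_of_forall {A E : Type*} [CommRing A] [Field E] [Algebra A E] {x : E}
    (h : ∀ V : ValuationSubring E, (∀ a : A, algebraMap A E a ∈ V) → x ∈ V) : IsIntegral A x := by
  by_contra hx
  have : IsIntegrallyClosedIn (integralClosure A E).toSubring E :=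
    inferInstanceAs (IsIntegrallyClosedIn (integralClosure A E) E)
  obtain ⟨V, hV1, hV2⟩ := Subring.exists_le_valuationSubring_of_isIntegrallyClosedIn
    (R := (integralClosure A E).toSubring) (x := x) hx
  exact hV2 (h V fun a => hV1 (isIntegral_algebraMap))

theorem mem_of_pow {M : Type*} [Field M] {V : ValuationSubring M} {x : M} {k : ℕ} (hk : k ≠ 0)
    (h : x ^ k ∈ V) : x ∈ V := by
  rw [← V.valuation_le_one_iff] at h ⊢
  rw [map_pow] at h
  exact (pow_le_one_iff hk).1 h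

variable {M : Type*} [Field M] [Algebra ℂ M] {δ : ℕ} {D H L B : ℂ[X]} {V : ValuationSubring M}

theorem half_mem (hV : ∀ z : ℂ, algebraMap ℂ M z ∈ V) {x : M} (h : 2 * x ∈ V) : x ∈ V := by
  have h2 : (2 : M) ≠ 0 := by
    have : CharZero M := charZero_of_injective_algebraMap (algebraMap ℂ M).injective
    exact two_ne_zero
  have h1 := mul_mem (hV (2 : ℂ)⁻¹) h
  rw [map_inv₀, map_ofNat, ← mul_assoc, inv_mul_cancel₀ h2, one_mul] at h1
  exact h1

theorem R2.y_mem {a b y x x' t t' : M} (hV : ∀ z : ℂ, algebraMap ℂ M z ∈ V) (ha : a ∈ V)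
    (hb : b ∈ V) (h : R2 δ D H L B a b y x x' t t') : y ∈ V := by
  apply mem_of_pow two_ne_zero
  rw [h.h2]
  exact sub_mem (pow_mem (hom_mem hV _ _ ha hb) _) (mul_mem (hom_mem hV _ _ ha hb) (pow_mem hb _))

theorem R2.x_mem (hδ : 2 ≤ δ) {a b y x x' t t' : M} (hV : ∀ z : ℂ, algebraMap ℂ M z ∈ V)
    (ha : a ∈ V) (hb : b ∈ V) (h : R2 δ D H L B a b y x x' t t') : x ∈ V := by
  apply mem_of_pow (k := δ) (by omega)
  apply half_mem hV
  rw [h.h3]
  exact add_mem (hom_mem hV _ _ ha hb) (mul_mem (hom_mem hV _ _ ha hb) (h.y_mem hV ha hb))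

theorem R2.t_memA (hδ : 2 ≤ δ) {a y x x' t t' : M} (hV : ∀ z : ℂ, algebraMap ℂ M z ∈ V)
    (ha : a ∈ V) (h : R2 δ D H L B a 1 y x x' t t') : t ∈ V := by
  have h1 : t = x * (y - hom H 2 a 1) := by
    rw [← h.h5]
    linear_combination (-t) * h.h1
  rw [h1]
  exact mul_mem (h.x_mem hδ hV ha (one_mem _))
    (sub_mem (h.y_mem hV ha (one_mem _)) (hom_mem hV _ _ ha (one_mem _)))

theorem R2.t_memB (hδ : 2 ≤ δ) (hP : IsPell δ D H L B) {b y x x' t t' : M} (hb0 : b ≠ 0)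
    (hV : ∀ z : ℂ, algebraMap ℂ M z ∈ V)
    (hb : b ∈ V) (hb1 : V.valuation b < 1) (h : R2 δ D H L B 1 b y x x' t t') : t ∈ V := by
  have h2 : (2 : M) ≠ 0 := by
    have : CharZero M := charZero_of_injective_algebraMap (algebraMap ℂ M).injective
    exact two_ne_zero
  have hy := h.y_mem hV (one_mem _) hb
  have hx := h.x_mem hδ hV (one_mem _) hb
  have hx' := h.symm.x_mem hδ hV (one_mem _) hb
  have hH := hom_mem hV H 2 (one_mem V) hb
  have hL := hom_mem hV L 1 (one_mem V) hb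
  have hb2 : b ^ 2 ≠ 0 := pow_ne_zero 2 hb0
  have hx0 : x' ≠ 0 := fun h0 => hb2 (by rw [← h.h1, h0, mul_zero])
  by_cases hc : x'⁻¹ ∈ V
  · have h1 : t = (y - hom H 2 1 b) * x'⁻¹ := by
      rw [← h.h5, mul_assoc, mul_inv_cancel₀ hx0, mul_one]
    rw [h1]
    exact mul_mem (sub_mem hy hH) hc
  · have hx1 : V.valuation x' < 1 := by
      by_contra hh
      rw [not_lt] at hh
      apply hc
      rw [← V.valuation_le_one_iff, map_inv₀]
      exact inv_le_one_of_one_le₀ hh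
    obtain ⟨GH, hGH, eH⟩ := hom_one hV H 2 hP.H_monic hP.H_deg hb
    obtain ⟨GD, hGD, eD⟩ := hom_one hV D δ hP.D_monic hP.D_deg hb
    obtain ⟨GB, hGB, eB⟩ := hom_one hV B (δ - 2) hP.B_monic hP.B_deg hb
    have hsmall : ∀ G ∈ V, V.valuation (b * G) < 1 := by
      intro G hG
      rw [map_mul]
      rw [← V.valuation_le_one_iff] at hG
      exact mul_lt_one_of_lt_of_le hb1 hG
    have h3 : V.valuation (2 * x' ^ δ) < 1 := by
      have h2V : (2 : M) ∈ V := by
        have := hV 2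
        rwa [map_ofNat] at this
      rw [← V.valuation_le_one_iff] at h2V
      rw [map_mul, map_pow, mul_comm]
      exact mul_lt_one_of_lt_of_le (pow_lt_one₀ zero_le hx1 (by omega)) h2V
    have h4 : V.valuation (1 - y) < 1 := by
      have e : 1 - y = 2 * x' ^ δ - b * (GD - GB * y) := by
        rw [h.h4, eD, eB]; ring
      rw [e]
      exact (V.valuation.map_sub _ _).trans_lt
        (max_lt h3 (hsmall _ (sub_mem hGD (mul_mem hGB hy))))
    have h5 : V.valuation (2 - (y + hom H 2 1 b)) < 1 := by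
      have e : 2 - (y + hom H 2 1 b) = (1 - y) - b * GH := by
        rw [eH]; ring
      rw [e]
      exact (V.valuation.map_sub _ _).trans_lt (max_lt h4 (hsmall _ hGH))
    have h6 : (y + hom H 2 1 b)⁻¹ ∈ V ∧ y + hom H 2 1 b ≠ 0 := by
      have h7 : ¬ V.valuation (y + hom H 2 1 b) < 1 := by
        intro h8
        have h9 : V.valuation 2 < 1 := by
          have e : (2 : M) = (2 - (y + hom H 2 1 b)) + (y + hom H 2 1 b) := by ring
          rw [e]
          exact (V.valuation.map_add _ _).trans_lt (max_lt h5 h8)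
        have h10 : (2 : M)⁻¹ ∈ V := by
          have := hV (2 : ℂ)⁻¹
          rwa [map_inv₀, map_ofNat] at this
        rw [← V.valuation_le_one_iff] at h10
        have h11 : V.valuation (2 * 2⁻¹) < 1 := by
          rw [map_mul]
          exact mul_lt_one_of_lt_of_le h9 h10
        rw [mul_inv_cancel₀ h2, map_one] at h11
        exact lt_irrefl _ h11
      rw [not_lt] at h7
      refine ⟨?_, ?_⟩
      · rw [← V.valuation_le_one_iff, map_inv₀]
        exact inv_le_one_of_one_le₀ h7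
      · intro h8
        rw [h8, map_zero] at h7
        exact absurd h7 (not_le.2 zero_lt_one)
    obtain ⟨h6, h7⟩ := h6
    have h8 : t = - (hom L 1 1 b * b * x) * (y + hom H 2 1 b)⁻¹ := by
      rw [eq_mul_inv_iff_mul_eq₀ h7]
      apply mul_right_cancel₀ hb2
      have e5 := h.h5
      have e2 := h.h2
      have e1 := h.h1
      linear_combination (x * (y + hom H 2 1 b)) * e5 + x * e2 - t * (y + hom H 2 1 b) * e1
    rw [h8]
    exact mul_mem (neg_mem (mul_mem (mul_mem hL hb) hx)) h6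

theorem R2.t_mem (hδ : 2 ≤ δ) (hP : IsPell δ D H L B) {a b y x x' t t' : M} (hb0 : b ≠ 0)
    (hV : ∀ z : ℂ, algebraMap ℂ M z ∈ V) (ha : a ∈ V) (hb : b ∈ V)
    (h : R2 δ D H L B a b y x x' t t') : t ∈ V := by
  by_cases hc : a / b ∈ V
  · have h1 := h.scale hδ b⁻¹
    rw [inv_mul_cancel₀ hb0] at h1
    have h2 := h1.t_memA hδ hV (by rwa [mul_comm, ← div_eq_mul_inv])
    have h3 := mul_mem hb h2
    rwa [← mul_assoc, mul_inv_cancel₀ hb0, one_mul] at h3
  · have ha0 : a ≠ 0 := by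
      rintro rfl
      rw [zero_div] at hc
      exact hc (zero_mem _)
    have h1 := h.scale hδ a⁻¹
    rw [inv_mul_cancel₀ ha0] at h1
    have hv : V.valuation (a⁻¹ * b) < 1 := by
      rw [← V.valuation_le_one_iff, not_le] at hc
      have e : a⁻¹ * b = (a / b)⁻¹ := by rw [inv_div, div_eq_mul_inv, mul_comm]
      rw [e, map_inv₀]
      exact inv_lt_one_of_one_lt₀ hc
    have hvV : a⁻¹ * b ∈ V := by
      rw [← V.valuation_le_one_iff]; exact hv.le
    have h2 := h1.t_memB hδ hP (mul_ne_zero (inv_ne_zero ha0) hb0) hV hvV hv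
    have h3 := mul_mem ha h2
    rwa [← mul_assoc, mul_inv_cancel₀ ha0, one_mul] at h3

end integral

/-! ### existence of the auxiliary quantities -/

section exist

variable {A M : Type} [CommRing A] [Algebra ℂ A] [Field M] [IsAlgClosed M]
  [Algebra ℂ M] [Algebra A M] [IsScalarTower ℂ A M] {δ : ℕ} {D H L B : ℂ[X]}

omit [Algebra ℂ A] [Algebra A M] [IsScalarTower ℂ A M] in
theorem exists_R2_field (hδ : 2 ≤ δ) (hP : IsPell δ D H L B) (a b : M) (hb : b ≠ 0) :
    ∃ y x x' t t' : M, R2 δ D H L B a b y x x' t t' := by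
  have h2 : (2 : M) ≠ 0 := by
    have : CharZero M := charZero_of_injective_algebraMap (algebraMap ℂ M).injective
    exact two_ne_zero
  have hb2 : b ^ 2 ≠ 0 := pow_ne_zero 2 hb
  obtain ⟨y, hy⟩ := IsAlgClosed.exists_pow_nat_eq
    (hom H 2 a b ^ 2 - hom L 1 a b * b ^ 3) (n := 2) (by norm_num)
  obtain ⟨x, hx⟩ := IsAlgClosed.exists_pow_nat_eq
    ((hom D δ a b + hom B (δ - 2) a b * y) / 2) (n := δ) (by omega)
  have hpell := hom_pell hδ hP a b hb
  rw [← hy] at hpell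
  have hp2 : 2 * x ^ δ = hom D δ a b + hom B (δ - 2) a b * y := by
    rw [hx, mul_div_cancel₀ _ h2]
  have hprod : (hom D δ a b + hom B (δ - 2) a b * y) * (hom D δ a b - hom B (δ - 2) a b * y)
      = 4 * (b ^ 2) ^ δ := by
    linear_combination hpell
  have hx0 : x ≠ 0 := by
    rintro rfl
    rw [zero_pow (by omega), mul_zero] at hp2
    rw [← hp2, zero_mul] at hprod
    have h4 : (4 : M) ≠ 0 := by
      have : (4 : M) = 2 * 2 := by norm_num
      rw [this]; exact mul_ne_zero h2 h2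
    exact mul_ne_zero h4 (pow_ne_zero _ hb2) hprod.symm
  have hxx : x * (b ^ 2 / x) = b ^ 2 := mul_div_cancel₀ _ hx0
  refine ⟨y, x, b ^ 2 / x, x * (y - hom H 2 a b) / b ^ 2,
    - ((b ^ 2 / x) * (y + hom H 2 a b) / b ^ 2), hxx, hy, hp2, ?_, ?_, ?_, ?_⟩
  · apply mul_left_cancel₀ (mul_ne_zero h2 (pow_ne_zero δ hx0))
    have e : 2 * x ^ δ * (2 * (b ^ 2 / x) ^ δ) = 4 * (b ^ 2) ^ δ := by
      have : (x * (b ^ 2 / x)) ^ δ = (b ^ 2) ^ δ := by rw [hxx]
      rw [mul_pow] at this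
      linear_combination 4 * this
    rw [e, ← hprod, hp2]
  · field_simp
  · field_simp
  · field_simp
    linear_combination (-1 : M) * hy

theorem exists_R2 (hδ : 2 ≤ δ) (hP : IsPell δ D H L B) (a b : A) (hb : algebraMap A M b ≠ 0) :
    ∃ y x x' t t' : integralClosure A M, R2 δ D H L B (algebraMap A (integralClosure A M) a)
      (algebraMap A (integralClosure A M) b) y x x' t t' := by
  obtain ⟨y, x, x', t, t', h⟩ := exists_R2_field hδ hP (algebraMap A M a) (algebraMap A M b) hb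
  have hC : ∀ V : ValuationSubring M, (∀ a : A, algebraMap A M a ∈ V) →
      ∀ z : ℂ, algebraMap ℂ M z ∈ V := by
    intro V hV z
    rw [IsScalarTower.algebraMap_apply ℂ A M]
    exact hV _
  refine ⟨⟨y, isIntegral_of_forall fun V hV => h.y_mem (hC V hV) (hV _) (hV _)⟩,
    ⟨x, isIntegral_of_forall fun V hV => h.x_mem hδ (hC V hV) (hV _) (hV _)⟩,
    ⟨x', isIntegral_of_forall fun V hV => h.symm.x_mem hδ (hC V hV) (hV _) (hV _)⟩,
    ⟨t, isIntegral_of_forall fun V hV => h.t_mem hδ hP hb (hC V hV) (hV _) (hV _)⟩,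
    ⟨t', isIntegral_of_forall fun V hV => h.symm.t_mem hδ hP hb (hC V hV) (hV _) (hV _)⟩, ?_⟩
  refine R2.of_map ((integralClosure A M).val.restrictScalars ℂ) Subtype.val_injective ?_
  exact h

end exist

/-! ### the twisted sum -/

section generic

variable {n : ℕ} {R : Type*} [CommRing R]

/-- the twisted sum -/
noncomputable def WZ2 (m : ℕ) (μ : Fin n → ℕ → R) (ζ : R) (a b x t : Fin n → R) : R :=
  ∑ c ∈ Finset.Icc 1 n, ζ ^ c *
    ∏ l, ((x l + (c : R) * t l) ^ c * (a l - μ l c * b l) ^ (m - c))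

theorem map_WZ2 {S : Type*} [CommRing S] (ψ : R →+* S) (m : ℕ) (μ : Fin n → ℕ → R) (ζ : R)
    (a b x t : Fin n → R) :
    ψ (WZ2 m μ ζ a b x t) = WZ2 m (fun l c => ψ (μ l c)) (ψ ζ) (fun l => ψ (a l))
      (fun l => ψ (b l)) (fun l => ψ (x l)) (fun l => ψ (t l)) := by
  simp only [WZ2, map_sum, map_mul, map_pow, map_prod, map_add, map_sub, map_natCast]

theorem WZ2_twist {m : ℕ} (hm : n ≤ m) (μ : Fin n → ℕ → R) (ζ : R)
    (lam η a b x t a' b' u v : Fin n → R)
    (ha : ∀ l, a l = lam l * a' l) (hb : ∀ l, b l = lam l * b' l)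
    (hx : ∀ l, x l = lam l * η l * u l) (ht : ∀ l, t l = lam l * η l * v l) :
    WZ2 m μ ζ a b x t = (∏ l, lam l) ^ m * WZ2 m μ (ζ * ∏ l, η l) a' b' u v := by
  rw [WZ2, WZ2, Finset.mul_sum]
  refine Finset.sum_congr rfl fun c hc => ?_
  obtain ⟨hc1, hc2⟩ := Finset.mem_Icc.1 hc
  have hcm : c ≤ m := by omega
  rw [mul_pow, mul_assoc (ζ ^ c), mul_left_comm _ (ζ ^ c), ← Finset.prod_pow, ← Finset.prod_pow,
    ← Finset.prod_mul_distrib, ← Finset.prod_mul_distrib]
  congr 1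
  refine Finset.prod_congr rfl fun l _ => ?_
  rw [ha, hb, hx, ht]
  have e1 : lam l * η l * u l + (c : R) * (lam l * η l * v l)
      = lam l * η l * (u l + (c : R) * v l) := by ring
  have e2 : lam l * a' l - μ l c * (lam l * b' l) = lam l * (a' l - μ l c * b' l) := by ring
  have e3 : lam l ^ m = lam l ^ c * lam l ^ (m - c) := by
    rw [← pow_add]; congr 1; omega
  rw [e1, e2, mul_pow, mul_pow, mul_pow, e3]
  ring

end generic

/-! ### the system of auxiliary quantities -/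

open Pool.Agent.H861.CD.T6aux (Idx sg sg_not instFintypeRoots card_Idx AA MM aI bI coe_aI coe_bI
  bI_ne inj_AM inc inc_apply sc sc_X scEquiv coeff_sc)

/-- the auxiliary quantities -/
structure Dat2 {n : ℕ} (δ : ℕ) (D H L B : Fin n → ℂ[X]) {R : Type*} [CommRing R] [Algebra ℂ R]
    (a b : Fin n → R) where
  y : Fin n → Fin n → R
  r : Bool → Fin n → Fin n → R
  q : Bool → Fin n → Fin n → R
  h : ∀ l j, R2 δ (D l) (H l) (L l) (B l) (a j) (b j) (y l j) (r true l j) (r false l j)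
    (q true l j) (q false l j)

section Dat2

variable {n : ℕ} {δ : ℕ} {D H L B : Fin n → ℂ[X]} {R : Type*} [CommRing R] [Algebra ℂ R]
    {a b : Fin n → R}

/-- the values -/
noncomputable def Dat2.W (m : ℕ) (μ : Fin n → ℕ → ℂ) (T : Dat2 δ D H L B a b) (i : Idx n δ) : R :=
  WZ2 m (fun l c => algebraMap ℂ R (μ l c)) (algebraMap ℂ R ((i.2.2 : ℂˣ) : ℂ))
    (fun l => a (i.1 l)) (fun l => b (i.1 l))
    (fun l => T.r (i.2.1 l) l (i.1 l)) (fun l => T.q (i.2.1 l) l (i.1 l))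

/-- transport along an algebra homomorphism -/
def Dat2.map {S : Type*} [CommRing S] [Algebra ℂ S] (T : Dat2 δ D H L B a b) (ψ : R →ₐ[ℂ] S) :
    Dat2 δ D H L B (fun j => ψ (a j)) (fun j => ψ (b j)) where
  y l j := ψ (T.y l j)
  r e l j := ψ (T.r e l j)
  q e l j := ψ (T.q e l j)
  h l j := (T.h l j).map ψ

theorem Dat2.W_map {S : Type*} [CommRing S] [Algebra ℂ S] (m : ℕ) (μ : Fin n → ℕ → ℂ)
    (T : Dat2 δ D H L B a b) (ψ : R →ₐ[ℂ] S) (i : Idx n δ) :
    (T.map ψ).W m μ i = ψ (T.W m μ i) := by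
  have h := map_WZ2 (ψ : R →+* S) m (fun l c => algebraMap ℂ R (μ l c))
    (algebraMap ℂ R ((i.2.2 : ℂˣ) : ℂ)) (fun l => a (i.1 l))
    (fun l => b (i.1 l)) (fun l => T.r (i.2.1 l) l (i.1 l)) (fun l => T.q (i.2.1 l) l (i.1 l))
  have h2 : (ψ : R →+* S) (algebraMap ℂ R ((i.2.2 : ℂˣ) : ℂ)) = algebraMap ℂ S ((i.2.2 : ℂˣ) : ℂ) :=
    ψ.commutes _
  have h3 : (fun (l : Fin n) (c : ℕ) => (ψ : R →+* S) (algebraMap ℂ R (μ l c)))
      = fun l c => algebraMap ℂ S (μ l c) := by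
    funext l c; exact ψ.commutes _
  rw [h2, h3] at h
  exact h.symm

end Dat2

section inv

variable {n : ℕ} {δ : ℕ} [NeZero δ] {D H L B : Fin n → ℂ[X]} {M : Type*} [Field M] [Algebra ℂ M]
    {a b : Fin n → M}

theorem key2 (hδ : 2 ≤ δ) (T : Dat2 δ D H L B a b) (hb : ∀ j, b j ≠ 0) (τ : M →ₐ[ℂ] M)
    (θ : Equiv.Perm (Fin n))
    (lam : Fin n → M) (hlam : ∀ j, lam j ≠ 0) (ha : ∀ j, τ (a j) = lam j * a (θ j))
    (hb' : ∀ j, τ (b j) = lam j * b (θ j)) (l j : Fin n) :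
    ∃ (s : Bool) (η : rootsOfUnity δ ℂ), ∀ e : Bool,
      τ (T.r e l j) = lam j * algebraMap ℂ M (((sg e η : rootsOfUnity δ ℂ) : ℂˣ) : ℂ)
        * T.r (xor e s) l (θ j) ∧
      τ (T.q e l j) = lam j * algebraMap ℂ M (((sg e η : rootsOfUnity δ ℂ) : ℂˣ) : ℂ)
        * T.q (xor e s) l (θ j) := by
  have hl := hlam j
  have h1 := ((T.h l j).map τ).scale hδ (lam j)⁻¹
  have e1 : (lam j)⁻¹ * τ (a j) = a (θ j) := by
    rw [ha, ← mul_assoc, inv_mul_cancel₀ hl, one_mul]
  have e2 : (lam j)⁻¹ * τ (b j) = b (θ j) := by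
    rw [hb', ← mul_assoc, inv_mul_cancel₀ hl, one_mul]
  rw [e1, e2] at h1
  have h2 := T.h l (θ j)
  have e3 : ((lam j)⁻¹ ^ 2 * τ (T.y l j) - T.y l (θ j)) *
      ((lam j)⁻¹ ^ 2 * τ (T.y l j) + T.y l (θ j)) = 0 := by
    linear_combination h1.h2 - h2.h2
  have hfin : ∀ (z z' w : M) (c : ℂ), (lam j)⁻¹ * z = algebraMap ℂ M c * w →
      z = lam j * algebraMap ℂ M c * w := by
    intro z z' w c h
    rw [mul_assoc, ← h, ← mul_assoc, mul_inv_cancel₀ hl, one_mul]
  rcases mul_eq_zero.1 e3 with h | h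
  · rw [sub_eq_zero.1 h] at h1
    obtain ⟨e, g1, g2, g3, g4⟩ := h1.unique (hb _) h2
    refine ⟨false, e, ?_⟩
    rintro (_ | _)
    · exact ⟨hfin _ 0 _ _ g2, hfin _ 0 _ _ g4⟩
    · exact ⟨hfin _ 0 _ _ g1, hfin _ 0 _ _ g3⟩
  · rw [add_eq_zero_iff_eq_neg.1 h] at h1
    obtain ⟨e, g1, g2, g3, g4⟩ := h1.unique (hb _) h2.symm
    refine ⟨true, e, ?_⟩
    rintro (_ | _)
    · exact ⟨hfin _ 0 _ _ g2, hfin _ 0 _ _ g4⟩
    · exact ⟨hfin _ 0 _ _ g1, hfin _ 0 _ _ g3⟩

theorem inv_map2 (hδ : 2 ≤ δ) {m : ℕ} (hm : n ≤ m) (μ : Fin n → ℕ → ℂ) (T : Dat2 δ D H L B a b)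
    (hb : ∀ j, b j ≠ 0) (τ : M →ₐ[ℂ] M) (θ : Equiv.Perm (Fin n))
    (lam : Fin n → M) (hlam : ∀ j, lam j ≠ 0) (ha : ∀ j, τ (a j) = lam j * a (θ j))
    (hb' : ∀ j, τ (b j) = lam j * b (θ j)) :
    ∃ g : Idx n δ → Idx n δ, Function.Injective g ∧
      ∀ i, τ (T.W m μ i) = (∏ j, lam j) ^ m * T.W m μ (g i) := by
  choose s η hη using key2 hδ T hb τ θ lam hlam ha hb'
  refine ⟨fun i => (θ * i.1, fun l => xor (i.2.1 l) (s l (i.1 l)),
    i.2.2 * ∏ l, sg (i.2.1 l) (η l (i.1 l))), ?_, ?_⟩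
  · rintro ⟨π, ε, ζ⟩ ⟨π', ε', ζ'⟩ h
    simp only [Prod.mk.injEq] at h
    obtain ⟨h1, h2, h3⟩ := h
    have h1' := mul_left_cancel h1
    subst h1'
    have h2' : ε = ε' := by
      funext l
      have := congrFun h2 l
      revert this
      cases ε l <;> cases ε' l <;> cases s l (π l) <;> simp
    subst h2'
    have h3' := mul_right_cancel h3
    rw [h3']
  · rintro ⟨π, ε, ζ⟩
    have h0 := map_WZ2 (τ : M →+* M) m (fun l c => algebraMap ℂ M (μ l c))
      (algebraMap ℂ M ((ζ : ℂˣ) : ℂ)) (fun l => a (π l))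
      (fun l => b (π l)) (fun l => T.r (ε l) l (π l)) (fun l => T.q (ε l) l (π l))
    have h00 : (τ : M →+* M) (algebraMap ℂ M ((ζ : ℂˣ) : ℂ)) = algebraMap ℂ M ((ζ : ℂˣ) : ℂ) :=
      τ.commutes _
    have h01 : (fun (l : Fin n) (c : ℕ) => (τ : M →+* M) (algebraMap ℂ M (μ l c)))
        = fun l c => algebraMap ℂ M (μ l c) := by
      funext l c; exact τ.commutes _
    rw [h00, h01] at h0
    have h1 := WZ2_twist hm (fun l c => algebraMap ℂ M (μ l c)) (algebraMap ℂ M ((ζ : ℂˣ) : ℂ))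
      (fun l => lam (π l))
      (fun l => algebraMap ℂ M (((sg (ε l) (η l (π l)) : rootsOfUnity δ ℂ) : ℂˣ) : ℂ))
      (fun l => τ (a (π l))) (fun l => τ (b (π l))) (fun l => τ (T.r (ε l) l (π l)))
      (fun l => τ (T.q (ε l) l (π l)))
      (fun l => a (θ (π l))) (fun l => b (θ (π l)))
      (fun l => T.r (xor (ε l) (s l (π l))) l (θ (π l)))
      (fun l => T.q (xor (ε l) (s l (π l))) l (θ (π l)))
      (fun l => ha _) (fun l => hb' _) (fun l => (hη _ _ _).1) (fun l => (hη _ _ _).2)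
    have h2 : ∏ l, lam (π l) = ∏ j, lam j := Equiv.prod_comp π lam
    rw [h2] at h1
    have h3 : algebraMap ℂ M ((ζ : ℂˣ) : ℂ) *
        ∏ l, algebraMap ℂ M (((sg (ε l) (η l (π l)) : rootsOfUnity δ ℂ) : ℂˣ) : ℂ)
        = algebraMap ℂ M (((ζ * ∏ l, sg (ε l) (η l (π l)) : rootsOfUnity δ ℂ) : ℂˣ) : ℂ) := by
      rw [← map_prod, ← map_mul, Subgroup.coe_mul, Units.val_mul]
      congr 2
      rw [Subgroup.val_finsetProd, Units.coe_prod]
    rw [h3] at h1
    exact h0.trans h1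

end inv

section poly

variable {n : ℕ} {δ : ℕ} [NeZero δ] {D H L B : Fin n → ℂ[X]}

section ring

variable {R : Type*} [CommRing R] [Algebra ℂ R] {a b : Fin n → R}

/-- the product -/
noncomputable def Dat2.F (m : ℕ) (μ : Fin n → ℕ → ℂ) (T : Dat2 δ D H L B a b) : R[X] :=
  ∏ i : Idx n δ, (X ^ m - C (T.W m μ i))

theorem Dat2.F_monic {m : ℕ} (hm : m ≠ 0) (μ : Fin n → ℕ → ℂ) (T : Dat2 δ D H L B a b) :
    (T.F m μ).Monic :=
  monic_prod_of_monic _ _ fun _ _ => monic_X_pow_sub_C _ hm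

theorem Dat2.F_natDegree [Nontrivial R] {m : ℕ} (hm : m ≠ 0) (μ : Fin n → ℕ → ℂ)
    (T : Dat2 δ D H L B a b) :
    (T.F m μ).natDegree = m * (δ * (n.factorial * 2 ^ n)) := by
  rw [Dat2.F, natDegree_prod_of_monic _ _ fun _ _ => monic_X_pow_sub_C _ hm]
  simp only [natDegree_X_pow_sub_C, Finset.sum_const, Finset.card_univ, smul_eq_mul]
  rw [card_Idx]; ring

theorem Dat2.F_map {S : Type*} [CommRing S] [Algebra ℂ S] (m : ℕ) (μ : Fin n → ℕ → ℂ)
    (T : Dat2 δ D H L B a b) (ψ : R →ₐ[ℂ] S) :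
    (T.map ψ).F m μ = (T.F m μ).map (ψ : R →+* S) := by
  rw [Dat2.F, Dat2.F, Polynomial.map_prod]
  refine Finset.prod_congr rfl fun i _ => ?_
  rw [Polynomial.map_sub, Polynomial.map_pow, map_X, map_C, Dat2.W_map]
  rfl

end ring

variable {M : Type*} [Field M] [Algebra ℂ M] {a b : Fin n → M}

theorem inv_F2 (hδ : 2 ≤ δ) {m : ℕ} (hm : n ≤ m) (μ : Fin n → ℕ → ℂ) (T : Dat2 δ D H L B a b)
    (hb : ∀ j, b j ≠ 0) (τ : M →ₐ[ℂ] M) (θ : Equiv.Perm (Fin n))
    (lam : Fin n → M) (hlam : ∀ j, lam j ≠ 0) (ha : ∀ j, τ (a j) = lam j * a (θ j))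
    (hb' : ∀ j, τ (b j) = lam j * b (θ j)) (k : ℕ) :
    τ ((T.F m μ).coeff k) * (∏ j, lam j) ^ k
      = (∏ j, lam j) ^ (m * (δ * (n.factorial * 2 ^ n))) * (T.F m μ).coeff k := by
  obtain ⟨g, hg, hW⟩ := inv_map2 hδ hm μ T hb τ θ lam hlam ha hb'
  have hg' := Finite.injective_iff_bijective.1 hg
  have h1 : ((T.F m μ).map (τ : M →+* M)).comp (C (∏ j, lam j) * X)
      = C ((∏ j, lam j) ^ (m * (δ * (n.factorial * 2 ^ n)))) * T.F m μ := by
    rw [Dat2.F, Polynomial.map_prod, prod_comp]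
    have h2 : ∀ i : Idx n δ, ((X ^ m - C (T.W m μ i)).map (τ : M →+* M)).comp
        (C (∏ j, lam j) * X)
        = C ((∏ j, lam j) ^ m) * (X ^ m - C (T.W m μ (g i))) := by
      intro i
      have : (τ : M →+* M) (T.W m μ i) = (∏ j, lam j) ^ m * T.W m μ (g i) := hW i
      rw [Polynomial.map_sub, Polynomial.map_pow, map_X, map_C, this, sub_comp, pow_comp, X_comp,
        C_comp, mul_pow, C_mul, C_pow]
      ring
    rw [Finset.prod_congr rfl fun i _ => h2 i, Finset.prod_mul_distrib, Finset.prod_const,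
      Finset.card_univ, card_Idx, ← C_pow, ← pow_mul]
    congr 1
    exact hg'.prod_comp (fun i => X ^ m - C (T.W m μ i))
  have h3 := congrArg (fun p => p.coeff k) h1
  simp only [comp_C_mul_X_coeff, coeff_C_mul, coeff_map] at h3
  exact h3

end poly

section descent

open MvPolynomial

variable {n δ : ℕ} [NeZero δ] {D H L B : Fin n → Polynomial ℂ}

theorem coeff_F2 (m : ℕ) (μ : Fin n → ℕ → ℂ) (T : Dat2 δ D H L B (aI (n := n)) bI) (k : ℕ) :
    ((T.map inc).F m μ).coeff k = ((T.F m μ).coeff k : MM n) := by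
  rw [Dat2.F_map, Polynomial.coeff_map]; rfl

/-- the coefficients of the product are polynomials -/
theorem coeff_mem2 (hδ : 2 ≤ δ) {m : ℕ} (hm : n ≤ m) (μ : Fin n → ℕ → ℂ)
    (T : Dat2 δ D H L B (aI (n := n)) bI) (k : ℕ) :
    ∃ g : AA n, algebraMap (AA n) (MM n) g = ((T.F m μ).coeff k : MM n) := by
  have hfix : ∀ f : Gal(MM n/FractionRing (AA n)),
      f ((T.F m μ).coeff k : MM n) = ((T.F m μ).coeff k : MM n) := by
    intro f
    have h1 := inv_F2 hδ hm μ (T.map inc) (fun j => by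
      rw [inc_apply, coe_bI, Ne, map_eq_zero_iff _ inj_AM]; exact MvPolynomial.X_ne_zero _)
      ((f : MM n →ₐ[FractionRing (AA n)] MM n).restrictScalars ℂ) 1 (fun _ => 1)
      (fun _ => one_ne_zero)
      (by
        intro j
        rw [one_mul, inc_apply, coe_aI, IsScalarTower.algebraMap_apply (AA n) (FractionRing (AA n))]
        exact f.commutes _)
      (by
        intro j
        rw [one_mul, inc_apply, coe_bI, IsScalarTower.algebraMap_apply (AA n) (FractionRing (AA n))]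
        exact f.commutes _) k
    rw [Finset.prod_const_one, one_pow, one_pow, one_mul, mul_one, coeff_F2] at h1
    exact h1
  obtain ⟨y, hy⟩ := (InfiniteGalois.mem_range_algebraMap_iff_fixed _).2 hfix
  have hint : IsIntegral (AA n) (algebraMap (FractionRing (AA n)) (MM n) y) := by
    rw [hy]; exact ((T.F m μ).coeff k).2
  rw [isIntegral_algebraMap_iff (algebraMap (FractionRing (AA n)) (MM n)).injective] at hint
  obtain ⟨z, hz⟩ := IsIntegrallyClosed.isIntegral_iff.1 hint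
  exact ⟨z, by rw [IsScalarTower.algebraMap_apply (AA n) (FractionRing (AA n)), hz, hy]⟩

/-- transformation behaviour under automorphisms of the base ring -/
theorem coeff_trans2 (hδ : 2 ≤ δ) {m : ℕ} (hm : n ≤ m) (μ : Fin n → ℕ → ℂ)
    (T : Dat2 δ D H L B (aI (n := n)) bI) (k : ℕ) (g : AA n)
    (hg : algebraMap (AA n) (MM n) g = ((T.F m μ).coeff k : MM n)) (σ : AA n ≃ₐ[ℂ] AA n)
    (θ : Equiv.Perm (Fin n)) (lam : Fin n → ℂ) (hlam : ∀ j, lam j ≠ 0)
    (ha : ∀ j, σ (MvPolynomial.X (Sum.inl j)) = MvPolynomial.C (lam j) * MvPolynomial.X (Sum.inl (θ j)))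
    (hb : ∀ j, σ (MvPolynomial.X (Sum.inr j)) = MvPolynomial.C (lam j) * MvPolynomial.X (Sum.inr (θ j))) :
    σ g * MvPolynomial.C (∏ j, lam j) ^ k
      = MvPolynomial.C (∏ j, lam j) ^ (m * (δ * (n.factorial * 2 ^ n))) * g := by
  let τ0 : MM n ≃+* MM n := IsAlgClosure.equivOfEquiv (MM n) (MM n) σ.toRingEquiv
  have hτ0 : ∀ x : AA n, τ0 (algebraMap (AA n) (MM n) x) = algebraMap (AA n) (MM n) (σ x) :=
    fun x => IsAlgClosure.equivOfEquiv_algebraMap (MM n) (MM n) σ.toRingEquiv x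
  have hC : ∀ z : ℂ, algebraMap ℂ (MM n) z = algebraMap (AA n) (MM n) (C z) := fun z =>
    IsScalarTower.algebraMap_apply ℂ (AA n) (MM n) z
  let τ : MM n →ₐ[ℂ] MM n :=
    { (τ0 : MM n →+* MM n) with
      commutes' := by
        intro z
        change τ0 (algebraMap ℂ (MM n) z) = _
        rw [hC, hτ0]
        congr 1
        exact σ.commutes z }
  have hτ : ∀ x : AA n, τ (algebraMap (AA n) (MM n) x) = algebraMap (AA n) (MM n) (σ x) := hτ0
  have h1 := inv_F2 hδ hm μ (T.map inc) (fun j => by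
      rw [inc_apply, coe_bI, Ne, map_eq_zero_iff _ inj_AM]; exact MvPolynomial.X_ne_zero _)
      τ θ (fun j => algebraMap (AA n) (MM n) (MvPolynomial.C (lam j)))
      (by
        intro j
        rw [Ne, map_eq_zero_iff _ inj_AM, MvPolynomial.C_eq_zero]
        exact hlam j)
      (by
        intro j
        rw [inc_apply, inc_apply, coe_aI, coe_aI, hτ, ha, map_mul])
      (by
        intro j
        rw [inc_apply, inc_apply, coe_bI, coe_bI, hτ, hb, map_mul]) k
  rw [coeff_F2, ← hg, hτ, ← map_prod, ← map_pow, ← map_pow, ← map_mul, ← map_mul, ← map_prod] at h1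
  exact inj_AM h1

end descent

section forms

open MvPolynomial

variable {n δ : ℕ} [NeZero δ] {D H L B : Fin n → Polynomial ℂ}

/-- the forms `Φ_k` -/
theorem exists_Phi2 (hδ : 2 ≤ δ) {m : ℕ} (hm : n ≤ m) (μ : Fin n → ℕ → ℂ)
    (T : Dat2 δ D H L B (aI (n := n)) bI) (k : ℕ) :
    ∃ Φ : MvPolynomial (Fin (n + 1)) ℂ,
      Φ.IsHomogeneous (m * (δ * (n.factorial * 2 ^ n)) - k) ∧
      ∃ g : AA n, algebraMap (AA n) (MM n) g = ((T.F m μ).coeff k : MM n) ∧
      MvPolynomial.aeval (fun i : Fin (n + 1) =>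
        sig (fun j => (MvPolynomial.X (Sum.inl j) : MvPolynomial (Fin n ⊕ Fin n) ℂ))
          (fun j => MvPolynomial.X (Sum.inr j)) i) Φ = g := by
  obtain ⟨g, hg⟩ := coeff_mem2 hδ hm μ T k
  obtain ⟨Φ, h1, h2⟩ := CD.multisymmetric (D := m * (δ * (n.factorial * 2 ^ n)) - k) g
    (by
      intro θ
      have := coeff_trans2 hδ hm μ T k g hg (renameEquiv ℂ (Equiv.sumCongr θ θ)) θ (fun _ => 1)
        (fun _ => one_ne_zero)
        (by intro j; rw [renameEquiv_apply, rename_X]; simp)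
        (by intro j; rw [renameEquiv_apply, rename_X]; simp)
      rw [Finset.prod_const_one, MvPolynomial.C_1, one_pow, one_pow, mul_one, one_mul, renameEquiv_apply] at this
      exact this)
    (by
      intro j0 w hw
      rw [MvPolynomial.mem_support_iff] at hw
      have hne : ∀ s, Sum.elim (fun j : Fin n => if j = j0 then (2 : ℂ) else 1)
          (fun j : Fin n => if j = j0 then (2 : ℂ) else 1) s ≠ 0 := by
        rintro (j | j) <;> simp only [Sum.elim_inl, Sum.elim_inr] <;> split_ifs <;> norm_num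
      have := coeff_trans2 hδ hm μ T k g hg (scEquiv _ hne) 1
        (fun j : Fin n => if j = j0 then (2 : ℂ) else 1) (fun j => hne (Sum.inl j))
        (by intro j; exact sc_X _ _)
        (by intro j; exact sc_X _ _)
      have hp : (∏ j : Fin n, if j = j0 then (2 : ℂ) else 1) = 2 := by
        rw [Finset.prod_ite_eq' Finset.univ j0 (fun _ => (2 : ℂ)), if_pos (Finset.mem_univ _)]
      rw [hp, ← MvPolynomial.C_pow, ← MvPolynomial.C_pow, mul_comm] at this
      have h3 := congrArg (MvPolynomial.coeff w) this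
      rw [MvPolynomial.coeff_C_mul, MvPolynomial.coeff_C_mul] at h3
      have h4 : MvPolynomial.coeff w ((scEquiv _ hne) g) = _ := coeff_sc _ g w
      rw [h4, Fintype.prod_sum_type] at h3
      simp only [Sum.elim_inl, Sum.elim_inr] at h3
      have h5 : ∀ q : Fin n → ℕ, (∏ j, (if j = j0 then (2 : ℂ) else 1) ^ q j) = 2 ^ q j0 := by
        intro q
        rw [Finset.prod_eq_single j0]
        · rw [if_pos rfl]
        · intro j _ hj; rw [if_neg hj, one_pow]
        · intro h; exact absurd (Finset.mem_univ _) h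
      rw [h5, h5, ← pow_add, ← mul_assoc, ← pow_add] at h3
      have h6 := mul_right_cancel₀ hw h3
      have h7 : (2 : ℕ) ^ (k + (w (Sum.inl j0) + w (Sum.inr j0)))
          = 2 ^ (m * (δ * (n.factorial * 2 ^ n))) := by exact_mod_cast h6
      have h8 := Nat.pow_right_injective (le_refl 2) h7
      omega)
  exact ⟨Φ, h1, g, hg, h2⟩

end forms

section final

variable {n δ : ℕ} [NeZero δ] {D H L B : Fin n → ℂ[X]}

theorem R2.sel {R : Type*} [CommRing R] [Algebra ℂ R] {δ : ℕ} {D H L B : ℂ[X]} {a b y : R}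
    {r q : Bool → R} (h : R2 δ D H L B a b y (r true) (r false) (q true) (q false)) (e : Bool) :
    R2 δ D H L B a b (if e then y else -y) (r e) (r (!e)) (q e) (q (!e)) := by
  cases e
  · exact h.symm
  · exact h

theorem conclude2 {Ω : Type} [Field Ω] [Algebra ℂ Ω] (hn : 1 ≤ n) {m : ℕ} (hm : n ≤ m)
    (μ : Fin n → ℕ → ℂ) {a b : Fin n → Ω} (T : Dat2 δ D H L B a b) (i : Idx n δ) :
    ∃ a' b' ρ ρ' τ τ' w : Fin n → Ω, (∀ i : ℕ, sig a b i = sig a' b' i) ∧
      Rel2 δ D H L B a' b' ρ ρ' τ τ' w ∧ T.W m μ i = WW2 m μ a' b' ρ τ := by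
  classical
  obtain ⟨π, ε, ζ⟩ := i
  set z : Ω := algebraMap ℂ Ω ((ζ : ℂˣ) : ℂ) with hz
  have hzδ : z ^ δ = 1 := by
    rw [hz, ← map_pow, ← Units.val_pow_eq_pow_val, ← Subgroup.coe_pow]
    have : ζ ^ δ = 1 := by
      apply Subtype.ext
      rw [Subgroup.coe_pow]
      exact (mem_rootsOfUnity _ _).1 ζ.2
    rw [this]; simp
  have hz0 : z ≠ 0 := by
    intro h
    rw [h, zero_pow (NeZero.ne δ)] at hzδ
    exact zero_ne_one hzδ
  let η : Fin n → Ω := fun l => if l = ⟨0, hn⟩ then z else 1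
  have hη : ∀ l, η l * (η l)⁻¹ = 1 := by
    intro l
    apply mul_inv_cancel₀
    change (if l = ⟨0, hn⟩ then z else 1) ≠ 0
    split_ifs
    · exact hz0
    · exact one_ne_zero
  have hη1 : ∀ l, η l ^ δ = 1 := by
    intro l
    change (if l = ⟨0, hn⟩ then z else 1) ^ δ = 1
    split_ifs
    · exact hzδ
    · exact one_pow _
  have hprod : ∏ l, η l = z := by
    change (∏ l : Fin n, if l = (⟨0, hn⟩ : Fin n) then z else 1) = z
    rw [Finset.prod_ite_eq' Finset.univ (⟨0, hn⟩ : Fin n) (fun _ => z),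
      if_pos (Finset.mem_univ _)]
  have hR : ∀ l, R2 δ (D l) (H l) (L l) (B l) (a (π l)) (b (π l))
      (if ε l then T.y l (π l) else - T.y l (π l))
      (η l * T.r (ε l) l (π l)) ((η l)⁻¹ * T.r (!(ε l)) l (π l))
      (η l * T.q (ε l) l (π l)) ((η l)⁻¹ * T.q (!(ε l)) l (π l)) := fun l =>
    (R2.sel (r := fun e => T.r e l (π l)) (q := fun e => T.q e l (π l)) (T.h l (π l)) (ε l)).twist
      (hη l) (hη1 l)
  refine ⟨fun l => a (π l), fun l => b (π l),
    fun l => η l * T.r (ε l) l (π l), fun l => (η l)⁻¹ * T.r (!(ε l)) l (π l),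
    fun l => η l * T.q (ε l) l (π l), fun l => (η l)⁻¹ * T.q (!(ε l)) l (π l),
    fun l => if ε l then T.y l (π l) else - T.y l (π l), ?_, ?_, ?_⟩
  · intro i
    exact (CD.T6aux.sig_perm a b π i).symm
  · exact ⟨fun l => (hR l).h1, fun l => (hR l).h2, fun l => (hR l).h3, fun l => (hR l).h4,
      fun l => (hR l).h5, fun l => (hR l).h6, fun l => (hR l).h7⟩
  · have h1 := WZ2_twist hm (fun l c => algebraMap ℂ Ω (μ l c)) (1 : Ω) (fun _ => 1) η
      (fun l => a (π l))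
      (fun l => b (π l)) (fun l => η l * T.r (ε l) l (π l))
      (fun l => η l * T.q (ε l) l (π l)) (fun l => a (π l)) (fun l => b (π l))
      (fun l => T.r (ε l) l (π l)) (fun l => T.q (ε l) l (π l))
      (fun _ => (one_mul _).symm) (fun _ => (one_mul _).symm)
      (fun l => by rw [one_mul]) (fun l => by rw [one_mul])
    rw [Finset.prod_const_one, one_pow, one_mul, one_mul, hprod] at h1
    change WZ2 m _ z _ _ _ _ = _
    rw [← h1, WZ2, WW2]
    simp only [one_pow, one_mul]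

end final

end F1aux

open F1aux in
theorem exists_form2 {n m δ : ℕ} (hn : 1 ≤ n) (hm : n ≤ m) (hδ : 2 ≤ δ) (D H L B : Fin n → ℂ[X])
    (hP : ∀ j, IsPell δ (D j) (H j) (L j) (B j)) (μ : Fin n → ℕ → ℂ) :
    ∃ f : MvPolynomial (Fin (n + 1) ⊕ Unit) ℂ,
      f.IsHomogeneous (m * (δ * (n.factorial * 2 ^ n))) ∧
      f.coeff (Finsupp.single (Sum.inr ()) (m * (δ * (n.factorial * 2 ^ n)))) = 1 ∧
      ∀ (Ω : Type) [Field Ω] [Algebra ℂ Ω] [IsAlgClosed Ω] (y : Fin (n + 1) → Ω) (z : Ω),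
        y ≠ 0 → MvPolynomial.aeval (Sum.elim y (fun _ => z)) f = 0 →
        ∃ a b ρ ρ' τ τ' w : Fin n → Ω, (∀ i : Fin (n + 1), y i = sig a b i) ∧
          Rel2 δ D H L B a b ρ ρ' τ τ' w ∧ z ^ m = WW2 m μ a b ρ τ := by
  classical
  have : NeZero δ := ⟨by omega⟩
  have hm0 : m ≠ 0 := by omega
  obtain ⟨T⟩ : Nonempty (Dat2 δ D H L B (CD.T6aux.aI (n := n)) CD.T6aux.bI) := by
    choose y x x' t t' h using fun l j => exists_R2 (A := CD.T6aux.AA n) (M := CD.T6aux.MM n) hδ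
      (hP l) (MvPolynomial.X (Sum.inl j)) (MvPolynomial.X (Sum.inr j)) (by
        rw [Ne, map_eq_zero_iff _ CD.T6aux.inj_AM]; exact MvPolynomial.X_ne_zero _)
    exact ⟨⟨y, fun e l j => if e then x l j else x' l j, fun e l j => if e then t l j else t' l j,
      fun l j => h l j⟩⟩
  choose Φ hΦ g hg hΦg using exists_Phi2 hδ hm μ T
  set E := m * (δ * (n.factorial * 2 ^ n)) with hE
  have hF : ∀ k, (T.F m μ).coeff k = algebraMap (CD.T6aux.AA n) _ (g k) := fun k =>
    Subtype.ext (hg k).symm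
  have hdeg : (T.F m μ).natDegree = E := T.F_natDegree hm0 μ
  refine ⟨∑ k ∈ Finset.range (E + 1), MvPolynomial.rename Sum.inl (Φ k)
    * MvPolynomial.X (Sum.inr ()) ^ k, ?_, ?_, ?_⟩
  · apply MvPolynomial.IsHomogeneous.sum
    intro k hk
    rw [Finset.mem_range] at hk
    have h1 := (hΦ k).rename_isHomogeneous (f := (Sum.inl : Fin (n + 1) → Fin (n + 1) ⊕ Unit))
    have h2 := (MvPolynomial.isHomogeneous_X ℂ (Sum.inr () : Fin (n + 1) ⊕ Unit)).pow k
    have h3 := h1.mul h2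
    rwa [one_mul, Nat.sub_add_cancel (by omega)] at h3
  · rw [MvPolynomial.coeff_sum, Finset.sum_eq_single E]
    · rw [MvPolynomial.X_pow_eq_monomial, MvPolynomial.coeff_mul_monomial', if_pos le_rfl,
        tsub_self, mul_one]
      have h0 : g E = 1 := by
        apply CD.T6aux.inj_AM
        rw [hg, map_one, ← hdeg]
        have := T.F_monic hm0 μ
        rw [Polynomial.Monic, Polynomial.leadingCoeff] at this
        rw [this]; rfl
      have h1 : (Φ E).IsHomogeneous 0 := by simpa using hΦ E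
      have h2 : Φ E = MvPolynomial.C ((Φ E).coeff 0) :=
        MvPolynomial.totalDegree_eq_zero_iff_eq_C.1 (Nat.le_zero.1 h1.totalDegree_le)
      have h3 := hΦg E
      rw [h0, h2, MvPolynomial.aeval_C, MvPolynomial.algebraMap_eq, ← MvPolynomial.C_1] at h3
      have h4 := MvPolynomial.C_injective _ _ h3
      rw [h2, MvPolynomial.rename_C, h4, MvPolynomial.coeff_C, if_pos rfl]
    · intro k hk hkE
      rw [Finset.mem_range] at hk
      rw [MvPolynomial.X_pow_eq_monomial, MvPolynomial.coeff_mul_monomial', mul_one]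
      split_ifs with h
      · apply MvPolynomial.coeff_rename_eq_zero
        intro u hu
        exfalso
        have h5 := congrArg (fun q : (Fin (n + 1) ⊕ Unit) →₀ ℕ => q (Sum.inr ())) hu
        simp only [Finsupp.coe_tsub, Pi.sub_apply, Finsupp.single_eq_same] at h5
        rw [Finsupp.mapDomain_of_notMem_range _ _ (by simp)] at h5
        omega
      · rfl
    · intro h
      exact absurd (Finset.mem_range.2 (Nat.lt_succ_self E)) h
  · intro Ω _ _ _ y z hy hf
    obtain ⟨a, b, hab⟩ := CD.T6aux.exists_ab hn y hy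
    obtain ⟨φ, hφ⟩ : ∃ φ : CD.T6aux.AA n →ₐ[ℂ] Ω, φ = MvPolynomial.aeval (Sum.elim a b) := ⟨_, rfl⟩
    have hφl : ∀ j, φ (MvPolynomial.X (Sum.inl j)) = a j := fun j => by
      rw [hφ, MvPolynomial.aeval_X]; rfl
    have hφr : ∀ j, φ (MvPolynomial.X (Sum.inr j)) = b j := fun j => by
      rw [hφ, MvPolynomial.aeval_X]; rfl
    have hinjB : Function.Injective (algebraMap (CD.T6aux.AA n)
        (integralClosure (CD.T6aux.AA n) (CD.T6aux.MM n))) := by
      intro x y hxy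
      apply CD.T6aux.inj_AM
      exact congrArg
        (fun w : integralClosure (CD.T6aux.AA n) (CD.T6aux.MM n) => (w : CD.T6aux.MM n)) hxy
    obtain ⟨ψ0, hψ0⟩ := CD.T6aux.exists_ext (Ω := Ω) hinjB (φ : CD.T6aux.AA n →+* Ω)
    let ψ : integralClosure (CD.T6aux.AA n) (CD.T6aux.MM n) →ₐ[ℂ] Ω :=
      { ψ0 with
        commutes' := by
          intro w
          change ψ0 (algebraMap ℂ _ w) = _
          have h1 : algebraMap ℂ (integralClosure (CD.T6aux.AA n) (CD.T6aux.MM n)) w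
            = algebraMap (CD.T6aux.AA n) _ (MvPolynomial.C w) := rfl
          rw [h1, hψ0]
          exact φ.commutes w }
    have hψ : ∀ x, ψ (algebraMap (CD.T6aux.AA n) _ x) = φ x := hψ0
    have h1 : ∀ k, MvPolynomial.aeval y (Φ k) = ψ ((T.F m μ).coeff k) := by
      intro k
      have hy' : y = fun i : Fin (n + 1) => φ (sig
          (fun j => (MvPolynomial.X (Sum.inl j) : MvPolynomial (Fin n ⊕ Fin n) ℂ))
          (fun j => MvPolynomial.X (Sum.inr j)) i) := by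
        funext i
        have h0 := CD.T6aux.map_sig (φ : CD.T6aux.AA n →+* Ω)
          (fun j => (MvPolynomial.X (Sum.inl j) : MvPolynomial (Fin n ⊕ Fin n) ℂ))
          (fun j => MvPolynomial.X (Sum.inr j)) i
        rw [hab i]
        refine Eq.trans ?_ h0.symm
        congr 1
        · funext j
          exact (hφl j).symm
        · funext j
          exact (hφr j).symm
      rw [hF, hψ, ← hΦg, MvPolynomial.comp_aeval_apply, ← hy']
    have h2 : Polynomial.eval z ((T.F m μ).map (ψ : _ →+* Ω)) = 0 := by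
      rw [Polynomial.eval_eq_sum_range' (n := E + 1)
        (Nat.lt_succ_of_le ((Polynomial.natDegree_map_le).trans hdeg.le)), ← hf, map_sum]
      refine Finset.sum_congr rfl fun k _ => ?_
      rw [map_mul, map_pow, MvPolynomial.aeval_X, MvPolynomial.aeval_rename, Polynomial.coeff_map]
      congr 1
      exact (h1 k).symm
    rw [← Dat2.F_map, Dat2.F, Polynomial.eval_prod, Finset.prod_eq_zero_iff] at h2
    obtain ⟨i, -, hi⟩ := h2
    rw [Polynomial.eval_sub, Polynomial.eval_pow, Polynomial.eval_X, Polynomial.eval_C,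
      sub_eq_zero] at hi
    obtain ⟨a', b', ρ, ρ', τ, τ', w, h3, h4, h5⟩ := conclude2 hn hm μ (T.map ψ) i
    refine ⟨a', b', ρ, ρ', τ, τ', w, ?_, h4, hi.trans h5⟩
    intro i
    rw [← h3, hab i]
    congr 1
    · funext j
      change a j = ψ (CD.T6aux.aI j)
      rw [CD.T6aux.aI, hψ, hφl]
    · funext j
      change b j = ψ (CD.T6aux.bI j)
      rw [CD.T6aux.bI, hψ, hφr]

end Pool.Agent.H861.CE
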