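import Mathlib

/-!
Project CE (helper861), MP_8dbee4_ag, part S1a: facts on Dickson (Chebyshev) polynomials over `ℂ`; only Mathlib is needed.

`T_δ = dickson 1 1 δ` satisfies `T_δ(w + w⁻¹) = w^δ + w^(-δ)` (`Polynomial.dickson_one_one_eval_add_inv`), `S = dickson 2 1 (δ-1)` satisfies `S(w + w⁻¹) (w - w⁻¹) = w^δ - w^(-δ)` (prove by induction), so `T_δ^2 - 4 = (X^2 - 4) S^2` (every complex number is `w + w⁻¹`; or by induction). `cc = 2cos(π/δ) = ζ + ζ⁻¹`, `ζ = exp(iπ/δ)`,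
a primitive `2δ`-th root of unity: `T_δ(cc) = -2`, `cc^2 ≠ 4` (`δ ≥ 2`, so `ζ ≠ ±1`), so `S(cc) = 0` and `S = (X - cc) B₀`. `T_δ' = δ S` (the derivative; from `T_δ(w + w⁻¹)`, or by induction: both sides). So `δ T = X S + (X^2 - 4) S'` (differentiate `T^2 - 4 = (X^2-4) S^2`, divide by `2S`): a common root of `S` and `S'`
would be a root of `T`, and of `T^2 - 4`: contradiction; so `S` is squarefree (separable); `S(±2) ≠ 0` as `δ T(±2) = ±2 S(±2)`, `T(±2)^2 = 4`. Hence `B₀` is coprime to `X - cc`, `X^2 - 4` and `T_δ`. For a prime `p ∣ δ`: `T_(δ/p)(cc) = ζ^(δ/p) + ζ^(-δ/p)`, `ζ^(δ/p) ≠ ±1` (a primitive `2p`-th root of unity), so its square is not 4.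
`two`: for `δ = 2m`, `T_(2m) - 2 = T_m^2 - 4 = (X^2 - 4) S_m^2` (`T_(2m) = T_m^2 - 2`).
-/

set_option autoImplicit false

open Polynomial

namespace Pool.Agent.H861.CE

/-- `2 cos (π / δ)` -/
noncomputable def cc (δ : ℕ) : ℂ :=
  Complex.exp (Real.pi * Complex.I / δ) + (Complex.exp (Real.pi * Complex.I / δ))⁻¹

namespace S1aaux

/-- `U 0 = 0`, `U (n + 1) = dickson 2 1 n` -/
noncomputable def U : ℕ → ℂ[X]
  | 0 => 0
  | n + 1 => dickson 2 1 n

lemma C4 : (4 : ℂ[X]) = C 4 := (map_ofNat C 4).symm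

lemma C2 : (2 : ℂ[X]) = C 2 := (map_ofNat C 2).symm

lemma U_zero : U 0 = 0 := rfl

lemma U_one : U 1 = 1 := by
  show dickson 2 (1 : ℂ) 0 = 1
  rw [dickson_zero]
  norm_num

lemma U_add_two (n : ℕ) : U (n + 2) = X * U (n + 1) - U n := by
  cases n with
  | zero =>
    show dickson 2 (1 : ℂ) 1 = X * dickson 2 1 0 - 0
    rw [dickson_one, dickson_zero]
    norm_num
  | succ n =>
    show dickson 2 (1 : ℂ) (n + 2) = X * dickson 2 1 (n + 1) - dickson 2 1 n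
    rw [dickson_add_two]
    simp

lemma T_zero : dickson 1 (1 : ℂ) 0 = 2 := by
  rw [dickson_zero]
  norm_num

lemma T_add_two (n : ℕ) : dickson 1 (1 : ℂ) (n + 2) = X * dickson 1 1 (n + 1) - dickson 1 1 n := by
  rw [dickson_add_two]
  simp

lemma exists_xy (z : ℂ) : ∃ x y : ℂ, x * y = 1 ∧ x + y = z := by
  obtain ⟨s, hs⟩ := IsAlgClosed.exists_pow_nat_eq (z ^ 2 - 4) two_pos
  refine ⟨(z + s) / 2, (z - s) / 2, ?_, by ring⟩
  linear_combination -hs / 4

lemma U_eval {x y : ℂ} (h : x * y = 1) (n : ℕ) : (x - y) * (U n).eval (x + y) = x ^ n - y ^ n := by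
  induction n using Nat.twoStepInduction with
  | zero => simp [U_zero]
  | one => simp [U_one]
  | more n h1 h2 =>
    rw [U_add_two, eval_sub, eval_mul, eval_X]
    have e : (x - y) * ((x + y) * (U (n + 1)).eval (x + y) - (U n).eval (x + y)) =
        (x + y) * ((x - y) * (U (n + 1)).eval (x + y)) - (x - y) * (U n).eval (x + y) := by ring
    rw [e, h1, h2]
    have e2 : x ^ (n + 2) = x ^ n * x ^ 2 := by ring
    have e3 : y ^ (n + 2) = y ^ n * y ^ 2 := by ring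
    have e4 : x ^ (n + 1) = x ^ n * x := by ring
    have e5 : y ^ (n + 1) = y ^ n * y := by ring
    rw [e2, e3, e4, e5]
    linear_combination (x ^ n - y ^ n) * h

lemma sq_sub (n : ℕ) : dickson 1 (1 : ℂ) n ^ 2 - 4 = (X ^ 2 - 4) * U n ^ 2 := by
  apply Polynomial.funext
  intro z
  obtain ⟨x, y, hxy, rfl⟩ := exists_xy z
  have h1 := dickson_one_one_eval_add_inv x y hxy n
  have h2 := U_eval hxy n
  have e4 : (4 : ℂ[X]).eval (x + y) = 4 := by
    have : (4 : ℂ[X]) = C 4 := C4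
    rw [this, eval_C]
  rw [eval_sub, eval_pow, h1, e4, eval_mul, eval_sub, eval_pow, eval_X, eval_pow, e4]
  have e5 : ((x + y) ^ 2 - 4) * eval (x + y) (U n) ^ 2 = ((x - y) * (U n).eval (x + y)) ^ 2 := by
    linear_combination (4 * eval (x + y) (U n) ^ 2) * hxy
  rw [e5, h2]
  have e6 : x ^ n * y ^ n = 1 := by rw [← mul_pow, hxy, one_pow]
  linear_combination 4 * e6

lemma T_eq (n : ℕ) : dickson 1 (1 : ℂ) (n + 1) = X * U (n + 1) - 2 * U n := by
  induction n using Nat.twoStepInduction with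
  | zero =>
    rw [dickson_one, U_one, U_zero]
    ring
  | one =>
    rw [T_add_two, T_zero, dickson_one, U_add_two, U_one, U_zero]
    ring
  | more n h1 h2 =>
    rw [T_add_two, h1, h2, U_add_two (n + 1), U_add_two n]
    ring

lemma T_deriv (n : ℕ) : derivative (dickson 1 (1 : ℂ) n) = (n : ℂ[X]) * U n := by
  induction n using Nat.twoStepInduction with
  | zero =>
    rw [T_zero, U_zero, mul_zero]
    exact derivative_ofNat 2
  | one =>
    rw [dickson_one, U_one]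
    simp
  | more n h1 h2 =>
    rw [T_add_two, derivative_sub, derivative_mul, h1, h2, derivative_X, T_eq, U_add_two]
    push_cast
    ring

lemma U_monic (n : ℕ) : (U (n + 1)).Monic ∧ (U (n + 1)).natDegree = n := by
  induction n using Nat.twoStepInduction with
  | zero =>
    rw [U_one]
    exact ⟨monic_one, natDegree_one⟩
  | one =>
    have : U 2 = X := by rw [U_add_two, U_one, U_zero]; ring
    rw [this]
    exact ⟨monic_X, natDegree_X⟩
  | more n h1 h2 =>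
    have hm : (X * U (n + 2)).Monic := monic_X.mul h2.1
    have hd : (X * U (n + 2)).natDegree = n + 2 := by
      rw [natDegree_X_mul h2.1.ne_zero, h2.2]
    have hlt : (U (n + 1)).natDegree < (X * U (n + 2)).natDegree := by
      rw [hd, h1.2]
      omega
    rw [U_add_two (n + 1)]
    exact ⟨hm.sub_of_left (degree_lt_degree hlt), by
      rw [natDegree_sub_eq_left_of_natDegree_lt hlt, hd]⟩

lemma T_monic (n : ℕ) : (dickson 1 (1 : ℂ) (n + 1)).Monic ∧
    (dickson 1 (1 : ℂ) (n + 1)).natDegree = n + 1 := by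
  obtain ⟨hm, hd⟩ := U_monic n
  have h1 : (X * U (n + 1)).Monic := monic_X.mul hm
  have h2 : (X * U (n + 1)).natDegree = n + 1 := by
    rw [natDegree_X_mul hm.ne_zero, hd]
  have hlt : (2 * U n).natDegree < (X * U (n + 1)).natDegree := by
    rw [h2]
    cases n with
    | zero => simp [U_zero]
    | succ n =>
      have h3 : (2 * U (n + 1) : ℂ[X]).natDegree ≤ (U (n + 1)).natDegree := by
        have h4 : (2 : ℂ[X]) = C 2 := C2
        rw [h4]
        exact natDegree_C_mul_le _ _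
      rw [(U_monic n).2] at h3
      omega
  rw [T_eq]
  exact ⟨h1.sub_of_left (degree_lt_degree hlt), by
    rw [natDegree_sub_eq_left_of_natDegree_lt hlt, h2]⟩

lemma F5 {n : ℕ} (hn : 1 ≤ n) : (n : ℂ[X]) * dickson 1 (1 : ℂ) n =
    X * U n + (X ^ 2 - 4) * derivative (U n) := by
  have hU : U n ≠ 0 := by
    obtain ⟨m, rfl⟩ := Nat.exists_eq_add_of_le' hn
    exact (U_monic m).1.ne_zero
  have h1 := congrArg derivative (sq_sub n)
  rw [derivative_sub, derivative_sq, T_deriv, derivative_mul, derivative_sq, derivative_sub,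
    derivative_X_pow] at h1
  have h4 : derivative (4 : ℂ[X]) = 0 := derivative_ofNat 4
  rw [h4] at h1
  simp only [Nat.cast_ofNat, map_ofNat, Nat.add_one_sub_one, pow_one, sub_zero] at h1
  have h2 : (2 * U n) * ((n : ℂ[X]) * dickson 1 (1 : ℂ) n) =
      (2 * U n) * (X * U n + (X ^ 2 - 4) * derivative (U n)) := by
    linear_combination h1
  exact mul_left_cancel₀ (mul_ne_zero two_ne_zero hU) h2

/-- `ζ` -/
lemma zeta_facts {δ : ℕ} (h0 : δ ≠ 0) : ∃ ζ : ℂ, ζ * ζ⁻¹ = 1 ∧ cc δ = ζ + ζ⁻¹ ∧ ζ ^ δ = -1 ∧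
    IsPrimitiveRoot (ζ ^ 2) δ := by
  refine ⟨Complex.exp (Real.pi * Complex.I / δ), mul_inv_cancel₀ (Complex.exp_ne_zero _), rfl,
    ?_, ?_⟩
  · rw [← Complex.exp_nat_mul]
    have h1 : (δ : ℂ) ≠ 0 := by exact_mod_cast h0
    have h2 : (δ : ℂ) * (Real.pi * Complex.I / δ) = Real.pi * Complex.I := by field_simp
    rw [h2, Complex.exp_pi_mul_I]
  · rw [← Complex.exp_nat_mul]
    have h2 : ((2 : ℕ) : ℂ) * (Real.pi * Complex.I / δ) = 2 * Real.pi * Complex.I / δ := by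
      push_cast
      ring
    rw [h2]
    exact Complex.isPrimitiveRoot_exp δ h0

lemma ne_of_sq {x y : ℂ} (hxy : x * y = 1) (h : x ^ 2 ≠ 1) : (x + y) ^ 2 ≠ 4 := by
  intro h1
  have h2 : (x - y) ^ 2 = 0 := by linear_combination h1 - 4 * hxy
  have h3 : x - y = 0 := pow_eq_zero_iff (two_ne_zero) |>.1 h2
  apply h
  linear_combination x * h3 + hxy

end S1aaux

open S1aaux

theorem cc_sq {δ : ℕ} (hδ : 2 ≤ δ) : cc δ ^ 2 ≠ 4 := by
  obtain ⟨ζ, h1, h2, -, h4⟩ := zeta_facts (δ := δ) (by omega)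
  rw [h2]
  exact ne_of_sq h1 (h4.ne_one (by omega))

theorem dickson_base {δ : ℕ} (hδ : 2 ≤ δ) : ∃ B₀ : ℂ[X], B₀.Monic ∧ B₀.natDegree = δ - 2 ∧
    (dickson 1 (1 : ℂ) δ) ^ 2 - 4 = ((X ^ 2 - 4) * (X - C (cc δ)) ^ 2) * B₀ ^ 2 ∧
    IsCoprime B₀ (dickson 1 1 δ) ∧ IsCoprime B₀ ((X ^ 2 - 4) * (X - C (cc δ)) ^ 2) := by
  have hcc := cc_sq hδ
  obtain ⟨ζ, h1, h2, h3, -⟩ := zeta_facts (δ := δ) (by omega)
  have hT : (dickson 1 (1 : ℂ) δ).eval (cc δ) = -2 := by
    rw [h2, dickson_one_one_eval_add_inv ζ ζ⁻¹ h1, inv_pow, h3]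
    norm_num
  have e4 : ∀ z : ℂ, (4 : ℂ[X]).eval z = 4 := by
    intro z
    have : (4 : ℂ[X]) = C 4 := C4
    rw [this, eval_C]
  have hsq := sq_sub δ
  have hU0 : (U δ).eval (cc δ) = 0 := by
    have h := congrArg (eval (cc δ)) hsq
    rw [eval_sub, eval_pow, hT, e4, eval_mul, eval_sub, eval_pow, eval_X, eval_pow, e4] at h
    have h' : (cc δ ^ 2 - 4) * eval (cc δ) (U δ) ^ 2 = 0 := by rw [← h]; norm_num
    exact pow_eq_zero_iff (two_ne_zero) |>.1
      ((mul_eq_zero.1 h').resolve_left (sub_ne_zero.2 hcc))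
  obtain ⟨B₀, hB⟩ : (X - C (cc δ)) ∣ U δ := dvd_iff_isRoot.2 hU0
  obtain ⟨m, rfl⟩ : ∃ m, δ = m + 2 := ⟨δ - 2, by omega⟩
  obtain ⟨hUm, hUd⟩ := U_monic (m + 1)
  have hUm' : (U (m + 2)).Monic := hUm
  have hBm : B₀.Monic := by
    rw [hB] at hUm'
    exact (monic_X_sub_C _).of_mul_monic_left hUm'
  have hBd : B₀.natDegree = m := by
    have h5 : (U (m + 2)).natDegree = m + 1 := hUd
    rw [hB, (monic_X_sub_C _).natDegree_mul hBm, natDegree_X_sub_C] at h5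
    omega
  have h5 := F5 (n := m + 2) (by omega)
  have hcop1 : IsCoprime (U (m + 2)) (dickson 1 (1 : ℂ) (m + 2)) := by
    refine ⟨-(C (1 / 4) * (X ^ 2 - 4) * U (m + 2)), C (1 / 4) * dickson 1 1 (m + 2), ?_⟩
    have h6 : (C (1 / 4 : ℂ)) * 4 = (1 : ℂ[X]) := by
      have : (4 : ℂ[X]) = C 4 := C4
      rw [this, ← C_mul]
      norm_num
    linear_combination C (1 / 4 : ℂ) * hsq + h6
  have hcop2 : IsCoprime (U (m + 2)) (X ^ 2 - 4 : ℂ[X]) := by
    have hn : ((m + 2 : ℕ) : ℂ) ≠ 0 := by exact_mod_cast (by omega : m + 2 ≠ 0)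
    have h6 : C (1 / (4 * ((m + 2 : ℕ) : ℂ))) * (4 * ((m + 2 : ℕ) : ℂ[X])) = 1 := by
      have h7 : (4 * ((m + 2 : ℕ) : ℂ[X])) = C (4 * ((m + 2 : ℕ) : ℂ)) := by
        rw [C_mul, ← C4, map_natCast]
      have h8 : (4 : ℂ) ≠ 0 := by norm_num
      rw [h7, ← C_mul, one_div_mul_cancel (mul_ne_zero h8 hn), C_1]
    refine ⟨C (1 / (4 * ((m + 2 : ℕ) : ℂ))) * (X * dickson 1 1 (m + 2)),
      C (1 / (4 * ((m + 2 : ℕ) : ℂ))) * (derivative (U (m + 2)) * dickson 1 1 (m + 2) -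
        ((m + 2 : ℕ) : ℂ[X]) * U (m + 2) ^ 2), ?_⟩
    linear_combination (-C (1 / (4 * ((m + 2 : ℕ) : ℂ))) * dickson 1 1 (m + 2)) * h5 +
      C (1 / (4 * ((m + 2 : ℕ) : ℂ))) * ((m + 2 : ℕ) : ℂ[X]) * hsq + h6
  have hBU : B₀ ∣ U (m + 2) := ⟨X - C (cc (m + 2)), by rw [hB, mul_comm]⟩
  have hcop3 : IsCoprime B₀ (X - C (cc (m + 2))) := by
    have h6 : B₀.eval (cc (m + 2)) ≠ 0 := by
      intro h7
      have h8 := congrArg (eval (cc (m + 2))) h5
      have h9 : (derivative (U (m + 2))).eval (cc (m + 2)) = 0 := by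
        rw [hB, derivative_mul, eval_add, eval_mul, eval_mul, h7]
        simp
      rw [eval_mul, hT, eval_add, eval_mul, hU0, eval_mul, h9, mul_zero, mul_zero, add_zero,
        eval_natCast] at h8
      have hn : ((m + 2 : ℕ) : ℂ) ≠ 0 := by exact_mod_cast (by omega : m + 2 ≠ 0)
      exact (mul_ne_zero hn (by norm_num)) h8
    rw [isCoprime_comm, (irreducible_X_sub_C _).coprime_iff_not_dvd, dvd_iff_isRoot]
    exact h6
  refine ⟨B₀, hBm, by rw [hBd]; omega, ?_, ?_, ?_⟩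
  · rw [hsq, hB]
    ring
  · exact hcop1.of_isCoprime_of_dvd_left hBU
  · exact (hcop2.of_isCoprime_of_dvd_left hBU).mul_right (hcop3.pow_right)

theorem dickson_monic {δ : ℕ} (hδ : 1 ≤ δ) : (dickson 1 (1 : ℂ) δ).Monic ∧ (dickson 1 (1 : ℂ) δ).natDegree = δ := by
  obtain ⟨m, rfl⟩ := Nat.exists_eq_add_of_le' hδ
  exact T_monic m

theorem dickson_cc {δ p : ℕ} (hp : p.Prime) (hδ : p ∣ δ) (h0 : δ ≠ 0) : (dickson 1 (1 : ℂ) (δ / p)).eval (cc δ) ^ 2 ≠ 4 := by
  obtain ⟨ζ, h1, h2, -, h4⟩ := zeta_facts (δ := δ) h0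
  rw [h2, dickson_one_one_eval_add_inv ζ ζ⁻¹ h1]
  apply ne_of_sq (by rw [← mul_pow, h1, one_pow])
  rw [← pow_mul, mul_comm, pow_mul]
  intro h5
  have h6 := (h4.pow_eq_one_iff_dvd _).1 h5
  obtain ⟨m, rfl⟩ := hδ
  have hm : m ≠ 0 := by rintro rfl; simp at h0
  rw [Nat.mul_div_cancel_left _ hp.pos] at h6
  have h7 := Nat.le_of_dvd (by omega) h6
  have h8 := hp.two_le
  nlinarith [Nat.pos_of_ne_zero hm]

theorem dickson_two {m : ℕ} (hm : 1 ≤ m) : ∃ A : ℂ[X], A ≠ 0 ∧ dickson 1 (1 : ℂ) (2 * m) - 2 = (X ^ 2 - 4) * A ^ 2 := by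
  refine ⟨U m, ?_, ?_⟩
  · obtain ⟨k, rfl⟩ := Nat.exists_eq_add_of_le' hm
    exact (U_monic k).1.ne_zero
  · rw [← sq_sub]
    apply Polynomial.funext
    intro z
    obtain ⟨x, y, hxy, rfl⟩ := exists_xy z
    have h1 := dickson_one_one_eval_add_inv x y hxy m
    have h2 := dickson_one_one_eval_add_inv x y hxy (2 * m)
    have e4 : (4 : ℂ[X]).eval (x + y) = 4 := by
      have : (4 : ℂ[X]) = C 4 := C4
      rw [this, eval_C]
    have e2 : (2 : ℂ[X]).eval (x + y) = 2 := by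
      have : (2 : ℂ[X]) = C 2 := C2
      rw [this, eval_C]
    rw [eval_sub, eval_sub, eval_pow, h1, h2, e4, e2]
    have e6 : x ^ m * y ^ m = 1 := by rw [← mul_pow, hxy, one_pow]
    have e7 : x ^ (2 * m) = (x ^ m) ^ 2 := by rw [mul_comm, pow_mul]
    have e8 : y ^ (2 * m) = (y ^ m) ^ 2 := by rw [mul_comm, pow_mul]
    rw [e7, e8]
    linear_combination -2 * e6

end Pool.Agent.H861.CE
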