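import Mathlib

/-!
Project CE (helper861), MP_8dbee4_ag, part S1b: deformation of a solution of Pell's equation over `ℂ⟦ε⟧`; only Mathlib is needed.

Let `P_d` be the polynomials of degree `< d`. (1) The map `P_δ × P_4 × P_(δ-2) → P_(2δ)`, `(X, Y, Z) ↦ 2D₀X - B₀(B₀Y + 2Q₀Z)` is surjective: given `E ∈ P_(2δ)`, as `B₀` is monic and coprime to `D₀` choose `X`, `deg X < δ - 2` (if `δ = 2`: `B₀ = 1`, `X = 0`) with `2D₀X ≡ E mod B₀`; `2D₀X - E = B₀G`, `deg G < δ + 2`; as `B₀` is coprime to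
`Q₀` choose `Z`, `deg Z < δ - 2` with `2Q₀Z ≡ G mod B₀`, `G - 2Q₀Z = B₀Y`, `deg Y < 4`. (2) Recursively choose `D_i, Q_i, B_i ∈ ℂ[X]`, `i ≥ 1`, `deg D_i < δ`, `deg Q_i < 4`, `deg B_i < δ - 2` (`B_i = 0` if `δ = 2`), such that for `i ≥ 1` the coefficient of `ε^i` in `D^2 - Q B^2`, `D = Σ D_i ε^i`, ...
vanishes: it is `2D₀D_i - B₀(B₀Q_i + 2Q₀B_i)` + (an expression in the coefficients of index `< i`, of degree `< 2δ`). For `i = 1` take `D₁ = B₀` and `Q₁, B₁` with `B₀Q₁ + 2Q₀B₁ = 2D₀`. (3) The polynomials over `ℂ⟦ε⟧` are `D = Σ_j (PowerSeries.mk fun i => (D_i).coeff j) X^j`, ...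
(one can work in `PowerSeries (ℂ[X])` first: `D, Q, B` as power series in `ε` over `ℂ[X]`, and then transfer).
-/

set_option autoImplicit false

open Polynomial

namespace Pool.Agent.H861.CE

namespace S1baux

/-- the transfer map from polynomials over power series to power series over polynomials -/
noncomputable def φ : (PowerSeries ℂ)[X] →+* PowerSeries ℂ[X] :=
  Polynomial.eval₂RingHom (PowerSeries.map (Polynomial.C : ℂ →+* ℂ[X])) (PowerSeries.C Polynomial.X)

lemma φ_coeff (P : (PowerSeries ℂ)[X]) (i j : ℕ) :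
    (PowerSeries.coeff i (φ P)).coeff j = PowerSeries.coeff i (P.coeff j) := by
  induction P using Polynomial.induction_on' with
  | add p q hp hq => rw [map_add, map_add, coeff_add, hp, hq, coeff_add, map_add]
  | monomial n a =>
    have : φ (Polynomial.monomial n a) =
        PowerSeries.map (Polynomial.C : ℂ →+* ℂ[X]) a * PowerSeries.C (Polynomial.X ^ n) := by
      simp [φ]
    rw [this, PowerSeries.coeff_mul_C, PowerSeries.coeff_map, Polynomial.coeff_C_mul_X_pow,
      Polynomial.coeff_monomial]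
    by_cases h : j = n
    · subst h; simp
    · rw [if_neg h, if_neg (Ne.symm h), map_zero]

lemma φ_inj {P P' : (PowerSeries ℂ)[X]} (h : φ P = φ P') : P = P' := by
  ext j i
  rw [← φ_coeff, ← φ_coeff, h]

/-- weights -/
structure Wt (F : PowerSeries ℂ[X]) (n : ℕ) : Prop where
  zero : (PowerSeries.coeff 0 F).natDegree ≤ n
  pos : ∀ i, 1 ≤ i → (PowerSeries.coeff i F).degree < n

lemma degree_mul_lt {p q : ℂ[X]} {a b : ℕ} (hp : p.natDegree ≤ a) (hq : q.degree < b) :
    (p * q).degree < ((a + b : ℕ) : WithBot ℕ) := by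
  rcases eq_or_ne (p * q) 0 with h0 | h0
  · rw [h0, degree_zero]; exact WithBot.bot_lt_coe _
  · have hp0 := left_ne_zero_of_mul h0
    have hq0 := right_ne_zero_of_mul h0
    rw [← natDegree_lt_iff_degree_lt h0, natDegree_mul hp0 hq0]
    have := (natDegree_lt_iff_degree_lt hq0).2 hq
    omega

lemma natDegree_le_of_lt {q : ℂ[X]} {b : ℕ} (hq : q.degree < b) : q.natDegree ≤ b :=
  natDegree_le_of_degree_le hq.le

lemma Wt.nat {F : PowerSeries ℂ[X]} {n : ℕ} (h : Wt F n) (i : ℕ) :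
    (PowerSeries.coeff i F).natDegree ≤ n := by
  rcases Nat.eq_zero_or_pos i with rfl | hi
  · exact h.zero
  · exact natDegree_le_of_lt (h.pos i hi)

lemma Wt.mul {F G : PowerSeries ℂ[X]} {n m : ℕ} (hF : Wt F n) (hG : Wt G m) :
    Wt (F * G) (n + m) where
  zero := by
    rw [PowerSeries.coeff_zero_eq_constantCoeff_apply, map_mul,
      ← PowerSeries.coeff_zero_eq_constantCoeff_apply, ← PowerSeries.coeff_zero_eq_constantCoeff_apply]
    exact natDegree_mul_le_of_le hF.zero hG.zero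
  pos i hi := by
    rw [PowerSeries.coeff_mul, ← mem_degreeLT]
    refine Submodule.sum_mem _ fun p hp => ?_
    rw [mem_degreeLT]
    rw [Finset.HasAntidiagonal.mem_antidiagonal] at hp
    rcases Nat.eq_zero_or_pos p.1 with h | h
    · exact degree_mul_lt (hF.nat _) (hG.pos _ (by omega))
    · rw [mul_comm, add_comm n m]
      exact degree_mul_lt (hG.nat _) (hF.pos _ h)

/-- the transfer of a power series with bounded degrees -/
lemma exists_swap (F : PowerSeries ℂ[X]) (n : ℕ) (hF : Wt F n) (h0 : (PowerSeries.coeff 0 F).coeff n = 1) :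
    ∃ P : (PowerSeries ℂ)[X], φ P = F ∧ P.Monic ∧ P.natDegree = n := by
  let c : ℕ → PowerSeries ℂ := fun j => PowerSeries.mk fun i => (PowerSeries.coeff i F).coeff j
  let P : (PowerSeries ℂ)[X] := ∑ j ∈ Finset.range (n + 1), Polynomial.C (c j) * Polynomial.X ^ j
  have hP : ∀ j, P.coeff j = c j := by
    intro j
    simp only [P, finsetSum_coeff, coeff_C_mul_X_pow]
    rw [Finset.sum_ite_eq (Finset.range (n + 1)) j c]
    split_ifs with h
    · rfl
    · rw [Finset.mem_range, not_lt] at h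
      ext i
      simp only [c, PowerSeries.coeff_mk, map_zero]
      rw [eq_comm]
      exact coeff_eq_zero_of_natDegree_lt ((hF.nat i).trans_lt (by omega))
  have hn : P.natDegree ≤ n := by
    rw [natDegree_le_iff_coeff_eq_zero]
    intro j hj
    rw [hP]
    ext i
    simp only [c, PowerSeries.coeff_mk, map_zero]
    exact coeff_eq_zero_of_natDegree_lt ((hF.nat i).trans_lt hj)
  have h1 : P.coeff n = 1 := by
    rw [hP]
    ext i
    simp only [c, PowerSeries.coeff_mk, PowerSeries.coeff_one]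
    split_ifs with h
    · rw [h, h0]
    · exact (degree_lt_iff_coeff_zero _ _).1 (hF.pos i (Nat.pos_of_ne_zero h)) n le_rfl
  refine ⟨P, ?_, monic_of_natDegree_le_of_coeff_eq_one n hn h1,
    natDegree_eq_of_le_of_coeff_ne_zero hn (by rw [h1]; exact one_ne_zero)⟩
  ext i j
  rw [φ_coeff, hP, PowerSeries.coeff_mk]

section lin

variable {δ : ℕ} (hδ : 2 ≤ δ) {D₀ Q₀ B₀ : ℂ[X]} (hD : D₀.Monic) (hD' : D₀.natDegree = δ)
    (hQ : Q₀.Monic) (hQ' : Q₀.natDegree = 4) (hB : B₀.Monic) (hB' : B₀.natDegree = δ - 2)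
    (hBD : IsCoprime B₀ D₀) (hBQ : IsCoprime B₀ Q₀)

include hB hB' in
/-- solving a congruence modulo `B₀` -/
lemma congr_solve {R : ℂ[X]} (h : IsCoprime B₀ R) (G : ℂ[X]) :
    ∃ Z H : ℂ[X], Z.degree < (δ - 2 : ℕ) ∧ 2 * R * Z - G = B₀ * H := by
  obtain ⟨a, b, hab⟩ := h
  have h2 : (2 : ℂ[X]) * Polynomial.C (1 / 2 : ℂ) = 1 := by
    rw [show (2 : ℂ[X]) = Polynomial.C (2 : ℂ) from (map_ofNat Polynomial.C 2).symm, ← map_mul]
    norm_num
  have h3 := modByMonic_add_div (Polynomial.C (1 / 2 : ℂ) * b * G) B₀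
  refine ⟨(Polynomial.C (1 / 2 : ℂ) * b * G) %ₘ B₀,
    - a * G - 2 * R * ((Polynomial.C (1 / 2 : ℂ) * b * G) /ₘ B₀), ?_, ?_⟩
  · have h1 := degree_modByMonic_lt (Polynomial.C (1 / 2 : ℂ) * b * G) hB
    rwa [degree_eq_natDegree hB.ne_zero, hB'] at h1
  · set m := (Polynomial.C (1 / 2 : ℂ) * b * G) %ₘ B₀
    set d := (Polynomial.C (1 / 2 : ℂ) * b * G) /ₘ B₀
    have h4 : m = Polynomial.C (1 / 2 : ℂ) * b * G - B₀ * d := by rw [← h3]; ring
    rw [h4]
    linear_combination (R * b * G) * h2 + G * hab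

include hB hB' in
lemma degree_of_mul {H : ℂ[X]} {n k : ℕ} (h : (B₀ * H).degree < n) (hk : n ≤ δ - 2 + k) :
    H.degree < k := by
  rcases eq_or_ne H 0 with rfl | h0
  · rw [degree_zero]; exact WithBot.bot_lt_coe _
  · rw [← natDegree_lt_iff_degree_lt (mul_ne_zero hB.ne_zero h0),
      natDegree_mul hB.ne_zero h0, hB'] at h
    rw [← natDegree_lt_iff_degree_lt h0]
    omega

lemma two_mul_natDegree (R : ℂ[X]) : (2 * R).natDegree ≤ R.natDegree := by
  rw [show (2 : ℂ[X]) = Polynomial.C (2 : ℂ) from (map_ofNat Polynomial.C 2).symm]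
  exact natDegree_C_mul_le _ _

lemma sub_lt {p q : ℂ[X]} {n : ℕ} (hp : p.degree < n) (hq : q.degree < n) :
    (p - q).degree < n := (degree_sub_le p q).trans_lt (max_lt hp hq)

include hδ hQ' hB hB' hBQ in
/-- the second congruence -/
lemma solve_two {G : ℂ[X]} (hG : G.degree < (δ + 2 : ℕ)) : ∃ Y Z : ℂ[X], Y.degree < (4 : ℕ) ∧
    Z.degree < (δ - 2 : ℕ) ∧ B₀ * Y + 2 * Q₀ * Z = G := by
  obtain ⟨Z, H, hZ, hH⟩ := congr_solve hB hB' hBQ G
  refine ⟨-H, Z, ?_, hZ, by linear_combination hH⟩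
  rw [degree_neg]
  have h1 : (2 * Q₀ * Z).degree < ((4 + (δ - 2) : ℕ) : WithBot ℕ) :=
    degree_mul_lt ((two_mul_natDegree Q₀).trans hQ'.le) hZ
  rw [show 4 + (δ - 2) = δ + 2 by omega] at h1
  have h2 := sub_lt h1 hG
  rw [hH] at h2
  exact degree_of_mul hB hB' h2 (by omega)

include hδ hD' hQ' hB hB' hBD hBQ in
/-- the linearized equation can be solved -/
lemma solve {E : ℂ[X]} (hE : E.degree < (2 * δ : ℕ)) : ∃ X Y Z : ℂ[X], X.degree < (δ : ℕ) ∧
    Y.degree < (4 : ℕ) ∧ Z.degree < (δ - 2 : ℕ) ∧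
    2 * D₀ * X - B₀ * (B₀ * Y + 2 * Q₀ * Z) = E := by
  obtain ⟨X, G, hX, hG⟩ := congr_solve hB hB' hBD E
  have h1 : (2 * D₀ * X).degree < ((δ + (δ - 2) : ℕ) : WithBot ℕ) :=
    degree_mul_lt ((two_mul_natDegree D₀).trans hD'.le) hX
  have h1' : (2 * D₀ * X).degree < ((2 * δ : ℕ) : WithBot ℕ) :=
    h1.trans_le (by exact_mod_cast (by omega : δ + (δ - 2) ≤ 2 * δ))
  have h2 := sub_lt h1' hE
  rw [hG] at h2
  obtain ⟨Y, Z, hY, hZ, h3⟩ := solve_two hδ hQ' hB hB' hBQ
    (degree_of_mul hB hB' h2 (k := δ + 2) (by omega))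
  refine ⟨X, Y, Z, hX.trans_le (by exact_mod_cast (by omega : δ - 2 ≤ δ)), hY, hZ, ?_⟩
  rw [h3, ← hG]
  ring

end lin

/-- dependent choice for sequences -/
lemma exists_seq {α : Type} (P : ℕ → (ℕ → α) → Prop)
    (hloc : ∀ n f g, (∀ i < n + 2, f i = g i) → P n f → P n g)
    {f₀ : ℕ → α} (h0 : P 0 f₀) (hstep : ∀ n f, P n f → ∃ a, P (n + 1) (Function.update f (n + 2) a)) :
    ∃ f : ℕ → α, ∀ n, P n f := by
  classical
  choose a ha using hstep
  let g : (n : ℕ) → {f : ℕ → α // P n f} := fun n => Nat.rec ⟨f₀, h0⟩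
    (fun n F => ⟨Function.update F.1 (n + 2) (a n F.1 F.2), ha n F.1 F.2⟩) n
  have hg : ∀ n, (g (n + 1)).1 = Function.update (g n).1 (n + 2) (a n (g n).1 (g n).2) :=
    fun n => rfl
  have hstab : ∀ n k i, i < n + 2 → (g (n + k)).1 i = (g n).1 i := by
    intro n k i hi
    induction k with
    | zero => rfl
    | succ k ih =>
      rw [← add_assoc, hg, Function.update_of_ne (by omega), ih]
  refine ⟨fun i => (g i).1 i, fun n => hloc n _ _ ?_ (g n).2⟩
  intro i hi
  rcases le_total i n with h | h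
  · obtain ⟨k, rfl⟩ := Nat.exists_eq_add_of_le h
    exact hstab i k i (by omega)
  · obtain ⟨k, rfl⟩ := Nat.exists_eq_add_of_le h
    exact (hstab n k (n + k) hi).symm

/-- the three power series of a sequence of triples -/
noncomputable def sD (f : ℕ → ℂ[X] × ℂ[X] × ℂ[X]) : PowerSeries ℂ[X] :=
  PowerSeries.mk fun i => (f i).1

noncomputable def sQ (f : ℕ → ℂ[X] × ℂ[X] × ℂ[X]) : PowerSeries ℂ[X] :=
  PowerSeries.mk fun i => (f i).2.1

noncomputable def sB (f : ℕ → ℂ[X] × ℂ[X] × ℂ[X]) : PowerSeries ℂ[X] :=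
  PowerSeries.mk fun i => (f i).2.2

/-- the error -/
noncomputable def er (f : ℕ → ℂ[X] × ℂ[X] × ℂ[X]) : PowerSeries ℂ[X] :=
  sD f * sD f - 4 - sQ f * (sB f * sB f)

lemma er_congr {f g : ℕ → ℂ[X] × ℂ[X] × ℂ[X]} {n : ℕ} (h : ∀ i < n, f i = g i) {i : ℕ}
    (hi : i < n) : PowerSeries.coeff i (er f) = PowerSeries.coeff i (er g) := by
  have key : ∀ F F' G G' : PowerSeries ℂ[X],
      (∀ i < n, PowerSeries.coeff i F = PowerSeries.coeff i F') →
      (∀ i < n, PowerSeries.coeff i G = PowerSeries.coeff i G') →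
      ∀ i < n, PowerSeries.coeff i (F * G) = PowerSeries.coeff i (F' * G') := by
    intro F F' G G' hF hG i hi
    rw [PowerSeries.coeff_mul, PowerSeries.coeff_mul]
    refine Finset.sum_congr rfl fun p hp => ?_
    rw [Finset.HasAntidiagonal.mem_antidiagonal] at hp
    rw [hF _ (by omega), hG _ (by omega)]
  have hD : ∀ i < n, PowerSeries.coeff i (sD f) = PowerSeries.coeff i (sD g) := by
    intro i hi
    simp only [sD, PowerSeries.coeff_mk, h i hi]
  have hQ : ∀ i < n, PowerSeries.coeff i (sQ f) = PowerSeries.coeff i (sQ g) := by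
    intro i hi
    simp only [sQ, PowerSeries.coeff_mk, h i hi]
  have hB : ∀ i < n, PowerSeries.coeff i (sB f) = PowerSeries.coeff i (sB g) := by
    intro i hi
    simp only [sB, PowerSeries.coeff_mk, h i hi]
  unfold er
  rw [map_sub, map_sub, map_sub, map_sub, key _ _ _ _ hD hD i hi,
    key _ _ _ _ hQ (key _ _ _ _ hB hB) i hi]

/-- changing one term -/
lemma er_update (f : ℕ → ℂ[X] × ℂ[X] × ℂ[X]) (m : ℕ) (hm : 1 ≤ m) (a : ℂ[X] × ℂ[X] × ℂ[X]) :
    PowerSeries.coeff m (er (Function.update f m a)) =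
      PowerSeries.coeff m (er (Function.update f m 0)) +
        (2 * (f 0).1 * a.1 - (f 0).2.2 * ((f 0).2.2 * a.2.1 + 2 * (f 0).2.1 * a.2.2)) := by
  classical
  set g := Function.update f m 0 with hg
  have h1 : sD (Function.update f m a) = sD g + PowerSeries.X ^ m * PowerSeries.C a.1 := by
    ext1 i
    rw [map_add, PowerSeries.coeff_mul_C, PowerSeries.coeff_X_pow]
    simp only [sD, PowerSeries.coeff_mk, hg]
    by_cases h : i = m
    · subst h; simp
    · simp [h]
  have h2 : sQ (Function.update f m a) = sQ g + PowerSeries.X ^ m * PowerSeries.C a.2.1 := by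
    ext1 i
    rw [map_add, PowerSeries.coeff_mul_C, PowerSeries.coeff_X_pow]
    simp only [sQ, PowerSeries.coeff_mk, hg]
    by_cases h : i = m
    · subst h; simp
    · simp [h]
  have h3 : sB (Function.update f m a) = sB g + PowerSeries.X ^ m * PowerSeries.C a.2.2 := by
    ext1 i
    rw [map_add, PowerSeries.coeff_mul_C, PowerSeries.coeff_X_pow]
    simp only [sB, PowerSeries.coeff_mk, hg]
    by_cases h : i = m
    · subst h; simp
    · simp [h]
  have h4 : er (Function.update f m a) = er g + PowerSeries.X ^ m *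
      ((2 * sD g * PowerSeries.C a.1 - sB g * sB g * PowerSeries.C a.2.1
        - 2 * sQ g * sB g * PowerSeries.C a.2.2) + PowerSeries.X ^ m *
        (PowerSeries.C a.1 * PowerSeries.C a.1 - 2 * sB g * PowerSeries.C a.2.1 *
          PowerSeries.C a.2.2 - sQ g * PowerSeries.C a.2.2 * PowerSeries.C a.2.2
          - PowerSeries.X ^ m * PowerSeries.C a.2.1 * PowerSeries.C a.2.2 *
            PowerSeries.C a.2.2)) := by
    unfold er
    rw [h1, h2, h3]
    ring
  have g0 : g 0 = f 0 := Function.update_of_ne (by omega) _ _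
  rw [h4, map_add, PowerSeries.coeff_X_pow_mul', if_pos le_rfl, Nat.sub_self, map_add,
    PowerSeries.coeff_X_pow_mul', if_neg (by omega), add_zero]
  congr 1
  rw [PowerSeries.coeff_zero_eq_constantCoeff_apply]
  simp only [map_sub, map_mul, map_ofNat, PowerSeries.constantCoeff_C]
  have e1 : PowerSeries.constantCoeff (sD g) = (f 0).1 := by
    rw [← PowerSeries.coeff_zero_eq_constantCoeff_apply, sD, PowerSeries.coeff_mk, g0]
  have e2 : PowerSeries.constantCoeff (sQ g) = (f 0).2.1 := by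
    rw [← PowerSeries.coeff_zero_eq_constantCoeff_apply, sQ, PowerSeries.coeff_mk, g0]
  have e3 : PowerSeries.constantCoeff (sB g) = (f 0).2.2 := by
    rw [← PowerSeries.coeff_zero_eq_constantCoeff_apply, sB, PowerSeries.coeff_mk, g0]
  rw [e1, e2, e3]
  ring

end S1baux

open S1baux in
theorem pell_deform {δ : ℕ} (hδ : 2 ≤ δ) (D₀ Q₀ B₀ : ℂ[X]) (hD : D₀.Monic) (hD' : D₀.natDegree = δ)
    (hQ : Q₀.Monic) (hQ' : Q₀.natDegree = 4) (hB : B₀.Monic) (hB' : B₀.natDegree = δ - 2)
    (h : D₀ ^ 2 - 4 = Q₀ * B₀ ^ 2) (hBD : IsCoprime B₀ D₀) (hBQ : IsCoprime B₀ Q₀) :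
    ∃ D Q B : (PowerSeries ℂ)[X], D.Monic ∧ D.natDegree = δ ∧ Q.Monic ∧ Q.natDegree = 4 ∧
      B.Monic ∧ B.natDegree = δ - 2 ∧ D ^ 2 - 4 = Q * B ^ 2 ∧
      D.map PowerSeries.constantCoeff = D₀ ∧ Q.map PowerSeries.constantCoeff = Q₀ ∧
      B.map PowerSeries.constantCoeff = B₀ ∧
      ∃ Q₁ B₁ : ℂ[X], (∀ j, PowerSeries.coeff 1 (Q.coeff j) = Q₁.coeff j) ∧
        B₀ * Q₁ + 2 * Q₀ * B₁ = 2 * D₀ := by
  classical
  -- the terms of index one
  have hG : (2 * D₀).degree < ((δ + 2 : ℕ) : WithBot ℕ) := by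
    refine lt_of_le_of_lt (degree_le_natDegree) ?_
    have := two_mul_natDegree D₀
    exact_mod_cast (by omega : (2 * D₀).natDegree < δ + 2)
  obtain ⟨Q₁, B₁, hQ₁, hB₁, h₁⟩ := solve_two hδ hQ' hB hB' hBQ hG
  have hB₀ : B₀.degree < (δ : ℕ) := by
    rw [degree_eq_natDegree hB.ne_zero, hB']
    exact_mod_cast (by omega : δ - 2 < δ)
  let P : ℕ → (ℕ → ℂ[X] × ℂ[X] × ℂ[X]) → Prop := fun n f =>
    f 0 = (D₀, Q₀, B₀) ∧ f 1 = (B₀, Q₁, B₁) ∧
    (∀ i, 1 ≤ i → i < n + 2 → (f i).1.degree < (δ : ℕ) ∧ (f i).2.1.degree < (4 : ℕ) ∧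
      (f i).2.2.degree < (δ - 2 : ℕ)) ∧
    ∀ i, i < n + 2 → PowerSeries.coeff i (er f) = 0
  obtain ⟨f, hf⟩ : ∃ f, ∀ n, P n f := by
    let f₀ : ℕ → ℂ[X] × ℂ[X] × ℂ[X] := fun i => if i = 0 then (D₀, Q₀, B₀) else (B₀, Q₁, B₁)
    refine exists_seq P ?_ (f₀ := f₀) ?_ ?_
    · rintro n f g hfg ⟨a1, a2, a3, a4⟩
      refine ⟨by rw [← hfg 0 (by omega), a1], by rw [← hfg 1 (by omega), a2], ?_, ?_⟩
      · intro i h1 h2
        rw [← hfg i h2]; exact a3 i h1 h2
      · intro i hi
        rw [← er_congr hfg hi]; exact a4 i hi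
    · refine ⟨rfl, rfl, ?_, ?_⟩
      · intro i h1 h2
        have : i = 1 := by omega
        subst this
        exact ⟨hB₀, hQ₁, hB₁⟩
      · intro i hi
        have e0 : (f₀ 0) = (D₀, Q₀, B₀) := rfl
        have e1 : (f₀ 1) = (B₀, Q₁, B₁) := rfl
        rcases (by omega : i = 0 ∨ i = 1) with rfl | rfl
        · rw [PowerSeries.coeff_zero_eq_constantCoeff_apply]
          simp only [er, map_sub, map_mul, map_ofNat]
          simp only [← PowerSeries.coeff_zero_eq_constantCoeff_apply, sD, sQ, sB,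
            PowerSeries.coeff_mk, e0]
          linear_combination h
        · have a1 : PowerSeries.coeff 1 (sD f₀ * sD f₀) = 2 * D₀ * B₀ := by
            rw [PowerSeries.coeff_mul]
            simp only [sD, PowerSeries.coeff_mk]
            rw [show Finset.HasAntidiagonal.antidiagonal 1 = {((0 : ℕ), (1 : ℕ)), (1, 0)} from rfl]
            rw [Finset.sum_pair (by decide)]
            simp only [e0, e1]
            ring
          have a2 : PowerSeries.coeff 1 (sB f₀ * sB f₀) = 2 * B₀ * B₁ := by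
            rw [PowerSeries.coeff_mul]
            simp only [sB, PowerSeries.coeff_mk]
            rw [show Finset.HasAntidiagonal.antidiagonal 1 = {((0 : ℕ), (1 : ℕ)), (1, 0)} from rfl]
            rw [Finset.sum_pair (by decide)]
            simp only [e0, e1]
            ring
          have a3 : PowerSeries.coeff 0 (sB f₀ * sB f₀) = B₀ * B₀ := by
            rw [PowerSeries.coeff_zero_eq_constantCoeff_apply, map_mul,
              ← PowerSeries.coeff_zero_eq_constantCoeff_apply]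
            simp only [sB, PowerSeries.coeff_mk, e0]
          have a4 : PowerSeries.coeff 1 (sQ f₀ * (sB f₀ * sB f₀)) =
              Q₀ * (2 * B₀ * B₁) + Q₁ * (B₀ * B₀) := by
            rw [PowerSeries.coeff_mul]
            rw [show Finset.HasAntidiagonal.antidiagonal 1 = {((0 : ℕ), (1 : ℕ)), (1, 0)} from rfl]
            rw [Finset.sum_pair (by decide)]
            simp only [a2, a3]
            simp only [sQ, PowerSeries.coeff_mk, e0, e1]
          have a5 : PowerSeries.coeff 1 (4 : PowerSeries ℂ[X]) = 0 := by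
            rw [show (4 : PowerSeries ℂ[X]) = PowerSeries.C (4 : ℂ[X]) from
              (map_ofNat PowerSeries.C 4).symm, PowerSeries.coeff_C]
            simp
          rw [er, map_sub, map_sub, a1, a4, a5]
          linear_combination (-B₀) * h₁
    · rintro n f ⟨a1, a2, a3, a4⟩
      set g := Function.update f (n + 2) 0 with hg
      have g0 : g 0 = (D₀, Q₀, B₀) := by rw [hg, Function.update_of_ne (by omega), a1]
      have gw : ∀ i, 1 ≤ i → i ≤ n + 2 → (g i).1.degree < (δ : ℕ) ∧ (g i).2.1.degree < (4 : ℕ) ∧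
          (g i).2.2.degree < (δ - 2 : ℕ) := by
        intro i h1 h2
        rcases h2.eq_or_lt with rfl | h2
        · simp only [hg, Function.update_self, Prod.fst_zero, Prod.snd_zero, degree_zero]
          exact ⟨WithBot.bot_lt_coe _, WithBot.bot_lt_coe _, WithBot.bot_lt_coe _⟩
        · rw [hg, Function.update_of_ne (by omega)]
          exact a3 i h1 h2
      -- cut off the series
      let g' : ℕ → ℂ[X] × ℂ[X] × ℂ[X] := fun i => if i ≤ n + 2 then g i else 0
      have hg'0 : g' 0 = (D₀, Q₀, B₀) := by simp only [g', Nat.zero_le, if_true, g0]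
      have hg' : ∀ i, 1 ≤ i → (g' i).1.degree < (δ : ℕ) ∧ (g' i).2.1.degree < (4 : ℕ) ∧
          (g' i).2.2.degree < (δ - 2 : ℕ) := by
        intro i h1
        by_cases h2 : i ≤ n + 2
        · simp only [g', if_pos h2]; exact gw i h1 h2
        · simp only [g', if_neg h2, Prod.fst_zero, Prod.snd_zero, degree_zero]
          exact ⟨WithBot.bot_lt_coe _, WithBot.bot_lt_coe _, WithBot.bot_lt_coe _⟩
      have wD : Wt (sD g') δ := ⟨by simp only [sD, PowerSeries.coeff_mk, hg'0]; exact hD'.le,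
        fun i hi => by simp only [sD, PowerSeries.coeff_mk]; exact (hg' i hi).1⟩
      have wQ : Wt (sQ g') 4 := ⟨by simp only [sQ, PowerSeries.coeff_mk, hg'0]; exact hQ'.le,
        fun i hi => by simp only [sQ, PowerSeries.coeff_mk]; exact (hg' i hi).2.1⟩
      have wB : Wt (sB g') (δ - 2) := ⟨by simp only [sB, PowerSeries.coeff_mk, hg'0]; exact hB'.le,
        fun i hi => by simp only [sB, PowerSeries.coeff_mk]; exact (hg' i hi).2.2⟩
      have e1 : PowerSeries.coeff (n + 2) (er g) = PowerSeries.coeff (n + 2) (er g') := by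
        refine er_congr (n := n + 3) ?_ (by omega)
        intro i hi
        simp only [g', if_pos (by omega : i ≤ n + 2)]
      have e2 : (PowerSeries.coeff (n + 2) (er g')).degree < (2 * δ : ℕ) := by
        have b1 := (wD.mul wD).pos (n + 2) (by omega)
        have b2 := (wQ.mul (wB.mul wB)).pos (n + 2) (by omega)
        rw [show δ + δ = 2 * δ by ring] at b1
        rw [show 4 + (δ - 2 + (δ - 2)) = 2 * δ by omega] at b2
        have b3 : PowerSeries.coeff (n + 2) (4 : PowerSeries ℂ[X]) = 0 := by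
          rw [show (4 : PowerSeries ℂ[X]) = PowerSeries.C (4 : ℂ[X]) from
            (map_ofNat PowerSeries.C 4).symm, PowerSeries.coeff_C]
          simp
        rw [er, map_sub, map_sub, b3, sub_zero]
        exact sub_lt b1 b2
      obtain ⟨x, y, z, hx, hy, hz, hxyz⟩ := solve hδ hD' hQ' hB hB' hBD hBQ
        (E := - PowerSeries.coeff (n + 2) (er g)) (by rw [degree_neg, e1]; exact e2)
      refine ⟨(x, y, z), ?_, ?_, ?_, ?_⟩
      · rw [Function.update_of_ne (by omega), a1]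
      · rw [Function.update_of_ne (by omega), a2]
      · intro i h1 h2
        rcases (by omega : i < n + 2 ∨ i = n + 2) with h3 | rfl
        · rw [Function.update_of_ne (by omega)]
          exact a3 i h1 h3
        · rw [Function.update_self]
          exact ⟨hx, hy, hz⟩
      · intro i hi
        rcases (by omega : i < n + 2 ∨ i = n + 2) with h3 | rfl
        · rw [er_congr (g := f) (n := n + 2) (fun j hj => Function.update_of_ne (by omega) _ _) h3]
          exact a4 i h3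
        · rw [er_update f (n + 2) (by omega), a1, ← hg]
          simp only
          rw [hxyz]
          ring
  have f0 : f 0 = (D₀, Q₀, B₀) := (hf 0).1
  have f1 : f 1 = (B₀, Q₁, B₁) := (hf 0).2.1
  have fw : ∀ i, 1 ≤ i → (f i).1.degree < (δ : ℕ) ∧ (f i).2.1.degree < (4 : ℕ) ∧
      (f i).2.2.degree < (δ - 2 : ℕ) := fun i hi => (hf i).2.2.1 i hi (by omega)
  have fe : er f = 0 := by
    ext1 i
    rw [(hf i).2.2.2 i (by omega), map_zero]
  have wD : Wt (sD f) δ := ⟨by simp only [sD, PowerSeries.coeff_mk, f0]; exact hD'.le,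
    fun i hi => by simp only [sD, PowerSeries.coeff_mk]; exact (fw i hi).1⟩
  have wQ : Wt (sQ f) 4 := ⟨by simp only [sQ, PowerSeries.coeff_mk, f0]; exact hQ'.le,
    fun i hi => by simp only [sQ, PowerSeries.coeff_mk]; exact (fw i hi).2.1⟩
  have wB : Wt (sB f) (δ - 2) := ⟨by simp only [sB, PowerSeries.coeff_mk, f0]; exact hB'.le,
    fun i hi => by simp only [sB, PowerSeries.coeff_mk]; exact (fw i hi).2.2⟩
  obtain ⟨D, hφD, mD, nD⟩ := exists_swap (sD f) δ wD (by
    simp only [sD, PowerSeries.coeff_mk, f0]; rw [← hD']; exact hD)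
  obtain ⟨Q, hφQ, mQ, nQ⟩ := exists_swap (sQ f) 4 wQ (by
    simp only [sQ, PowerSeries.coeff_mk, f0]; rw [← hQ']; exact hQ)
  obtain ⟨B, hφB, mB, nB⟩ := exists_swap (sB f) (δ - 2) wB (by
    simp only [sB, PowerSeries.coeff_mk, f0]; rw [← hB']; exact hB)
  refine ⟨D, Q, B, mD, nD, mQ, nQ, mB, nB, ?_, ?_, ?_, ?_, Q₁, B₁, ?_, h₁⟩
  · apply φ_inj
    rw [map_sub, map_mul, map_pow, map_pow, hφD, hφQ, hφB, map_ofNat]
    unfold er at fe
    linear_combination fe
  · ext j
    rw [coeff_map, ← PowerSeries.coeff_zero_eq_constantCoeff_apply, ← φ_coeff, hφD, sD,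
      PowerSeries.coeff_mk, f0]
  · ext j
    rw [coeff_map, ← PowerSeries.coeff_zero_eq_constantCoeff_apply, ← φ_coeff, hφQ, sQ,
      PowerSeries.coeff_mk, f0]
  · ext j
    rw [coeff_map, ← PowerSeries.coeff_zero_eq_constantCoeff_apply, ← φ_coeff, hφB, sB,
      PowerSeries.coeff_mk, f0]
  · intro j
    rw [← φ_coeff, hφQ, sQ, PowerSeries.coeff_mk, f1]

end Pool.Agent.H861.CE
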