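import Pool.Agent.H861.CD.T3
import Pool.Agent.H861.CE.S1a

/-!
Project CE (helper861), MP_8dbee4_ag, part S2: a place lemma, and nondegeneracy of the deformed Pell polynomials (`S1a` with its statements is available as `Pool.Agent.H861.CE.S1a`; its proofs are being done elsewhere).

`exists_place_hom`: as in `exists_place` of `Pool/Agent/H861/CD/T3.lean`: `f(P) ≅ P/ker f` maps to `F` by `g`, with kernel a prime ideal; a valuation ring `O` of `κ` dominating the localisation at this prime (Mathlib: `LocalSubring.exists_le_valuationSubring` or similar). The residue field of a valuation ring of an algebraically closed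
field is algebraically closed (`isAlgClosed_residueField` in T3).

`nondeg_one`: by `exists_place_hom` (with `f = φ`, `g = constantCoeff`) there is a valuation ring `O ⊆ κ` with `φ(a) ∈ O` for all `a`, and `φ(a) ∈ m_O` iff `constantCoeff a = 0`; `κ' = O/m`, `φ' : ℂ → κ'`. Write `c = cc δ`, `ε = φ(X) ∈ m`, `ε ≠ 0`, `Q₀ = (X^2-4)(X-c)^2`.
(a) `Q` squarefree: otherwise (κ algebraically closed) there is `v ∈ κ` with `Q(v) = 0 = Q'(v)`. `v` is integral over `O`, so `v ∈ O`; its residue is a double root of `Q₀`, so it is `c` (as `c ≠ ±2`). Let `x = v - c ∈ m`. `Q = Q₀ + ε Q̃` with `Q̃` over `ℂ⟦ε⟧` and `Q̃(c) ≡ Q₁(c) ≠ 0`, so `Q̃(v)` is a unit of `O`.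
`0 = Q(v) = (v^2-4)x^2 + εQ̃(v)`, so `v(x)^2 = v(ε)`. `0 = Q'(v) = 2x(v^2-4) + 2v x^2 + εQ̃'(v)`, so `v(x) ≤ v(ε)` (`x(2(v^2 - 4) + 2vx) = -εQ̃'(v)`, the factor is a unit). So `v(ε) = v(x)^2 ≤ v(ε)^2 < v(ε)`: contradiction.
(b) `D ≠ T_p ∘ G`, `T_p = dickson 1 1 p`: `D` is monic with coefficients in `O`; `T_p = ∏ (X - t_i)` with `t_i ∈ ℂ` (`p` distinct ones, but not needed); by Gauss (if the maximum of the values of the coefficients of `G` were `> 1` then so were the one of `∏ (G - t_i) = D`) `G ∈ O[X]`; the reduction: `T_δ = T_p ∘ Ḡ` over `κ'`. Also `T_δ = T_p ∘ T_(δ/p)`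
(`dickson_one_one_comp`-like lemma in Mathlib: `Polynomial.dickson_one_one_mul`). Claim: `Ḡ = ±T_(δ/p)` up to sign: `T_p(A) = T_p(B)` with nonconstant `A, B`: `T_p(A) - T_p(B) = (A - B) ∏ (A - ζB)(A - ζ⁻¹B) + (ζ - ζ⁻¹)^2` over the pairs `{ζ, ζ⁻¹}` of `p`-th roots of unity `≠ 1` (`p` odd); `(A - ζB)(A - ζ⁻¹B)` is not constant
(else `A - ζB` and `A - ζ⁻¹B` are constants, so are `A, B`). For `p = 2`: `A^2 = B^2`. Other route for the claim: choose `W` with ... (any proof is fine.) So `Ḡ(c)^2 = T_(δ/p)(c)^2 ≠ 4` (`dickson_cc`). On the other hand `Q` has a root `v ≡ c` (as `Q` is monic and reduces to `Q₀`, its roots reduce to those of `Q₀`), a simple one by (a),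
so `D^2 - 4 = QB^2` has odd multiplicity at `v`; `D^2 - 4 = (G^2 - 4) S_p(G)^2` so `G^2 - 4` vanishes at `v`, `Ḡ(c)^2 = 4`. Contradiction.
(c) `p = 2`, `D - 2 = G^2`: `G ∈ O[X]` (Gauss), reduction: `T_δ - 2 = Ḡ^2`, `δ = 2m` even, and `T_δ - 2 = (X^2 - 4) A^2` (`dickson_two`) is not a square (`X - 2` has odd multiplicity).

`coprime_two`: by `exists_place_hom` for `f`, `g`: `O ⊆ κ`. If not coprime then there is a common root `v ∈ κ` of the two polynomials; `v ∈ O` (monic). Its residue `v̄ ∈ κ'` is a root of the image of `Q₂`, which is the image of `Q₂.map constantCoeff ∈ ℂ[X]` (by `hg2`) so `v̄` is the image of a complex number `v₀`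
(the polynomial splits over `ℂ`). So `v̄` is also a root of the image of `Q₁`: the image of `Q₁.eval (C v₀) ∈ ℂ⟦X⟧` in `κ'` vanishes, so `g (e₁ (Q₁.eval (C v₀))) = 0`, so `Q₁.eval (C v₀) = 0` by `hg1`: contradiction to `h1`.
-/

set_option autoImplicit false

open Polynomial

namespace Pool.Agent.H861.CE

/-- deformations of the Dickson polynomials over the power series -/
structure PS (δ : ℕ) (D Q B : (PowerSeries ℂ)[X]) : Prop where
  D_monic : D.Monic
  D_deg : D.natDegree = δ
  Q_monic : Q.Monic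
  Q_deg : Q.natDegree = 4
  B_monic : B.Monic
  B_deg : B.natDegree = δ - 2
  eq : D ^ 2 - 4 = Q * B ^ 2
  D_zero : D.map PowerSeries.constantCoeff = dickson 1 1 δ
  Q_zero : Q.map PowerSeries.constantCoeff = (X ^ 2 - 4) * (X - C (cc δ)) ^ 2
  Q_one : ∀ v : ℂ, (v = 2 ∨ v = -2 ∨ v = cc δ) → PowerSeries.coeff 1 (Q.eval (PowerSeries.C v)) ≠ 0

theorem exists_place_hom {P κ F : Type} [CommRing P] [Field κ] [IsAlgClosed κ] [CommRing F] [IsDomain F]
    (f : P →+* κ) (g : P →+* F) (hfg : RingHom.ker f ≤ RingHom.ker g) :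
    ∃ (O : ValuationSubring κ) (f' : P →+* O), (∀ x, (f' x : κ) = f x) ∧
      (∀ x, IsLocalRing.residue O (f' x) = 0 ↔ g x = 0) ∧ IsAlgClosed (IsLocalRing.ResidueField O) := by
  classical
  let 𝔭 : Ideal P := RingHom.ker g
  have h𝔭 : 𝔭.IsPrime := RingHom.ker_isPrime _
  let L := Localization.AtPrime 𝔭
  have hunit : ∀ y : 𝔭.primeCompl, IsUnit (f y) := by
    intro y
    rw [isUnit_iff_ne_zero]
    intro h0
    exact y.2 (hfg ((RingHom.mem_ker).2 h0))
  let F' : L →+* κ := IsLocalization.lift (M := 𝔭.primeCompl) (S := L) (g := f) hunit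
  obtain ⟨O, hO, hloc⟩ := IsLocalRing.exists_factor_valuationRing F'
  have hF : ∀ r : P, F' (algebraMap _ L r) = f r := fun r =>
    IsLocalization.lift_eq hunit r
  let G : L →+* O := F'.codRestrict O.toSubring hO
  refine ⟨O, G.comp (algebraMap _ L), fun x => hF x, ?_, CD.T3aux.isAlgClosed_residueField O⟩
  intro r
  show IsLocalRing.residue O (G (algebraMap P L r)) = 0 ↔ g r = 0
  rw [IsLocalRing.residue_eq_zero_iff, IsLocalRing.mem_maximalIdeal, mem_nonunits_iff]
  have h1 : IsUnit (G (algebraMap P L r)) ↔ IsUnit (algebraMap P L r) :=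
    ⟨fun h => hloc.map_nonunit _ h, fun h => h.map G⟩
  rw [h1, IsLocalization.AtPrime.isUnit_to_map_iff L 𝔭 r]
  show ¬ (r ∉ 𝔭) ↔ g r = 0
  rw [not_not]
  exact RingHom.mem_ker

namespace S2aux

section place

variable {κ : Type} [Field κ] (O : ValuationSubring κ)

/-- roots of monic polynomials over `O` are in `O` -/
lemma root_mem {R : O[X]} (hR : R.Monic) {v : κ} (hv : (R.map O.subtype).eval v = 0) :
    ∃ y : O, (y : κ) = v ∧ R.eval y = 0 := by
  have hint : IsIntegral O v := by
    refine ⟨R, hR, ?_⟩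
    rw [Polynomial.eval_map] at hv
    exact hv
  obtain ⟨y, hy⟩ := (IsIntegrallyClosed.isIntegral_iff (R := O) (K := κ)).1 hint
  refine ⟨y, hy, ?_⟩
  have h2 : O.subtype (R.eval y) = 0 := by
    rw [Polynomial.eval_map, ← hy] at hv
    have h3 : (algebraMap O κ) y = O.subtype y := rfl
    rw [h3, Polynomial.eval₂_hom] at hv
    exact hv
  exact Subtype.ext h2

/-- roots of the reduction lift -/
lemma root_lift [IsAlgClosed κ] : ∀ (n : ℕ) (R : O[X]), R.Monic → R.natDegree = n →
    ∀ w : IsLocalRing.ResidueField O, (R.map (IsLocalRing.residue O)).eval w = 0 →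
    ∃ y : O, R.eval y = 0 ∧ IsLocalRing.residue O y = w := by
  intro n
  induction n with
  | zero =>
    intro R hR hn w hw
    exfalso
    rw [hR.natDegree_eq_zero.1 hn] at hw
    simp at hw
  | succ n ih =>
    intro R hR hn w hw
    obtain ⟨x, hx⟩ := IsAlgClosed.exists_root (R.map O.subtype) (by
      rw [Polynomial.degree_map_eq_of_injective Subtype.val_injective]
      intro h0
      have h1 : R.natDegree = 0 := Polynomial.natDegree_eq_of_degree_eq_some h0
      omega)
    obtain ⟨y, hy, hy0⟩ := root_mem O hR hx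
    obtain ⟨R', hR'⟩ := dvd_iff_isRoot.2 (show R.IsRoot y from hy0)
    by_cases hyw : IsLocalRing.residue O y = w
    · exact ⟨y, hy0, hyw⟩
    · have hm : R'.Monic := (monic_X_sub_C y).of_mul_monic_left (hR' ▸ hR)
      have hd : R'.natDegree = n := by
        have h1 : R.natDegree = (X - C y).natDegree + R'.natDegree := by
          rw [hR']; exact (monic_X_sub_C y).natDegree_mul hm
        rw [natDegree_X_sub_C] at h1
        omega
      have hw' : (R'.map (IsLocalRing.residue O)).eval w = 0 := by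
        rw [hR'] at hw
        simp only [Polynomial.map_mul, Polynomial.map_sub, Polynomial.map_X, Polynomial.map_C,
          eval_mul, eval_sub, eval_X, eval_C, mul_eq_zero] at hw
        rcases hw with h | h
        · exact absurd (sub_eq_zero.1 h).symm hyw
        · exact h
      obtain ⟨z, hz, hzw⟩ := ih R' hm hd w hw'
      refine ⟨z, ?_, hzw⟩
      rw [hR', eval_mul, hz, mul_zero]

/-- Gauss: `G` is over `O` if `P ∘ G` is -/
lemma gauss_comp [IsAlgClosed κ] {P G : κ[X]} (hP : P.Monic) (hPl : P ∈ Polynomial.lifts O.subtype)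
    (hP1 : P.natDegree ≠ 0) (hD : (P.comp G).Monic) (hDl : P.comp G ∈ Polynomial.lifts O.subtype)
    (hD1 : (P.comp G).natDegree ≠ 0) : ∃ G' : O[X], G'.map O.subtype = G := by
  obtain ⟨P', hP', -, hP'm⟩ := Polynomial.lifts_and_natDegree_eq_and_monic hPl hP
  obtain ⟨D', hD', -, hD'm⟩ := Polynomial.lifts_and_natDegree_eq_and_monic hDl hD
  obtain ⟨t, ht⟩ := IsAlgClosed.exists_root P (by
    intro h0
    exact hP1 (Polynomial.natDegree_eq_of_degree_eq_some h0))
  obtain ⟨t', ht', -⟩ := root_mem O hP'm (v := t) (by rw [hP']; exact ht)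
  have hG1 : G.natDegree ≠ 0 := by
    intro h
    apply hD1
    rw [natDegree_comp, h, mul_zero]
  have hlc : G.leadingCoeff ^ P.natDegree = 1 := by
    have h := leadingCoeff_comp (p := P) hG1
    rw [hD.leadingCoeff, hP.leadingCoeff, one_mul] at h
    exact h.symm
  have hlc0 : G.leadingCoeff ≠ 0 := by
    intro h
    rw [h, zero_pow hP1] at hlc
    exact zero_ne_one hlc
  obtain ⟨l, hl, -⟩ := root_mem O (R := X ^ P.natDegree - 1) (monic_X_pow_sub_C 1 hP1)
    (v := G.leadingCoeff) (by simp [hlc])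
  have hG0 : (G - C t).leadingCoeff = G.leadingCoeff := by
    apply leadingCoeff_sub_of_degree_lt
    exact lt_of_le_of_lt degree_C_le (natDegree_pos_iff_degree_pos.1 (Nat.pos_of_ne_zero hG1))
  -- the monic polynomial `C lc⁻¹ * (G - C t)`
  have hm : (C G.leadingCoeff⁻¹ * (G - C t)).Monic := by
    rw [Monic, leadingCoeff_mul, leadingCoeff_C, hG0, inv_mul_cancel₀ hlc0]
  have hlift : C G.leadingCoeff⁻¹ * (G - C t) ∈ Polynomial.lifts O.subtype := by
    apply Splits.mem_lift_of_roots_mem_range (IsAlgClosed.splits _) hm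
    intro a ha
    have ha' : (G - C t).eval a = 0 := by
      have h := (mem_roots'.1 ha).2
      rw [IsRoot, eval_mul, eval_C, mul_eq_zero] at h
      rcases h with h | h
      · exact absurd h (inv_ne_zero hlc0)
      · exact h
    have haD : (P.comp G).eval a = 0 := by
      rw [eval_comp]
      rw [eval_sub, eval_C, sub_eq_zero] at ha'
      rw [ha']
      exact ht
    obtain ⟨y, hy, -⟩ := root_mem O hD'm (v := a) (by rw [hD']; exact haD)
    exact ⟨y, hy⟩
  obtain ⟨H, hH⟩ := (Polynomial.mem_lifts _).1 hlift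
  refine ⟨C l * H + C t', ?_⟩
  have e1 : O.subtype l = G.leadingCoeff := hl
  have e2 : O.subtype t' = t := ht'
  rw [Polynomial.map_add, Polynomial.map_mul, hH, map_C, map_C, e1, e2, ← mul_assoc, ← C_mul,
    mul_inv_cancel₀ hlc0, C_1, one_mul, sub_add_cancel]

end place

section dick

variable {K : Type} [Field K] [IsAlgClosed K]

lemma exists_add_inv (a : K) : ∃ u w : K, u * w = 1 ∧ u + w = a := by
  obtain ⟨u, hu⟩ := IsAlgClosed.exists_root (X ^ 2 - C a * X + 1 : K[X]) (by
    have : (X ^ 2 - C a * X + 1 : K[X]).natDegree = 2 := by compute_degree!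
    intro h0
    rw [Polynomial.natDegree_eq_of_degree_eq_some h0] at this
    exact absurd this (by norm_num))
  have hu' : u ^ 2 - a * u + 1 = 0 := by simpa [IsRoot] using hu
  refine ⟨u, a - u, ?_, by ring⟩
  linear_combination -hu'

lemma dickson_inj {p : ℕ} (hp : p ≠ 0) {A B : K[X]} (h : (dickson 1 1 p).comp A = (dickson 1 1 p).comp B)
    (hB : B.natDegree ≠ 0) : A ^ 2 = B ^ 2 := by
  classical
  let E : K → K[X] := fun ζ => (A - C ζ * B) * (A - C ζ⁻¹ * B) + C ((ζ - ζ⁻¹) ^ 2)
  have hprod : ∏ ζ ∈ nthRootsFinset p (1 : K), E ζ = 0 := by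
    apply Polynomial.funext
    intro x
    rw [eval_prod, eval_zero, Finset.prod_eq_zero_iff]
    obtain ⟨u, u', hu, hua⟩ := exists_add_inv (A.eval x)
    obtain ⟨w, w', hw, hwb⟩ := exists_add_inv (B.eval x)
    have h1 := congrArg (eval x) h
    rw [eval_comp, eval_comp, ← hua, ← hwb, dickson_one_one_eval_add_inv _ _ hu,
      dickson_one_one_eval_add_inv _ _ hw] at h1
    have hu0 : u ≠ 0 := left_ne_zero_of_mul_eq_one hu
    have hw0 : w ≠ 0 := left_ne_zero_of_mul_eq_one hw
    have hw0' : w' ≠ 0 := right_ne_zero_of_mul_eq_one hw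
    have h2 : (u ^ p - w ^ p) * (u ^ p - w' ^ p) = 0 := by
      have h3 : u ^ p * u' ^ p = 1 := by rw [← mul_pow, hu, one_pow]
      have h4 : w ^ p * w' ^ p = 1 := by rw [← mul_pow, hw, one_pow]
      linear_combination u ^ p * h1 - h3 + h4
    -- the key computation
    have key : ∀ a b : K, a * b = 1 → a + b = B.eval x → a ≠ 0 → u ^ p = a ^ p →
        ∃ ζ ∈ nthRootsFinset p (1 : K), (E ζ).eval x = 0 := by
      intro a b hab habx ha0 hup
      have hb : b = a⁻¹ := eq_inv_of_mul_eq_one_right hab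
      have hu' : u' = u⁻¹ := eq_inv_of_mul_eq_one_right hu
      refine ⟨u / a, ?_, ?_⟩
      · rw [mem_nthRootsFinset (Nat.pos_of_ne_zero hp), div_pow, hup, div_self (pow_ne_zero _ ha0)]
      · simp only [E, eval_add, eval_mul, eval_sub, eval_C]
        rw [← hua, ← habx, hb, hu']
        field_simp
        ring
    rcases mul_eq_zero.1 h2 with h3 | h3
    · exact key w w' hw hwb hw0 (sub_eq_zero.1 h3)
    · exact key w' w (by rw [mul_comm]; exact hw) (by rw [add_comm]; exact hwb) hw0' (sub_eq_zero.1 h3)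
  obtain ⟨ζ, hζ, hE⟩ := Finset.prod_eq_zero_iff.1 hprod
  have hζ0 : ζ ≠ 0 := by
    rintro rfl
    rw [mem_nthRootsFinset (Nat.pos_of_ne_zero hp), zero_pow hp] at hζ
    exact zero_ne_one hζ
  by_cases hz : ζ = ζ⁻¹
  · have h1 : A = C ζ * B := by
      have h2 : (A - C ζ * B) ^ 2 = 0 := by
        have h3 : (A - C ζ * B) * (A - C ζ⁻¹ * B) + C ((ζ - ζ⁻¹) ^ 2) = 0 := hE
        rw [← hz, sub_self] at h3
        simpa [sq] using h3
      exact sub_eq_zero.1 (pow_eq_zero_iff (two_ne_zero) |>.1 h2)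
    have h2 : ζ ^ 2 = 1 := by
      rw [sq]
      nth_rewrite 2 [hz]
      exact mul_inv_cancel₀ hζ0
    rw [h1, mul_pow, ← C_pow, h2, C_1, one_mul]
  · exfalso
    have h3 : (A - C ζ * B) * (A - C ζ⁻¹ * B) = C (-(ζ - ζ⁻¹) ^ 2) := by
      have h4 : (A - C ζ * B) * (A - C ζ⁻¹ * B) + C ((ζ - ζ⁻¹) ^ 2) = 0 := hE
      rw [C_neg]
      exact eq_neg_of_add_eq_zero_left h4
    have hne : -(ζ - ζ⁻¹) ^ 2 ≠ 0 := neg_ne_zero.2 (pow_ne_zero _ (sub_ne_zero.2 hz))
    have hun : IsUnit ((A - C ζ * B) * (A - C ζ⁻¹ * B)) := by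
      rw [h3]
      exact isUnit_C.2 (isUnit_iff_ne_zero.2 hne)
    obtain ⟨a, -, ha⟩ := Polynomial.isUnit_iff.1 (isUnit_of_mul_isUnit_left hun)
    obtain ⟨b, -, hb⟩ := Polynomial.isUnit_iff.1 (isUnit_of_mul_isUnit_right hun)
    have h5 : C (ζ⁻¹ - ζ) * B = C (a - b) := by
      rw [C_sub, C_sub]
      linear_combination hb - ha
    have h6 := congrArg natDegree h5
    rw [natDegree_C, natDegree_C_mul (sub_ne_zero.2 (Ne.symm hz))] at h6
    exact hB h6

omit [IsAlgClosed K] in
lemma rootMult_sq {F : K[X]} (hF : F ≠ 0) (v : K) : rootMultiplicity v (F ^ 2) = 2 * rootMultiplicity v F := by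
  rw [sq, rootMultiplicity_mul (mul_ne_zero hF hF), two_mul]

end dick

section setup

variable {κ : Type} [Field κ] [IsAlgClosed κ] {O : ValuationSubring κ} (f' : PowerSeries ℂ →+* O)

/-- the map on the constants -/
noncomputable def phi' : ℂ →+* IsLocalRing.ResidueField O :=
  (IsLocalRing.residue O).comp (f'.comp PowerSeries.C)

omit [IsAlgClosed κ] in
lemma residue_eq (hr : ∀ x, IsLocalRing.residue O (f' x) = 0 ↔ PowerSeries.constantCoeff x = 0)
    (a : PowerSeries ℂ) : IsLocalRing.residue O (f' a) = phi' f' (PowerSeries.constantCoeff a) := by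
  have h : IsLocalRing.residue O (f' (a - PowerSeries.C (PowerSeries.constantCoeff a))) = 0 := by
    rw [hr]
    simp
  rw [map_sub, map_sub, sub_eq_zero] at h
  exact h

omit [IsAlgClosed κ] in
lemma map_residue (hr : ∀ x, IsLocalRing.residue O (f' x) = 0 ↔ PowerSeries.constantCoeff x = 0)
    (R : (PowerSeries ℂ)[X]) : (R.map f').map (IsLocalRing.residue O) =
      (R.map PowerSeries.constantCoeff).map (phi' f') := by
  rw [Polynomial.map_map, Polynomial.map_map]
  congr 1
  ext a
  exact residue_eq f' hr a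

omit [IsAlgClosed κ] in
lemma map_sub_eq {φ : PowerSeries ℂ →+* κ} (hf : ∀ x, (f' x : κ) = φ x) (R : (PowerSeries ℂ)[X]) :
    (R.map f').map O.subtype = R.map φ := by
  rw [Polynomial.map_map]
  congr 1
  ext a
  exact hf a

omit [IsAlgClosed κ] in
lemma inj_map : Function.Injective (fun f : O[X] => f.map O.subtype) :=
  Polynomial.map_injective _ Subtype.val_injective

lemma Q_decomp (Q : (PowerSeries ℂ)[X]) : ∃ Q' : (PowerSeries ℂ)[X],
    Q = (Q.map PowerSeries.constantCoeff).map PowerSeries.C + C PowerSeries.X * Q' := by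
  have h : C PowerSeries.X ∣ Q - (Q.map PowerSeries.constantCoeff).map PowerSeries.C := by
    rw [C_dvd_iff_dvd_coeff]
    intro i
    rw [PowerSeries.X_dvd_iff]
    simp
  obtain ⟨Q', hQ'⟩ := h
  exact ⟨Q', by rw [← hQ']; ring⟩

/-- simple roots -/
lemma sep {p s : ℕ} (hp : p.Prime) (hs : s ≠ 0) {D Q B : (PowerSeries ℂ)[X]} (h : PS (p ^ s) D Q B)
    {φ : PowerSeries ℂ →+* κ} (hφ : Function.Injective φ)
    (hf : ∀ x, (f' x : κ) = φ x)
    (hr : ∀ x, IsLocalRing.residue O (f' x) = 0 ↔ PowerSeries.constantCoeff x = 0) :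
    (Q.map φ).Separable := by
  have h2 : 2 ≤ p ^ s := le_trans hp.two_le (Nat.le_self_pow hs p)
  have hcc := cc_sq h2
  have hchar : CharZero (IsLocalRing.ResidueField O) :=
    charZero_of_injective_ringHom (f := phi' f') (RingHom.injective _)
  refine (isCoprime_iff_aeval_ne_zero_of_isAlgClosed (k := κ) κ _ _).2 ?_
  intro v
  by_contra hcon
  push Not at hcon
  obtain ⟨hv, hv'⟩ := hcon
  rw [← map_sub_eq f' hf, coe_aeval_eq_eval] at hv
  rw [← map_sub_eq f' hf, coe_aeval_eq_eval, derivative_map] at hv'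
  obtain ⟨y, rfl, hy⟩ := root_mem O (h.Q_monic.map f') hv
  have hy' : (derivative (Q.map f')).eval y = 0 := by
    have h1 : O.subtype ((derivative (Q.map f')).eval y) = 0 := by
      rw [← eval_map_apply]
      exact hv'
    exact Subtype.ext h1
  set c' := phi' f' (cc (p ^ s)) with hc'
  have hc4 : c' ^ 2 ≠ 4 := by
    intro h4
    apply hcc
    apply (phi' f').injective
    rw [map_pow, map_ofNat]
    exact h4
  have hres : (Q.map f').map (IsLocalRing.residue O) = (X ^ 2 - 4) * (X - C c') ^ 2 := by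
    rw [map_residue f' hr, h.Q_zero]
    simp [hc']
  have hw : IsLocalRing.residue O y = c' := by
    have e1 : ((Q.map f').map (IsLocalRing.residue O)).eval (IsLocalRing.residue O y) = 0 := by
      rw [eval_map_apply, hy, map_zero]
    have e2 : (derivative ((Q.map f').map (IsLocalRing.residue O))).eval (IsLocalRing.residue O y) = 0 := by
      rw [derivative_map, eval_map_apply, hy', map_zero]
    rw [hres] at e1 e2
    set w := IsLocalRing.residue O y with hwdef
    simp only [eval_mul, eval_sub, eval_pow, eval_X, eval_C, eval_ofNat] at e1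
    have e3 : 2 * w * (w - c') ^ 2 + (w ^ 2 - 4) * (2 * (w - c')) = 0 := by
      simpa [derivative_mul, derivative_pow] using e2
    by_contra hne
    have hne' : w - c' ≠ 0 := sub_ne_zero.2 hne
    have e4 : w ^ 2 - 4 = 0 := by
      rcases mul_eq_zero.1 e1 with h1 | h1
      · exact h1
      · exact absurd h1 (pow_ne_zero _ hne')
    rw [e4, zero_mul, add_zero] at e3
    have e5 : w = 0 := by
      rcases mul_eq_zero.1 e3 with h1 | h1
      · rcases mul_eq_zero.1 h1 with h2 | h2
        · exact absurd h2 two_ne_zero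
        · exact h2
      · exact absurd h1 (pow_ne_zero _ hne')
    rw [e5] at e4
    norm_num at e4
  obtain ⟨Q', hQ'⟩ := Q_decomp Q
  have hq1 : (Q'.map PowerSeries.constantCoeff).eval (cc (p ^ s)) ≠ 0 := by
    have h1 := h.Q_one (cc (p ^ s)) (Or.inr (Or.inr rfl))
    have h2 : Q.eval (PowerSeries.C (cc (p ^ s))) =
        PowerSeries.C ((Q.map PowerSeries.constantCoeff).eval (cc (p ^ s))) +
          PowerSeries.X * Q'.eval (PowerSeries.C (cc (p ^ s))) := by
      nth_rewrite 1 [hQ']
      rw [eval_add, eval_mul, eval_C, eval_map_apply]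
    rw [h2, map_add, PowerSeries.coeff_C, if_neg one_ne_zero, zero_add] at h1
    have h3 : PowerSeries.coeff 1 (PowerSeries.X * Q'.eval (PowerSeries.C (cc (p ^ s)))) =
        PowerSeries.constantCoeff (Q'.eval (PowerSeries.C (cc (p ^ s)))) := by
      rw [show (1 : ℕ) = 0 + 1 from rfl, PowerSeries.coeff_succ_X_mul,
        PowerSeries.coeff_zero_eq_constantCoeff_apply]
    rw [h3] at h1
    have h4 : (Q'.map PowerSeries.constantCoeff).eval (cc (p ^ s)) =
        PowerSeries.constantCoeff (Q'.eval (PowerSeries.C (cc (p ^ s)))) := by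
      have h5 := eval_map_apply (p := Q') (f := (PowerSeries.constantCoeff : PowerSeries ℂ →+* ℂ))
        (PowerSeries.C (cc (p ^ s)))
      rw [← h5, PowerSeries.constantCoeff_C]
    rw [h4]
    exact h1
  -- the equation at `y`
  set ĉ : O := f' (PowerSeries.C (cc (p ^ s))) with hĉ
  have hfQ : Q.map f' = (X ^ 2 - 4) * (X - C ĉ) ^ 2 + C (f' PowerSeries.X) * Q'.map f' := by
    nth_rewrite 1 [hQ']
    rw [h.Q_zero]
    simp [hĉ]
  set ε : O := f' PowerSeries.X with hε
  have hε0 : ε ≠ 0 := by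
    intro h0
    have h1 : φ PowerSeries.X = 0 := by
      rw [← hf, ← hε, h0]
      rfl
    exact PowerSeries.X_ne_zero (hφ (by rw [h1, map_zero]))
  set q : O := (Q'.map f').eval y with hq
  set q' : O := (derivative (Q'.map f')).eval y with hq'
  have hρq : IsLocalRing.residue O q ≠ 0 := by
    have h1 : IsLocalRing.residue O q = phi' f' ((Q'.map PowerSeries.constantCoeff).eval (cc (p ^ s))) := by
      rw [hq, ← eval_map_apply, map_residue f' hr, hw, hc', eval_map_apply]
    rw [h1]
    exact (_root_.map_ne_zero _).2 hq1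
  have E1 : (y ^ 2 - 4) * (y - ĉ) ^ 2 + ε * q = 0 := by
    rw [hfQ] at hy
    simpa [hq] using hy
  have E2 : 2 * y * (y - ĉ) ^ 2 + (y ^ 2 - 4) * (2 * (y - ĉ)) + ε * q' = 0 := by
    rw [hfQ] at hy'
    simpa [derivative_mul, derivative_pow, hq'] using hy'
  set u : O := 2 * y * (y - ĉ) + 2 * (y ^ 2 - 4) with hu
  have E3 : ε * (q * u ^ 2 + (y ^ 2 - 4) * ε * q' ^ 2) = 0 := by
    have h1 : (y - ĉ) * u = - (ε * q') := by
      rw [hu]
      linear_combination E2
    have h2 : ε * q = - ((y ^ 2 - 4) * (y - ĉ) ^ 2) := by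
      linear_combination E1
    calc ε * (q * u ^ 2 + (y ^ 2 - 4) * ε * q' ^ 2) =
        (ε * q) * u ^ 2 + (y ^ 2 - 4) * (ε * q') ^ 2 := by ring
      _ = - (y ^ 2 - 4) * ((y - ĉ) * u) ^ 2 + (y ^ 2 - 4) * (ε * q') ^ 2 := by rw [h2]; ring
      _ = 0 := by rw [h1]; ring
  have E4 : q * u ^ 2 + (y ^ 2 - 4) * ε * q' ^ 2 = 0 := by
    rcases mul_eq_zero.1 E3 with h1 | h1
    · exact absurd h1 hε0
    · exact h1
  have hρε : IsLocalRing.residue O ε = 0 := by
    rw [hε, hr]
    exact PowerSeries.constantCoeff_X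
  have hρĉ : IsLocalRing.residue O ĉ = c' := rfl
  have hρu : IsLocalRing.residue O u ≠ 0 := by
    rw [hu]
    simp only [map_add, map_mul, map_sub, map_pow, map_ofNat, hw, hρĉ, sub_self, mul_zero, zero_add]
    exact mul_ne_zero two_ne_zero (sub_ne_zero.2 hc4)
  have E5 := congrArg (IsLocalRing.residue O) E4
  simp only [map_add, map_mul, map_sub, map_pow, hρε, mul_zero, zero_mul, add_zero, map_zero] at E5
  rcases mul_eq_zero.1 E5 with h1 | h1
  · exact hρq h1
  · exact hρu (pow_eq_zero_iff two_ne_zero |>.1 h1)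

end setup

end S2aux

open S2aux in
theorem nondeg_one {p s : ℕ} (hp : p.Prime) (hs : s ≠ 0) {D Q B : (PowerSeries ℂ)[X]} (h : PS (p ^ s) D Q B)
    {κ : Type} [Field κ] [IsAlgClosed κ] (φ : PowerSeries ℂ →+* κ) (hφ : Function.Injective φ) :
    Squarefree (Q.map φ) ∧ (∀ G : κ[X], (dickson 1 1 p).comp G ≠ D.map φ) ∧
      (p = 2 → ∀ G : κ[X], D.map φ - 2 ≠ G ^ 2) := by
  have h2 : 2 ≤ p ^ s := le_trans hp.two_le (Nat.le_self_pow hs p)
  have hps : p ^ s = p * p ^ (s - 1) := by
    rw [← pow_succ', Nat.sub_add_cancel (Nat.one_le_iff_ne_zero.2 hs)]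
  have hm1 : 1 ≤ p ^ (s - 1) := Nat.one_le_iff_ne_zero.2 (pow_ne_zero _ hp.ne_zero)
  obtain ⟨O, f', hf, hr, hac⟩ := exists_place_hom φ (PowerSeries.constantCoeff : PowerSeries ℂ →+* ℂ)
    (by
      intro a ha
      rw [RingHom.mem_ker] at ha ⊢
      rw [hφ (by rw [ha, map_zero] : φ a = φ 0), map_zero])
  have hcharO : CharZero (IsLocalRing.ResidueField O) :=
    charZero_of_injective_ringHom (f := phi' f') (RingHom.injective _)
  have hcharκ : CharZero κ :=
    charZero_of_injective_ringHom (f := φ.comp PowerSeries.C) (RingHom.injective _)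
  have hsep := sep f' hp hs h hφ hf hr
  have hDm : (D.map φ).Monic := h.D_monic.map φ
  have hDd : (D.map φ).natDegree = p ^ s := by
    rw [h.D_monic.natDegree_map, h.D_deg]
  have hDl : D.map φ ∈ Polynomial.lifts O.subtype := by
    rw [Polynomial.mem_lifts]
    exact ⟨D.map f', map_sub_eq f' hf D⟩
  have hDr : (D.map f').map (IsLocalRing.residue O) = dickson 1 1 (p ^ s) := by
    rw [map_residue f' hr, h.D_zero, map_dickson, map_one]
  refine ⟨hsep.squarefree, ?_, ?_⟩
  · intro G hG
    -- the Dickson polynomial of `p` over `κ`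
    have hTm : (dickson 1 (1 : κ) p).Monic ∧ (dickson 1 (1 : κ) p).natDegree = p := by
      obtain ⟨t1, t2⟩ := dickson_monic (δ := p) hp.one_le
      have t3 := map_dickson (k := 1) (a := (1 : ℂ)) (φ.comp PowerSeries.C) p
      rw [map_one] at t3
      rw [← t3]
      exact ⟨t1.map _, by rw [t1.natDegree_map, t2]⟩
    have hTl : dickson 1 (1 : κ) p ∈ Polynomial.lifts O.subtype := by
      rw [Polynomial.mem_lifts]
      exact ⟨dickson 1 1 p, by rw [map_dickson, map_one]⟩
    obtain ⟨G', hG'⟩ := gauss_comp O (P := dickson 1 (1 : κ) p) (G := G) hTm.1 hTl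
      (by rw [hTm.2]; exact hp.ne_zero) (by rw [hG]; exact hDm) (by rw [hG]; exact hDl)
      (by rw [hG, hDd]; omega)
    have hcomp : (dickson 1 (1 : O) p).comp G' = D.map f' := by
      apply inj_map (O := O)
      show ((dickson 1 (1 : O) p).comp G').map O.subtype = (D.map f').map O.subtype
      rw [Polynomial.map_comp, map_dickson, map_one, hG', hG, map_sub_eq f' hf]
    have hred : (dickson 1 1 p).comp (G'.map (IsLocalRing.residue O)) =
        (dickson 1 1 p).comp (dickson 1 1 (p ^ (s - 1))) := by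
      rw [← dickson_one_one_mul, ← hps, ← hDr, ← hcomp, Polynomial.map_comp, map_dickson, map_one]
    have hT' : (dickson 1 (1 : ℂ) (p ^ (s - 1))).map (phi' f') = dickson 1 1 (p ^ (s - 1)) := by
      rw [map_dickson, map_one]
    have hsq := dickson_inj hp.ne_zero hred (by
      obtain ⟨t1, t2⟩ := dickson_monic (δ := p ^ (s - 1)) hm1
      rw [← hT', t1.natDegree_map, t2]
      omega)
    set c' := phi' f' (cc (p ^ s)) with hc'
    have hGc : (G'.map (IsLocalRing.residue O)).eval c' ^ 2 ≠ 4 := by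
      have e1 := congrArg (eval c') hsq
      rw [eval_pow, eval_pow, ← hT', hc', eval_map_apply] at e1
      rw [← hc'] at e1
      rw [e1]
      intro e2
      apply dickson_cc (δ := p ^ s) hp (dvd_pow_self p hs) (pow_ne_zero _ hp.ne_zero)
      have e3 : p ^ s / p = p ^ (s - 1) := by
        rw [hps]
        exact Nat.mul_div_cancel_left _ hp.pos
      rw [e3]
      apply (phi' f').injective
      rw [map_pow, map_ofNat]
      exact e2
    obtain ⟨y, hy, hyc⟩ := root_lift O _ (Q.map f') (h.Q_monic.map f') rfl c' (by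
      rw [map_residue f' hr, h.Q_zero]
      simp [hc'])
    have hGy : G.eval (y : κ) ^ 2 ≠ 4 := by
      intro e1
      apply hGc
      have e2 : G'.eval y ^ 2 = 4 := by
        apply Subtype.ext
        have e3 : O.subtype (G'.eval y) = G.eval (y : κ) := by
          rw [← hG']
          exact (eval_map_apply (p := G') (f := O.subtype) y).symm
        show O.subtype (G'.eval y ^ 2) = 4
        rw [map_pow, e3]
        exact e1
      rw [← hyc, eval_map_apply, ← map_pow, e2, map_ofNat]
    have hQy : (Q.map φ).eval (y : κ) = 0 := by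
      rw [← map_sub_eq f' hf]
      have e3 := eval_map_apply (p := Q.map f') (f := O.subtype) y
      rw [hy, map_zero] at e3
      exact e3
    -- multiplicities
    have hQ0 : Q.map φ ≠ 0 := (h.Q_monic.map φ).ne_zero
    have hB0 : B.map φ ≠ 0 := (h.B_monic.map φ).ne_zero
    have hrQ : rootMultiplicity (y : κ) (Q.map φ) = 1 := by
      have e1 := rootMultiplicity_le_one_of_separable hsep (y : κ)
      have e2 := (rootMultiplicity_pos hQ0).2 hQy
      omega
    have hodd : rootMultiplicity (y : κ) ((D.map φ) ^ 2 - 4) = 1 + 2 * rootMultiplicity (y : κ) (B.map φ) := by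
      have e1 := congrArg (Polynomial.map φ) h.eq
      rw [Polynomial.map_sub, Polynomial.map_pow, Polynomial.map_mul, Polynomial.map_pow,
        Polynomial.map_ofNat] at e1
      rw [e1, rootMultiplicity_mul (mul_ne_zero hQ0 (pow_ne_zero _ hB0)), hrQ, rootMult_sq hB0]
    obtain ⟨B₀, hB₀m, -, hB₀, -⟩ := dickson_base hp.two_le
    set S : κ[X] := ((X - C (cc p)) * B₀).map (φ.comp PowerSeries.C) with hS
    have hT2 : (dickson 1 (1 : κ) p) ^ 2 - 4 = (X ^ 2 - 4) * S ^ 2 := by
      have e1 := congrArg (Polynomial.map (φ.comp PowerSeries.C)) hB₀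
      rw [Polynomial.map_sub, Polynomial.map_pow, map_dickson, map_one, Polynomial.map_ofNat] at e1
      rw [e1, hS]
      simp only [Polynomial.map_mul, Polynomial.map_pow, Polynomial.map_sub, Polynomial.map_X,
        Polynomial.map_C, Polynomial.map_ofNat]
      ring
    have hD2 : (D.map φ) ^ 2 - 4 = (G ^ 2 - 4) * (S.comp G) ^ 2 := by
      have e1 := congrArg (fun q : κ[X] => q.comp G) hT2
      simp only [sub_comp, mul_comp, pow_comp, X_comp, ofNat_comp] at e1
      rw [hG] at e1
      exact e1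
    have hne : (D.map φ) ^ 2 - 4 ≠ 0 := by
      have e1 := congrArg (Polynomial.map φ) h.eq
      rw [Polynomial.map_sub, Polynomial.map_pow, Polynomial.map_mul, Polynomial.map_pow,
        Polynomial.map_ofNat] at e1
      rw [e1]
      exact mul_ne_zero hQ0 (pow_ne_zero _ hB0)
    have heven : rootMultiplicity (y : κ) ((D.map φ) ^ 2 - 4) = 2 * rootMultiplicity (y : κ) (S.comp G) := by
      rw [hD2] at hne ⊢
      have e1 : S.comp G ≠ 0 := by
        intro e2
        rw [e2] at hne
        simp at hne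
      rw [rootMultiplicity_mul hne, rootMult_sq e1, rootMultiplicity_eq_zero, zero_add]
      intro e2
      apply hGy
      rw [IsRoot, eval_sub, eval_pow, eval_ofNat, sub_eq_zero] at e2
      exact e2
    omega
  · rintro rfl G hG
    have hP : (X ^ 2 + C 2 : κ[X]).Monic := monic_X_pow_add_C 2 two_ne_zero
    have hPd : (X ^ 2 + C 2 : κ[X]).natDegree = 2 := natDegree_X_pow_add_C
    have hPG : (X ^ 2 + C 2 : κ[X]).comp G = D.map φ := by
      simp only [add_comp, pow_comp, X_comp, C_comp]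
      rw [← hG]
      have e1 : (C 2 : κ[X]) = 2 := rfl
      rw [e1, sub_add_cancel]
    obtain ⟨G', hG'⟩ := gauss_comp O (P := X ^ 2 + C 2) (G := G) hP
      (by
        rw [Polynomial.mem_lifts]
        exact ⟨X ^ 2 + C 2, by simp; rfl⟩)
      (by rw [hPd]; norm_num) (by rw [hPG]; exact hDm) (by rw [hPG]; exact hDl)
      (by rw [hPG, hDd]; omega)
    have hcomp : D.map f' - 2 = G' ^ 2 := by
      apply inj_map (O := O)
      show (D.map f' - 2).map O.subtype = (G' ^ 2).map O.subtype
      rw [Polynomial.map_sub, Polynomial.map_pow, hG', map_sub_eq f' hf, Polynomial.map_ofNat]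
      exact hG
    obtain ⟨A, hA0, hA⟩ := dickson_two (m := 2 ^ (s - 1)) hm1
    rw [← hps] at hA
    have hA' := congrArg (Polynomial.map (phi' f')) hA
    have hG2 := congrArg (Polynomial.map (IsLocalRing.residue O)) hcomp
    rw [Polynomial.map_sub, hDr, Polynomial.map_ofNat, Polynomial.map_pow] at hG2
    rw [Polynomial.map_sub, map_dickson, map_one, Polynomial.map_ofNat, hG2] at hA'
    simp only [Polynomial.map_mul, Polynomial.map_pow, Polynomial.map_sub, Polynomial.map_X,
      Polynomial.map_ofNat] at hA'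
    set H := G'.map (IsLocalRing.residue O) with hH
    set A' := A.map (phi' f') with hA'def
    have hA'0 : A' ≠ 0 := (Polynomial.map_ne_zero_iff (phi' f').injective).2 hA0
    have hX : (X ^ 2 - 4 : (IsLocalRing.ResidueField O)[X]) = (X - C 2) * (X - C (-2)) := by
      have e1 : (C 2 : (IsLocalRing.ResidueField O)[X]) = 2 := rfl
      rw [C_neg, e1]
      ring
    have hX0 : (X - C 2 : (IsLocalRing.ResidueField O)[X]) ≠ 0 := X_sub_C_ne_zero 2
    have hX0' : (X - C (-2) : (IsLocalRing.ResidueField O)[X]) ≠ 0 := X_sub_C_ne_zero (-2)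
    have hH0 : H ≠ 0 := by
      intro e1
      rw [e1, hX] at hA'
      have e2 := mul_ne_zero (mul_ne_zero hX0 hX0') (pow_ne_zero 2 hA'0)
      rw [← hA'] at e2
      simp at e2
    have e1 : rootMultiplicity 2 (H ^ 2) = 2 * rootMultiplicity 2 H := rootMult_sq hH0 2
    rw [hA', hX, rootMultiplicity_mul (mul_ne_zero (mul_ne_zero hX0 hX0') (pow_ne_zero 2 hA'0)),
      rootMultiplicity_mul (mul_ne_zero hX0 hX0'), rootMult_sq hA'0, rootMultiplicity_X_sub_C_self,
      rootMultiplicity_eq_zero (p := X - C (-2))] at e1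
    · omega
    · intro e2
      rw [IsRoot, eval_sub, eval_X, eval_C] at e2
      norm_num at e2

open S2aux in
theorem coprime_two {Q₁ Q₂ : (PowerSeries ℂ)[X]} (hm1 : Q₁.Monic) (hm2 : Q₂.Monic)
    (h1 : ∀ v : ℂ, Q₁.eval (PowerSeries.C v) ≠ 0)
    {P κ F : Type} [CommRing P] [Field κ] [IsAlgClosed κ] [CommRing F] [IsDomain F]
    (e₁ e₂ : PowerSeries ℂ →+* P) (f : P →+* κ) (g : P →+* F) (hfg : RingHom.ker f ≤ RingHom.ker g)
    (hg1 : Function.Injective (g.comp e₁))
    (hg2 : ∀ a, g (e₂ a) = g (e₂ (PowerSeries.C (PowerSeries.constantCoeff a))))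
    (hC : ∀ z : ℂ, e₁ (PowerSeries.C z) = e₂ (PowerSeries.C z)) :
    IsCoprime (Q₁.map (f.comp e₁)) (Q₂.map (f.comp e₂)) := by
  obtain ⟨O, f', hf, hr, hac⟩ := exists_place_hom f g hfg
  refine (isCoprime_iff_aeval_ne_zero_of_isAlgClosed (k := κ) κ _ _).2 ?_
  intro v
  by_contra hcon
  push Not at hcon
  obtain ⟨hv1, hv2⟩ := hcon
  rw [coe_aeval_eq_eval] at hv1 hv2
  have hmap : ∀ (e : PowerSeries ℂ →+* P) (Q : (PowerSeries ℂ)[X]),
      (Q.map (f'.comp e)).map O.subtype = Q.map (f.comp e) := by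
    intro e Q
    rw [Polynomial.map_map]
    congr 1
    ext a
    exact hf (e a)
  rw [← hmap] at hv1 hv2
  obtain ⟨y, rfl, hy2⟩ := root_mem O (hm2.map (f'.comp e₂)) hv2
  have hy1 : (Q₁.map (f'.comp e₁)).eval y = 0 := by
    have e1 := eval_map_apply (p := Q₁.map (f'.comp e₁)) (f := O.subtype) y
    apply Subtype.ext
    exact e1.symm.trans hv1
  -- the residue
  let ψ : ℂ →+* IsLocalRing.ResidueField O :=
    (IsLocalRing.residue O).comp (f'.comp (e₂.comp PowerSeries.C))
  have hψ : ∀ a, IsLocalRing.residue O (f' (e₂ a)) = ψ (PowerSeries.constantCoeff a) := by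
    intro a
    have e1 : IsLocalRing.residue O (f' (e₂ a - e₂ (PowerSeries.C (PowerSeries.constantCoeff a)))) = 0 := by
      rw [hr, map_sub, ← hg2, sub_self]
    rw [map_sub, map_sub, sub_eq_zero] at e1
    exact e1
  have hred : (Q₂.map (f'.comp e₂)).map (IsLocalRing.residue O) =
      (Q₂.map PowerSeries.constantCoeff).map ψ := by
    rw [Polynomial.map_map, Polynomial.map_map]
    congr 1
    ext a
    exact hψ a
  have hroot : ((Q₂.map PowerSeries.constantCoeff).map ψ).IsRoot (IsLocalRing.residue O y) := by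
    rw [IsRoot, ← hred, eval_map_apply, hy2, map_zero]
  have hQ2 : (Q₂.map PowerSeries.constantCoeff : ℂ[X]) ≠ 0 := (hm2.map _).ne_zero
  obtain ⟨v₀, hv₀⟩ : IsLocalRing.residue O y ∈ ψ.range :=
    (IsAlgClosed.splits (Q₂.map PowerSeries.constantCoeff)).mem_range_of_isRoot hQ2 hroot
  apply h1 v₀
  apply hg1
  rw [map_zero]
  show g (e₁ (Q₁.eval (PowerSeries.C v₀))) = 0
  rw [← hr]
  have e1 : IsLocalRing.residue O (f' (e₁ (Q₁.eval (PowerSeries.C v₀)))) =
      ((Q₁.map (f'.comp e₁)).map (IsLocalRing.residue O)).eval (ψ v₀) := by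
    have e2 : ψ v₀ = ((IsLocalRing.residue O).comp (f'.comp e₁)) (PowerSeries.C v₀) := by
      show IsLocalRing.residue O (f' (e₂ (PowerSeries.C v₀))) = IsLocalRing.residue O (f' (e₁ (PowerSeries.C v₀)))
      rw [hC]
    rw [Polynomial.map_map, e2, eval_map_apply]
    rfl
  rw [e1, hv₀, eval_map_apply, hy1, map_zero]

end Pool.Agent.H861.CE
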