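import Mathlib

/-!
Project CE (helper861), MP_8dbee4_ag, part S3: a toolbox on power series in several variables; only Mathlib is needed.

Take `P = MvPowerSeries X ℂ` (`X` finite). It is a domain (Mathlib has `NoZeroDivisors` for `MvPowerSeries` over a domain; if not for this version, prove it e.g. through the lowest homogeneous part or by induction). `e x` : the ring hom `ℂ⟦T⟧ → P`, `T ↦ X_x`: the coefficient of `e x a` at `m : X →₀ ℕ` is `coeff k a` if `m = single x k`, else `0` (or use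
`PowerSeries.subst`). `g S` : kills the variables in `S`: `coeff m (g S f) = coeff m f` if `m.support` is disjoint from `S`, else `0`; this is a ring hom `P → P` (if `m` avoids `S` and `m = m₁ + m₂` then `m₁`, `m₂` avoid `S`). Cardinality: `P` is the set of functions from the countable set `X →₀ ℕ` to `ℂ`: `𝔠 ^ ℵ₀ = 𝔠`.
The field: the algebraic closure `K` of `Frac P` has cardinality `≤ max(𝔠, ℵ₀) = 𝔠` and contains `ℂ` so `#K = 𝔠`, char 0; `K ≃+* ℂ` by `IsAlgClosed.ringEquivOfCardinalEqOfCharZero`.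
-/

set_option autoImplicit false

open Polynomial

namespace Pool.Agent.H861.CE

namespace S3aux

open MvPowerSeries Finsupp

variable {X : Type}

/-- the embedding of a point -/
def eu (x : X) : Unit ↪ X := ⟨fun _ => x, fun _ _ _ => rfl⟩

/-- power series in the variable `x` -/
noncomputable def e (x : X) : PowerSeries ℂ →+* MvPowerSeries X ℂ :=
  ((rename (R := ℂ) (eu x) : MvPowerSeries Unit ℂ →ₐ[ℂ] MvPowerSeries X ℂ) :
    MvPowerSeries Unit ℂ →+* MvPowerSeries X ℂ)

/-- the embedding of the complement -/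
def es (S : Set X) : {y : X // y ∉ S} ↪ X := Function.Embedding.subtype _

/-- killing the variables in `S` -/
noncomputable def g (S : Set X) : MvPowerSeries X ℂ →+* MvPowerSeries X ℂ :=
  (((rename (R := ℂ) (es S)).comp (killCompl (es S)) : MvPowerSeries X ℂ →ₐ[ℂ] MvPowerSeries X ℂ) :
    MvPowerSeries X ℂ →+* MvPowerSeries X ℂ)

instance : IsDomain (MvPowerSeries X ℂ) := NoZeroDivisors.to_isDomain _

lemma e_injective (x : X) : Function.Injective (e x) := rename_injective (eu x)

lemma e_C (x : X) (z : ℂ) : e x (PowerSeries.C z) = MvPowerSeries.C z := rename_C (eu x) z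

lemma e_zero (x : X) (a : PowerSeries ℂ) {m : X →₀ ℕ} {y : X} (hy : y ≠ x) (hm : m y ≠ 0) :
    coeff m (e x a) = 0 := by
  refine coeff_rename_eq_zero (eu x) a ?_
  rintro ⟨m', rfl⟩
  apply hm
  apply Finsupp.mapDomain_of_notMem_range
  rintro ⟨u, hu⟩
  exact hy hu.symm

lemma g_zero (S : Set X) (a : MvPowerSeries X ℂ) {m : X →₀ ℕ} {y : X} (hy : y ∈ S)
    (hm : m y ≠ 0) : coeff m (g S a) = 0 := by
  refine coeff_rename_eq_zero (es S) (killCompl (es S) a) ?_
  rintro ⟨m', rfl⟩
  apply hm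
  apply Finsupp.mapDomain_of_notMem_range
  rintro ⟨u, hu⟩
  have hu' : (u : X) = y := hu
  exact u.2 (hu'.symm ▸ hy)

lemma g_coeff (S : Set X) (a : MvPowerSeries X ℂ) {m : X →₀ ℕ} (hm : ∀ y ∈ S, m y = 0) :
    coeff m (g S a) = coeff m a := by
  have h1 : (m.support : Set X) ⊆ Set.range (es S) := by
    intro y hy
    have hy' : m y ≠ 0 := by
      rw [Finset.mem_coe, Finsupp.mem_support_iff] at hy
      exact hy
    exact ⟨⟨y, fun h => hy' (hm y h)⟩, rfl⟩
  obtain ⟨m', hm'⟩ : ∃ m', embDomain (es S) m' = m := ⟨_, Finsupp.embDomain_comapDomain h1⟩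
  rw [← hm']
  change coeff (embDomain (es S) m') (rename (es S) (killCompl (es S) a)) = _
  rw [coeff_embDomain_rename, coeff_killCompl]

lemma g_e (S : Set X) (x : X) (a : PowerSeries ℂ) (hx : x ∉ S) : g S (e x a) = e x a := by
  ext m
  by_cases hm : ∀ y ∈ S, m y = 0
  · exact g_coeff S _ hm
  · push Not at hm
    obtain ⟨y, hy, hm⟩ := hm
    rw [g_zero S _ hy hm, e_zero x a (fun h => hx (h ▸ hy)) hm]

lemma g_e' (S : Set X) (x : X) (a : PowerSeries ℂ) (hx : x ∈ S) :
    g S (e x a) = e x (PowerSeries.C (PowerSeries.constantCoeff a)) := by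
  classical
  rw [e_C]
  ext m
  rw [MvPowerSeries.coeff_C]
  by_cases h0 : m = 0
  · subst h0
    rw [if_pos rfl, g_coeff S _ (fun _ _ => rfl), coeff_zero_eq_constantCoeff_apply]
    exact constantCoeff_rename (eu x) a
  · rw [if_neg h0]
    by_cases hm : ∀ y ∈ S, m y = 0
    · rw [g_coeff S _ hm]
      obtain ⟨y, hy⟩ := Finsupp.ne_iff.mp h0
      refine e_zero x a (y := y) (fun h => ?_) hy
      subst h
      exact hy (hm y hx)
    · push Not at hm
      obtain ⟨y, hy, hm⟩ := hm
      exact g_zero S _ hy hm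

lemma g_mono {S S' : Set X} (h : S ⊆ S') (a : MvPowerSeries X ℂ) (h0 : g S a = 0) :
    g S' a = 0 := by
  ext m
  rw [map_zero]
  by_cases hm : ∀ y ∈ S', m y = 0
  · rw [g_coeff S' _ hm, ← g_coeff S a (fun y hy => hm y (h hy)), h0, map_zero]
  · push Not at hm
    obtain ⟨y, hy, hm⟩ := hm
    exact g_zero S' _ hy hm

open Cardinal in
lemma exists_phi [Finite X] : ∃ φ : MvPowerSeries X ℂ →+* ℂ, Function.Injective φ := by
  let F := FractionRing (MvPowerSeries X ℂ)
  let K := AlgebraicClosure F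
  have h1 : #(MvPowerSeries X ℂ) ≤ 𝔠 := by
    have h2 : #(MvPowerSeries X ℂ) = #ℂ ^ #(X →₀ ℕ) := by
      change #((X →₀ ℕ) → ℂ) = _
      simp
    rw [h2, Cardinal.mk_complex]
    refine (Cardinal.power_le_power_left Cardinal.continuum_ne_zero Cardinal.mk_le_aleph0).trans ?_
    rw [Cardinal.continuum_power_aleph0]
  have h2 : #F ≤ 𝔠 := by
    refine le_trans ?_ h1
    exact IsLocalization.cardinalMk_le (nonZeroDivisors (MvPowerSeries X ℂ))
  have h3 : #K ≤ 𝔠 := by
    refine (Algebra.IsAlgebraic.cardinalMk_le_max F K).trans ?_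
    exact max_le h2 Cardinal.aleph0_le_continuum
  let i : MvPowerSeries X ℂ →+* K := (algebraMap F K).comp (algebraMap (MvPowerSeries X ℂ) F)
  have hi : Function.Injective i :=
    (algebraMap F K).injective.comp (IsFractionRing.injective (MvPowerSeries X ℂ) F)
  let j : ℂ →+* K := i.comp (MvPowerSeries.C : ℂ →+* MvPowerSeries X ℂ)
  have hj : Function.Injective j := j.injective
  have h4 : #K = 𝔠 := by
    apply le_antisymm h3
    rw [← Cardinal.mk_complex]
    exact Cardinal.mk_le_of_injective hj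
  have hch : CharZero K := charZero_of_injective_ringHom hj
  obtain ⟨ψ⟩ := IsAlgClosed.ringEquiv_of_equiv_of_charZero (K := K) (L := ℂ)
    (by rw [h4]; exact Cardinal.aleph0_lt_continuum)
    (Cardinal.eq.mp (by rw [h4, Cardinal.mk_complex]))
  exact ⟨(ψ : K →+* ℂ).comp i, ψ.injective.comp hi⟩

end S3aux

theorem exists_toolbox (X : Type) [Finite X] : ∃ (P : Type) (_ : CommRing P) (_ : IsDomain P)
    (e : X → PowerSeries ℂ →+* P) (g : Set X → P →+* P) (φ : P →+* ℂ),
    Function.Injective φ ∧ (∀ x, Function.Injective (e x)) ∧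
    (∀ (S : Set X) x a, x ∉ S → g S (e x a) = e x a) ∧
    (∀ (S : Set X) x a, x ∈ S → g S (e x a) = e x (PowerSeries.C (PowerSeries.constantCoeff a))) ∧
    (∀ x y (z : ℂ), e x (PowerSeries.C z) = e y (PowerSeries.C z)) ∧
    (∀ S S' : Set X, S ⊆ S' → ∀ a, g S a = 0 → g S' a = 0) := by
  obtain ⟨φ, hφ⟩ := S3aux.exists_phi (X := X)
  exact ⟨MvPowerSeries X ℂ, inferInstance, inferInstance, S3aux.e, S3aux.g, φ, hφ,
    S3aux.e_injective, S3aux.g_e, S3aux.g_e', fun x y z => by rw [S3aux.e_C, S3aux.e_C],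
    fun S S' h a h0 => S3aux.g_mono h a h0⟩

end Pool.Agent.H861.CE
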