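import Pool.Agent.H861.CE.Defs
import Pool.Agent.H861.CE.S1a
import Pool.Agent.H861.CE.S1b
import Pool.Agent.H861.CE.S2
import Pool.Agent.H861.CE.S3

set_option autoImplicit false

open Polynomial

namespace Pool.Agent.H861.CE

lemma coeff_one_eval (Q : (PowerSeries ℂ)[X]) (Q₁ : ℂ[X])
    (h : ∀ j, PowerSeries.coeff 1 (Q.coeff j) = Q₁.coeff j) (v : ℂ) :
    PowerSeries.coeff 1 (Q.eval (PowerSeries.C v)) = Q₁.eval v := by
  have hN : ∃ N, Q.natDegree < N ∧ Q₁.natDegree < N :=
    ⟨max Q.natDegree Q₁.natDegree + 1, by omega, by omega⟩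
  obtain ⟨N, h1, h2⟩ := hN
  rw [eval_eq_sum_range' h1, eval_eq_sum_range' h2, map_sum]
  refine Finset.sum_congr rfl fun j _ => ?_
  rw [← map_pow, PowerSeries.coeff_mul_C, h]

theorem exists_PS {δ : ℕ} (hδ : 2 ≤ δ) : ∃ D Q B : (PowerSeries ℂ)[X], PS δ D Q B := by
  obtain ⟨B₀, hB, hB', heq, hBD, hBQ⟩ := dickson_base hδ
  obtain ⟨hD, hD'⟩ := dickson_monic (δ := δ) (by omega)
  have h4 : ((X : ℂ[X]) ^ 2 - 4).Monic := by
    have : ((X : ℂ[X]) ^ 2 - 4) = X ^ 2 - C 4 := by rw [map_ofNat]
    rw [this]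
    exact monic_X_pow_sub_C _ (by norm_num)
  have h4' : ((X : ℂ[X]) ^ 2 - 4).natDegree = 2 := by
    have : ((X : ℂ[X]) ^ 2 - 4) = X ^ 2 - C 4 := by rw [map_ofNat]
    rw [this]
    exact natDegree_X_pow_sub_C
  have hQ : (((X : ℂ[X]) ^ 2 - 4) * (X - C (cc δ)) ^ 2).Monic := h4.mul ((monic_X_sub_C _).pow 2)
  have hQ' : (((X : ℂ[X]) ^ 2 - 4) * (X - C (cc δ)) ^ 2).natDegree = 4 := by
    rw [h4.natDegree_mul ((monic_X_sub_C _).pow 2), h4', (monic_X_sub_C _).natDegree_pow, natDegree_X_sub_C]
  obtain ⟨D, Q, B, a1, a2, a3, a4, a5, a6, a7, a8, a9, a10, Q₁, B₁, a11, a12⟩ :=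
    pell_deform hδ _ _ B₀ hD hD' hQ hQ' hB hB' heq hBD hBQ
  refine ⟨D, Q, B, a1, a2, a3, a4, a5, a6, a7, a8, a9, fun v hv => ?_⟩
  rw [coeff_one_eval Q Q₁ a11]
  intro h0
  have hQv : (((X : ℂ[X]) ^ 2 - 4) * (X - C (cc δ)) ^ 2).eval v = 0 := by
    simp only [eval_mul, eval_sub, eval_pow, eval_X, eval_C, eval_ofNat]
    rcases hv with rfl | rfl | rfl
    · norm_num
    · norm_num
    · ring
  have h1 := congrArg (eval v) a12
  have h2 := congrArg (eval v) heq
  rw [eval_add, eval_mul, h0, eval_mul, eval_mul, hQv, eval_mul] at h1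
  rw [eval_sub, eval_pow, eval_mul, hQv, zero_mul] at h2
  simp only [eval_ofNat, mul_zero, zero_mul, add_zero] at h1 h2
  have h3 : eval v (dickson 1 (1 : ℂ) δ) = 0 := by
    have : (2 : ℂ) ≠ 0 := by norm_num
    rcases mul_eq_zero.1 h1.symm with h | h
    · exact absurd h this
    · exact h
  rw [h3] at h2
  norm_num at h2

lemma quartic_split (Q : ℂ[X]) (hm : Q.Monic) (hd : Q.natDegree = 4) :
    ∃ H L : ℂ[X], H.Monic ∧ H.natDegree = 2 ∧ L.natDegree ≤ 1 ∧ Q = H ^ 2 - L := by
  have h4 : Q.coeff 4 = 1 := by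
    have := hm.coeff_natDegree
    rwa [hd] at this
  have hQ : Q = X ^ 4 + C (Q.coeff 3) * X ^ 3 + C (Q.coeff 2) * X ^ 2 + C (Q.coeff 1) * X + C (Q.coeff 0) := by
    conv_lhs => rw [Q.as_sum_range_C_mul_X_pow' (n := 5) (by omega)]
    simp only [Finset.sum_range_succ, Finset.sum_range_zero, h4, C_1]
    ring
  generalize Q.coeff 3 = q3 at hQ
  generalize Q.coeff 2 = q2 at hQ
  generalize Q.coeff 1 = q1 at hQ
  generalize Q.coeff 0 = q0 at hQ
  obtain ⟨a, ha⟩ : ∃ a : ℂ, a = q3 / 2 := ⟨_, rfl⟩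
  obtain ⟨b, hb⟩ : ∃ b : ℂ, b = (q2 - a ^ 2) / 2 := ⟨_, rfl⟩
  have e3 : q3 = 2 * a := by rw [ha]; ring
  have e2 : q2 = 2 * b + a ^ 2 := by rw [hb]; ring
  refine ⟨X ^ 2 + C a * X + C b, C (2 * a * b - q1) * X + C (b ^ 2 - q0), ?_, ?_, ?_, ?_⟩
  · monicity!
  · compute_degree!
  · exact natDegree_linear_le
  · rw [hQ, e3, e2]
    simp only [map_add, map_mul, map_sub, map_pow, map_ofNat]
    ring

theorem exists_family {p : ℕ} (hp : p.Prime) {ι J : Type} [Finite ι] [Finite J] (s : ι → ℕ)
    (hs : ∀ k, s k ≠ 0) : ∃ D H L B : ι → J → ℂ[X],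
    (∀ k j, IsPell (p ^ s k) (D k j) (H k j) (L k j) (B k j)) ∧ ∀ i : ι → J, GoodPlace p s D i := by
  classical
  have h2 : ∀ k, 2 ≤ p ^ s k := fun k =>
    le_trans hp.two_le (Nat.le_self_pow (hs k) p)
  choose D Q B hPS using fun k => exists_PS (h2 k)
  obtain ⟨P, _, _, e, g, φ, hφ, he, hg1, hg2, hC, hgS⟩ := exists_toolbox (ι × J)
  have hsplit : ∀ k j, ∃ H L : ℂ[X], H.Monic ∧ H.natDegree = 2 ∧ L.natDegree ≤ 1 ∧
      (Q k).map (φ.comp (e (k, j))) = H ^ 2 - L := fun k j =>
    quartic_split _ ((hPS k).Q_monic.map _) (by rw [(hPS k).Q_monic.natDegree_map, (hPS k).Q_deg])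
  choose H L hH1 hH2 hL hHL using hsplit
  refine ⟨fun k j => (D k).map (φ.comp (e (k, j))), H, L, fun k j => (B k).map (φ.comp (e (k, j))), ?_, ?_⟩
  · intro k j
    refine ⟨(hPS k).D_monic.map _, ?_, hH1 k j, hH2 k j, hL k j, (hPS k).B_monic.map _, ?_, ?_⟩
    · rw [(hPS k).D_monic.natDegree_map, (hPS k).D_deg]
    · rw [(hPS k).B_monic.natDegree_map, (hPS k).B_deg]
    · rw [← hHL k j]
      have := congrArg (Polynomial.map (φ.comp (e (k, j)))) (hPS k).eq
      simpa only [Polynomial.map_sub, Polynomial.map_pow, Polynomial.map_mul, Polynomial.map_ofNat] using this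
  · intro i
    set S : Set (ι × J) := {x | x.2 ≠ i x.1} with hS
    have hker : RingHom.ker φ ≤ RingHom.ker (g S) := by
      intro x hx
      rw [RingHom.mem_ker] at hx ⊢
      have : x = 0 := hφ (by rw [hx, map_zero])
      rw [this, map_zero]
    obtain ⟨O, f', hf', hres, hcl⟩ := exists_place_hom φ (g S) hker
    have hker2 : ∀ x, IsLocalRing.residue O (f' x) = 0 ↔ g S x = 0 := hres
    have hchar : CharZero (IsLocalRing.ResidueField O) := by
      have : CharZero P := charZero_of_inj_zero fun n hn => by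
        have h1 := congrArg φ hn
        rw [map_natCast, map_zero] at h1
        exact_mod_cast h1
      refine charZero_of_inj_zero fun n hn => ?_
      have h1 : IsLocalRing.residue O (f' (n : P)) = 0 := by
        rw [map_natCast, map_natCast, hn]
      rw [hker2, map_natCast] at h1
      exact_mod_cast h1
    set ψ : P →+* IsLocalRing.ResidueField O := (IsLocalRing.residue O).comp f' with hψ
    have hψ0 : ∀ x, ψ x = 0 ↔ g S x = 0 := hker2
    have hinj : ∀ k, Function.Injective (ψ.comp (e (k, i k))) := by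
      intro k
      rw [injective_iff_map_eq_zero]
      intro a ha
      rw [RingHom.comp_apply, hψ0, hg1 S _ _ (by simp [hS])] at ha
      exact he (k, i k) (by rw [ha, map_zero])
    refine ⟨O, fun k j => (D k).map (f'.comp (e (k, j))), fun k => (Q k).map (ψ.comp (e (k, i k))), hcl, hchar,
      ?_, ?_, ?_⟩
    · intro k j
      rw [Polynomial.map_map]
      congr 1
      apply RingHom.ext
      intro x
      exact hf' _
    · intro k j hj
      have h1 : (IsLocalRing.residue O).comp (f'.comp (e (k, j))) =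
          ((ψ.comp (e (k, j))).comp (PowerSeries.C (R := ℂ))).comp (PowerSeries.constantCoeff (R := ℂ)) := by
        apply RingHom.ext
        intro a
        have h3 : ψ (e (k, j) a) - ψ (e (k, j) (PowerSeries.C (PowerSeries.constantCoeff a))) = 0 := by
          rw [← map_sub, hψ0, map_sub, hg2 S (k, j) a hj, hg2 S (k, j) _ hj]
          simp
        exact sub_eq_zero.1 h3
      rw [Polynomial.map_map, h1, ← Polynomial.map_map, (hPS k).D_zero, Polynomial.map_dickson, map_one]
    · have hm : ∀ k, ((fun k j => (D k).map (f'.comp (e (k, j)))) k (i k)).map (IsLocalRing.residue O) =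
          (D k).map (ψ.comp (e (k, i k))) := by
        intro k
        rw [Polynomial.map_map]
        rfl
      simp only [hm]
      refine ⟨fun k => ?_, fun k => ?_, fun k => ?_, fun k l hkl => ?_, fun k => ?_, fun hp2 k => ?_⟩
      · refine ⟨(B k).map (ψ.comp (e (k, i k))), ?_⟩
        have := congrArg (Polynomial.map (ψ.comp (e (k, i k)))) (hPS k).eq
        simpa only [Polynomial.map_sub, Polynomial.map_pow, Polynomial.map_mul, Polynomial.map_ofNat] using this
      · exact (nondeg_one hp (hs k) (hPS k) _ (hinj k)).1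
      · rw [(hPS k).Q_monic.natDegree_map, (hPS k).Q_deg]
        norm_num
      · refine coprime_two (hPS k).Q_monic (hPS l).Q_monic ?_ (e (k, i k)) (e (l, i l)) ψ
          (g (insert (l, i l) S)) ?_ ?_ ?_ ?_
        · intro v hv
          by_cases hv' : v = 2 ∨ v = -2 ∨ v = cc (p ^ s k)
          · exact (hPS k).Q_one v hv' (by rw [hv, map_zero])
          · have h1 := congrArg (eval v) (hPS k).Q_zero
            have h2 : PowerSeries.constantCoeff ((Q k).eval (PowerSeries.C v)) = 0 := by rw [hv, map_zero]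
            have h3 : eval v ((Q k).map PowerSeries.constantCoeff) =
                PowerSeries.constantCoeff ((Q k).eval (PowerSeries.C v)) := by
              have h5 := (Polynomial.hom_eval₂ (Q k) (RingHom.id (PowerSeries ℂ)) (PowerSeries.constantCoeff (R := ℂ))
                (PowerSeries.C v)).symm
              rw [PowerSeries.constantCoeff_C, RingHom.comp_id] at h5
              rw [eval_map, h5]
              rfl
            rw [← h3, h1] at h2
            simp only [eval_mul, eval_sub, eval_pow, eval_X, eval_C, eval_ofNat] at h2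
            push Not at hv'
            rcases mul_eq_zero.1 h2 with h4 | h4
            · have h5 : (v - 2) * (v + 2) = 0 := by linear_combination h4
              rcases mul_eq_zero.1 h5 with h6 | h6
              · exact hv'.1 (sub_eq_zero.1 h6)
              · exact hv'.2.1 (eq_neg_of_add_eq_zero_left h6)
            · exact hv'.2.2 (sub_eq_zero.1 (pow_eq_zero_iff (by norm_num) |>.1 h4))
        · intro x hx
          rw [RingHom.mem_ker] at hx ⊢
          exact hgS S _ (Set.subset_insert _ _) x ((hψ0 x).1 hx)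
        · rw [injective_iff_map_eq_zero]
          intro a ha
          rw [RingHom.comp_apply, hg1 _ _ _ (by
            simp only [Set.mem_insert_iff, Prod.mk.injEq, hS, Set.mem_setOf_eq, ne_eq, not_true_eq_false, or_false]
            exact fun h => hkl h.1)] at ha
          exact he (k, i k) (by rw [ha, map_zero])
        · intro a
          rw [hg2 _ _ _ (Set.mem_insert _ _), hg2 _ _ _ (Set.mem_insert _ _)]
          simp
        · intro z
          exact hC _ _ _
      · exact (nondeg_one hp (hs k) (hPS k) _ (hinj k)).2.1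
      · exact (nondeg_one hp (hs k) (hPS k) _ (hinj k)).2.2 hp2

end Pool.Agent.H861.CE
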