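import Pool.Agent.H861.CD.T1
import Pool.Agent.H861.CE.Defs

/-!
Project CE (helper861), MP_8dbee4_ag, part K1: `kummer2_odd` below (`p` odd). It generalises `kummer_indep` of
`Pool/Agent/H861/CD/T1.lean` (there `D k = X^δ + X^(-δ) + c k`); the proof there can be copied with the changes below,
and its generic lemmas (`kum`, `root_mem`, `root_fix`, `mem_of_sq`, `aeval_clear`, `Un_eval`, `exists_alpha`, `h_cases`, ...) cited.

Proof. Work in an algebraic closure (or Galois closure) `M` of `K = κ(X)` containing `N`. `F := K(h k : k)`. `h k` is a root of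
`T^2 - D_k T + 1` with discriminant `D_k^2 - 4 = Q_k B_k^2`, `Q_k` squarefree, nonconstant, pairwise coprime: so no product of a nonempty subset of the `Q_k` is a square in `κ(X)`
(`B_k ≠ 0` since otherwise `D_k = ±2` contradicts `prim`: `D_k` constant is a value `T_p(c)` of `dickson 1 1 p`, `κ` algebraically closed), and for each `k` there is an automorphism `σ_k` of `M/K` with `σ_k h_k = h_k⁻¹` and `σ_k h_l = h_l` for `l ≠ k`.
Claim (`pindep`): if `∏ h_k^(e_k) = g^p` with `g ∈ F`, then `p ∣ e_k` for all `k`. Apply `σ_k` and divide: `h_k^(2 e_k) = (g/σ_k g)^p`; if `p ∤ e_k` then (`p` odd) `h_k = g₁^p` with `g₁ ∈ F`. `[F : K(h_k)]` is a power of 2: the norm to `K(h_k)` gives (`p` odd) `h_k = g₂^p` with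
`g₂ ∈ K(h_k)`. `(g₂ σ_k g₂)^p = 1`; multiply `g₂` by a `p`-th root of unity (they are in `κ`, `p` odd) to get `g₂ σ_k g₂ = 1`. `G := g₂ + g₂⁻¹ ∈ K` is fixed by `σ_k`, so `G ∈ κ(X)`, and `T_p(G) = g₂^p + g₂^(-p) = h_k + h_k⁻¹ = D_k` with `T_p = dickson 1 1 p` monic of degree `p`;
so `G` is integral over `κ[X]`, `G ∈ κ[X]`, contradicting `prim`.
Kummer theory over `F` (`kum`): `[F(R_k : k) : F]` is divisible by `∏ p^(s k)`, as in T1.
-/

set_option autoImplicit false

open Polynomial Module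

namespace Pool.Agent.H861.CE.K1aux

open Pool.Agent.H861.CD.T1aux (kum root_fix h_cases mem_of_sq)

section rat

variable {κ : Type*} [Field κ]

/-- a polynomial as a rational function -/
noncomputable def fR (P : κ[X]) : RatFunc κ := algebraMap κ[X] (RatFunc κ) P

theorem dickson_monic (n : ℕ) : (dickson 1 (1 : κ) (n + 1)).Monic ∧
    (dickson 1 (1 : κ) (n + 1)).natDegree = n + 1 ∧ (dickson 1 (1 : κ) n).natDegree ≤ n := by
  induction n with
  | zero =>
    refine ⟨by simp, by simp, ?_⟩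
    have h1 : dickson 1 (1 : κ) 0 = C 2 := by
      rw [dickson_zero, map_ofNat]
      push_cast
      norm_num
    rw [h1, natDegree_C]
  | succ n ih =>
    obtain ⟨h1, h2, h3⟩ := ih
    have hm : (X * dickson 1 (1 : κ) (n + 1)).Monic := monic_X.mul h1
    have hd : (X * dickson 1 (1 : κ) (n + 1)).natDegree = n + 2 := by
      rw [monic_X.natDegree_mul h1, natDegree_X, h2]; ring
    have hlt : degree (C (1 : κ) * dickson 1 (1 : κ) n) < degree (X * dickson 1 (1 : κ) (n + 1)) := by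
      rw [map_one, one_mul, degree_eq_natDegree hm.ne_zero, hd]
      refine lt_of_le_of_lt degree_le_natDegree ?_
      exact_mod_cast (by omega : (dickson 1 (1 : κ) n).natDegree < n + 2)
    refine ⟨?_, ?_, by omega⟩
    · rw [dickson_add_two]
      exact hm.sub_of_left hlt
    · rw [dickson_add_two, natDegree_sub_eq_left_of_natDegree_lt, hd]
      rw [map_one, one_mul, hd]
      omega

variable [IsAlgClosed κ] [CharZero κ] {p : ℕ} {ι : Type*} {D Q : ι → κ[X]}

omit [IsAlgClosed κ] [CharZero κ] in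
theorem D_ne (hp : p.Prime) (hp2 : p ≠ 2) (hDQ : Nondeg p D Q) (k : ι) : D k ^ 2 - 4 ≠ 0 := by
  intro h
  have h1 : (D k - 2) * (D k + 2) = 0 := by linear_combination h
  obtain ⟨m, hm⟩ := hp.odd_of_ne_two hp2
  rcases mul_eq_zero.1 h1 with h2 | h2
  · apply hDQ.prim k (C 2)
    have h3 : (2 : κ) = 1 + 1 := by norm_num
    rw [comp_C, h3, dickson_one_one_eval_add_inv 1 1 (by norm_num), one_pow, ← h3, map_ofNat]
    linear_combination -h2
  · apply hDQ.prim k (C (-2))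
    have h3 : (-2 : κ) = -1 + -1 := by norm_num
    have h4 : (-1 : κ) ^ p = -1 := by rw [hm, Odd.neg_one_pow ⟨m, rfl⟩]
    rw [comp_C, h3, dickson_one_one_eval_add_inv (-1) (-1) (by norm_num), h4, ← h3, map_neg, map_ofNat]
    linear_combination -h2

omit [IsAlgClosed κ] [CharZero κ] in
theorem disc_ne (hp : p.Prime) (hp2 : p ≠ 2) (hDQ : Nondeg p D Q) (k : ι) :
    fR (D k) ^ 2 - 4 ≠ 0 := by
  intro h
  apply D_ne hp hp2 hDQ k
  apply IsFractionRing.injective κ[X] (RatFunc κ)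
  rw [map_zero, map_sub, map_pow, map_ofNat]
  exact h

omit [IsAlgClosed κ] [CharZero κ] in
theorem sq_false (hp : p.Prime) (hp2 : p ≠ 2) (hDQ : Nondeg p D Q) (A : Finset ι)
    (hA : A.Nonempty) (z : RatFunc κ) (hz : z ^ 2 = ∏ k ∈ A, (fR (D k) ^ 2 - 4)) : False := by
  choose B hB using hDQ.pell
  have hB0 : ∀ k, fR (B k) ≠ 0 := by
    intro k h
    have h1 : B k = 0 := IsFractionRing.injective κ[X] (RatFunc κ) (by rw [map_zero]; exact h)
    apply D_ne hp hp2 hDQ k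
    rw [hB k, h1]
    ring
  have hf : ∀ k, fR (D k) ^ 2 - 4 = fR (Q k) * fR (B k) ^ 2 := by
    intro k
    unfold fR
    rw [← map_pow, ← map_pow, ← map_mul, ← hB k, map_sub, map_pow, map_ofNat]
  have h1 : (z / ∏ k ∈ A, fR (B k)) ^ 2 = algebraMap κ[X] (RatFunc κ) (∏ k ∈ A, Q k) := by
    rw [div_pow, hz, Finset.prod_congr rfl fun k _ => hf k, Finset.prod_mul_distrib,
      Finset.prod_pow, mul_div_assoc, div_self, mul_one, map_prod]
    · rfl
    · exact pow_ne_zero _ (Finset.prod_ne_zero_iff.2 fun k _ => hB0 k)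
  obtain ⟨Y, hY⟩ := mem_of_sq _ _ h1
  have hsq : Squarefree (∏ k ∈ A, Q k) := by
    refine Finset.squarefree_prod_of_pairwise_isCoprime (fun k _ l _ hkl => ?_)
      fun k _ => hDQ.sqf k
    exact (hDQ.cop k l hkl).isRelPrime
  have hu : IsUnit Y := hsq Y (by rw [← hY, sq])
  have hu2 : IsUnit (∏ k ∈ A, Q k) := by rw [← hY]; exact hu.pow 2
  obtain ⟨k, hk⟩ := hA
  have hu3 : IsUnit (Q k) := isUnit_of_dvd_unit (Finset.dvd_prod_of_mem Q hk) hu2
  exact hDQ.deg k (natDegree_eq_zero_of_isUnit hu3)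

omit [IsAlgClosed κ] [CharZero κ] in
theorem no_dickson (hp : p.Prime) (hDQ : Nondeg p D Q) (k : ι) (G : RatFunc κ)
    (h : aeval G (dickson 1 (1 : κ) p) = fR (D k)) : False := by
  obtain ⟨n, rfl⟩ : ∃ n, p = n + 1 := ⟨p - 1, by have := hp.pos; omega⟩
  obtain ⟨h1, h2, -⟩ := dickson_monic (κ := κ) n
  have hm : ((dickson 1 (1 : κ) (n + 1)).map (C : κ →+* κ[X])).Monic := h1.map _
  have hi : IsIntegral κ[X] G := by
    refine ⟨(dickson 1 (1 : κ) (n + 1)).map (C : κ →+* κ[X]) - C (D k), ?_, ?_⟩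
    · refine hm.sub_of_left ?_
      rw [degree_eq_natDegree hm.ne_zero, h1.natDegree_map, h2]
      refine lt_of_le_of_lt degree_C_le ?_
      exact_mod_cast Nat.succ_pos n
    · rw [eval₂_sub, eval₂_map, eval₂_C, sub_eq_zero, ← fR, ← h, aeval_def]
      congr 1
  obtain ⟨Y, hY⟩ := IsIntegrallyClosed.algebraMap_eq_of_integral hi
  apply hDQ.prim k Y
  apply IsFractionRing.injective κ[X] (RatFunc κ)
  have h3 : algebraMap κ[X] (RatFunc κ) (D k) = aeval G (dickson 1 (1 : κ) (n + 1)) := h.symm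
  rw [h3, ← hY]
  have h4 : (dickson 1 (1 : κ) (n + 1)).comp Y = aeval Y (dickson 1 (1 : κ) (n + 1)) := by
    rw [comp, aeval_def]
    rfl
  rw [h4]
  exact (aeval_algebraMap_apply (RatFunc κ) Y _).symm

end rat

section main

variable {κ : Type*} [Field κ] [IsAlgClosed κ] [CharZero κ]

variable {ι : Type*} [Fintype ι] {M : Type*} [Field M] [Algebra (RatFunc κ) M] [IsAlgClosed M]
  [CharZero M] [IsGalois (RatFunc κ) M]

/-- the sign changes -/
theorem sign_change (h : ι → M) (h0 : ∀ k, h k ≠ 0) {p : ℕ} (hp : p.Prime) (hp2 : p ≠ 2)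
    (D Q : ι → κ[X]) (hDQ : Nondeg p D Q)
    (hh : ∀ k, h k + (h k)⁻¹ = algebraMap (RatFunc κ) M (fR (D k))) (k0 : ι) :
    ∃ σ : M ≃ₐ[RatFunc κ] M, σ (h k0) = (h k0)⁻¹ ∧ ∀ l, l ≠ k0 → σ (h l) = h l := by
  classical
  obtain ⟨q, hq⟩ : ∃ q : ι → M, q = fun k => h k - (h k)⁻¹ := ⟨_, rfl⟩
  have hq2 : ∀ k, q k ^ 2 = algebraMap (RatFunc κ) M (fR (D k) ^ 2 - 4) := by
    intro k
    have h3 := h0 k
    rw [map_sub, map_pow, ← hh k, hq, map_ofNat]
    field_simp
    ring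
  have hq0 : ∀ k, q k ≠ 0 := by
    intro k hk
    have h1 := hq2 k
    rw [hk, zero_pow two_ne_zero] at h1
    have h2 : fR (D k) ^ 2 - 4 = 0 :=
      (algebraMap (RatFunc κ) M).injective (by rw [← h1, map_zero])
    exact disc_ne hp hp2 hDQ k h2
  have hτ2 : ∀ (τ : M ≃ₐ[RatFunc κ] M) (k : ι), τ (q k) ^ 2 = q k ^ 2 := by
    intro τ k
    rw [← map_pow, hq2 k, τ.commutes]
  have main := (kum (K := RatFunc κ) (⊤ : Subgroup (M ≃ₐ[RatFunc κ] M)) (fun _ : ι => 2)
    (fun _ => two_ne_zero) q hq0 (fun k ζ hζ τ _ => root_fix ζ 2 two_ne_zero hζ τ)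
    (fun k τ _ => hτ2 τ k) ?_).1 (fun k => if k = k0 then -1 else 1) ?_
  · obtain ⟨σ, -, hσ⟩ := main
    have hsig : ∀ k, σ (q k) = σ (h k) - (σ (h k))⁻¹ := by
      intro k
      rw [hq]
      simp only [map_sub, map_inv₀]
    have h20 : (2 : M) ≠ 0 := by norm_num
    refine ⟨σ, ?_, fun l hl => ?_⟩
    · rcases h_cases h h0 _ hh σ k0 with h1 | h1
      · exfalso
        have h2 := hσ k0
        rw [if_pos rfl, hsig, h1] at h2
        have h3 : 2 * q k0 = 0 := by
          have h4 : q k0 = h k0 - (h k0)⁻¹ := by rw [hq]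
          linear_combination h4 + h2
        exact hq0 k0 ((mul_eq_zero.1 h3).resolve_left h20)
      · exact h1
    · rcases h_cases h h0 _ hh σ l with h1 | h1
      · exact h1
      · exfalso
        have h2 := hσ l
        rw [if_neg hl, hsig, h1, inv_inv] at h2
        have h3 : 2 * q l = 0 := by
          have h4 : q l = h l - (h l)⁻¹ := by rw [hq]
          linear_combination h4 - h2
        exact hq0 l ((mul_eq_zero.1 h3).resolve_left h20)
  · -- independence
    intro a ha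
    by_contra hcon
    push Not at hcon
    obtain ⟨A, hA⟩ : ∃ A : Finset ι, A = Finset.univ.filter fun k => ¬ ((2 : ℕ) : ℤ) ∣ a k := ⟨_, rfl⟩
    have hAne : A.Nonempty := by
      obtain ⟨k, hk⟩ := hcon
      exact ⟨k, by rw [hA]; simpa using hk⟩
    -- the product over `A` is fixed
    have hfix : ∀ τ : M ≃ₐ[RatFunc κ] M, τ (∏ k ∈ A, q k) = ∏ k ∈ A, q k := by
      intro τ
      have h1 := ha τ (Subgroup.mem_top τ)
      have h2 : ∀ k, ∃ e : M, τ e = e ∧ e ≠ 0 ∧ q k ^ a k = e * (if k ∈ A then q k else 1) := by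
        intro k
        have hev : ∀ b : ℤ, τ (q k ^ (2 * b)) = q k ^ (2 * b) := by
          intro b
          rw [map_zpow₀, zpow_mul, zpow_mul]
          congr 1
          exact_mod_cast hτ2 τ k
        by_cases hk : k ∈ A
        · have hodd : ¬ ((2 : ℕ) : ℤ) ∣ a k := by
            rw [hA] at hk
            simpa using hk
          have hodd2 : Odd (a k) := by
            rw [← Int.not_even_iff_odd, even_iff_two_dvd]
            exact_mod_cast hodd
          obtain ⟨b, hb⟩ := hodd2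
          refine ⟨q k ^ (2 * b), hev b, zpow_ne_zero _ (hq0 k), ?_⟩
          rw [if_pos hk, hb, zpow_add₀ (hq0 k), zpow_one]
        · have hev2 : ((2 : ℕ) : ℤ) ∣ a k := by
            by_contra h3
            exact hk (by rw [hA]; simpa using h3)
          obtain ⟨b, hb⟩ := hev2
          refine ⟨q k ^ (2 * b), hev b, zpow_ne_zero _ (hq0 k), ?_⟩
          rw [if_neg hk, mul_one, hb]
          rfl
      choose e he1 he2 he3 using h2
      have h3 : ∏ k, q k ^ a k = (∏ k, e k) * ∏ k ∈ A, q k := by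
        rw [Finset.prod_congr rfl fun k _ => he3 k, Finset.prod_mul_distrib, Finset.prod_ite_mem,
          Finset.univ_inter]
      rw [h3, map_mul, map_prod] at h1
      rw [Finset.prod_congr rfl fun k _ => he1 k] at h1
      exact mul_left_cancel₀ (Finset.prod_ne_zero_iff.2 fun k _ => he2 k) h1
    obtain ⟨z, hz⟩ := (InfiniteGalois.mem_range_algebraMap_iff_fixed (k := RatFunc κ) (K := M)
      (∏ k ∈ A, q k)).2 hfix
    refine sq_false hp hp2 hDQ A hAne z ?_
    apply (algebraMap (RatFunc κ) M).injective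
    rw [map_pow, hz, map_prod, ← Finset.prod_pow]
    exact Finset.prod_congr rfl fun k _ => hq2 k
  · intro k
    split_ifs <;> norm_num

/-- the `h k` are independent modulo `p`-th powers -/
theorem pindep {p : ℕ} (hp : p.Prime) (hp2 : p ≠ 2) (h : ι → M) (h0 : ∀ k, h k ≠ 0)
    (D Q : ι → κ[X]) (hDQ : Nondeg p D Q)
    (hh : ∀ k, h k + (h k)⁻¹ = algebraMap (RatFunc κ) M (fR (D k)))
    (e : ι → ℤ) (g : M) (hg : g ^ p = ∏ k, h k ^ e k)
    (hgF : ∀ τ : M ≃ₐ[RatFunc κ] M, (∀ k, τ (h k) = h k) → τ g = g) (k0 : ι) : (p : ℤ) ∣ e k0 := by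
  classical
  by_contra hcon
  obtain ⟨m, hm⟩ := hp.odd_of_ne_two hp2
  obtain ⟨σ, hσ0, hσ⟩ := sign_change h h0 hp hp2 D Q hDQ hh k0
  have hg0 : g ≠ 0 := by
    rintro rfl
    rw [zero_pow hp.ne_zero] at hg
    exact Finset.prod_ne_zero_iff.2 (fun k _ => zpow_ne_zero _ (h0 k)) hg.symm
  have hσg0 : σ g ≠ 0 := (map_ne_zero_iff _ σ.injective).2 hg0
  -- the quotient
  have h1 : (g / σ g) ^ p = h k0 ^ (2 * e k0) := by
    rw [div_pow, ← map_pow, hg, map_prod, ← Finset.prod_div_distrib]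
    rw [Finset.prod_eq_single k0]
    · rw [map_zpow₀, hσ0, inv_zpow, div_inv_eq_mul, ← zpow_add₀ (h0 k0)]
      congr 1
      ring
    · intro l _ hl
      rw [map_zpow₀, hσ l hl, div_self (zpow_ne_zero _ (h0 l))]
    · intro hk
      exact absurd (Finset.mem_univ k0) hk
  have hfixσ : ∀ τ : M ≃ₐ[RatFunc κ] M, (∀ k, τ (h k) = h k) → τ (σ g) = σ g := by
    intro τ hτ
    have h2 : (σ⁻¹ * τ * σ) g = g := by
      apply hgF
      intro k
      change σ.symm (τ (σ (h k))) = h k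
      have h3 : τ (σ (h k)) = σ (h k) := by
        rcases h_cases h h0 _ hh σ k with h4 | h4
        · rw [h4, hτ k]
        · rw [h4, map_inv₀, hτ k]
      rw [h3, AlgEquiv.symm_apply_apply]
    have h3 : σ.symm (τ (σ g)) = g := h2
    have h4 := congrArg σ h3
    rwa [AlgEquiv.apply_symm_apply] at h4
  -- a `p`-th root of `h`
  obtain ⟨g2, hg2, hg2F⟩ : ∃ g2 : M, g2 ^ p = h k0 ∧
      ∀ τ : M ≃ₐ[RatFunc κ] M, (∀ k, τ (h k) = h k) → τ g2 = g2 := by
    have hcop : IsCoprime (2 * e k0) (p : ℤ) := by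
      have h2 : IsCoprime (p : ℤ) (2 * e k0) := by
        rw [(Nat.prime_iff_prime_int.1 hp).coprime_iff_not_dvd]
        intro h3
        rcases (Nat.prime_iff_prime_int.1 hp).dvd_or_dvd h3 with h4 | h4
        · have h5 : p ∣ 2 := by exact_mod_cast h4
          exact hp2 ((Nat.prime_dvd_prime_iff_eq hp Nat.prime_two).1 h5)
        · exact hcon h4
      exact h2.symm
    obtain ⟨a, b, hab⟩ := hcop
    refine ⟨(g / σ g) ^ a * h k0 ^ b, ?_, ?_⟩
    · have h2 : ((g / σ g) ^ a) ^ p = h k0 ^ (2 * e k0 * a) := by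
        rw [← zpow_natCast, ← zpow_mul, mul_comm a, zpow_mul, zpow_natCast, h1, ← zpow_mul]
      rw [mul_pow, h2, ← zpow_natCast (h k0 ^ b), ← zpow_mul, ← zpow_add₀ (h0 k0)]
      have h3 : 2 * e k0 * a + b * (p : ℤ) = 1 := by linear_combination hab
      rw [h3, zpow_one]
    · intro τ hτ
      rw [map_mul, map_zpow₀, map_zpow₀, map_div₀, hfixσ τ hτ, hgF τ hτ, hτ k0]
  have hg20 : g2 ≠ 0 := by
    rintro rfl
    rw [zero_pow hp.ne_zero] at hg2
    exact h0 k0 hg2.symm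
  have hsq : ∀ τ : M ≃ₐ[RatFunc κ] M, τ (τ g2) = g2 := by
    intro τ
    have h2 : (τ * τ) g2 = g2 := by
      apply hg2F
      intro k
      change τ (τ (h k)) = h k
      rcases h_cases h h0 _ hh τ k with h4 | h4
      · rw [h4, h4]
      · rw [h4, map_inv₀, h4, inv_inv]
    exact h2
  -- elements which fix `h` fix `g2`
  have hD1 : ∀ τ : M ≃ₐ[RatFunc κ] M, τ (h k0) = h k0 → τ g2 = g2 := by
    intro τ hτ
    obtain ⟨z, hz⟩ : ∃ z, z = τ g2 / g2 := ⟨_, rfl⟩
    have hzp : z ^ p = 1 := by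
      rw [hz, div_pow, ← map_pow, hg2, hτ, div_self (h0 k0)]
    have hz1 : τ g2 = z * g2 := by rw [hz, div_mul_cancel₀ _ hg20]
    have hz2 : τ z = z := root_fix z p hp.ne_zero hzp τ
    have hz3 : z ^ 2 = 1 := by
      have h2 := hsq τ
      rw [hz1, map_mul, hz2, hz1] at h2
      have h3 : z ^ 2 * g2 = 1 * g2 := by linear_combination h2
      exact mul_right_cancel₀ hg20 h3
    have hz4 : z = 1 := by
      rw [hm, pow_succ, pow_mul, hz3, one_pow, one_mul] at hzp
      exact hzp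
    rw [hz1, hz4, one_mul]
  -- normalization
  obtain ⟨z0, hz0⟩ : ∃ z0, z0 = σ g2 * g2 := ⟨_, rfl⟩
  have hz0p : z0 ^ p = 1 := by
    rw [hz0, mul_pow, ← map_pow, hg2, hσ0, inv_mul_cancel₀ (h0 k0)]
  have hz00 : z0 ≠ 0 := by
    rintro h2
    rw [h2, zero_pow hp.ne_zero] at hz0p
    exact zero_ne_one hz0p
  obtain ⟨ξ, hξ⟩ : ∃ ξ, ξ = z0 ^ (m + 1) := ⟨_, rfl⟩
  have hξ2 : ξ * ξ = z0 := by
    rw [hξ, ← pow_add, show m + 1 + (m + 1) = (2 * m + 1) + 1 by ring, ← hm, pow_succ, hz0p, one_mul]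
  have hξp : ξ ^ p = 1 := by rw [hξ, ← pow_mul, mul_comm, pow_mul, hz0p, one_pow]
  have hξ0 : ξ ≠ 0 := by rw [hξ]; exact pow_ne_zero _ hz00
  obtain ⟨g3, hg3⟩ : ∃ g3, g3 = g2 / ξ := ⟨_, rfl⟩
  have hg3p : g3 ^ p = h k0 := by rw [hg3, div_pow, hξp, div_one, hg2]
  have hg30 : g3 ≠ 0 := by rw [hg3]; exact div_ne_zero hg20 hξ0
  have hξfix : ∀ τ : M ≃ₐ[RatFunc κ] M, τ ξ = ξ := root_fix ξ p hp.ne_zero hξp
  have hσ3 : σ g3 = g3⁻¹ := by
    apply eq_inv_of_mul_eq_one_left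
    rw [hg3, map_div₀, hξfix σ, div_mul_div_comm, ← hz0, hξ2, div_self hz00]
  have hE1 : ∀ τ : M ≃ₐ[RatFunc κ] M, τ (h k0) = h k0 → τ g3 = g3 := by
    intro τ hτ
    rw [hg3, map_div₀, hD1 τ hτ, hξfix τ]
  have hE2 : ∀ τ : M ≃ₐ[RatFunc κ] M, τ (g3 + g3⁻¹) = g3 + g3⁻¹ := by
    intro τ
    rcases h_cases h h0 _ hh τ k0 with h2 | h2
    · rw [map_add, map_inv₀, hE1 τ h2]
    · have h3 : (σ⁻¹ * τ) g3 = g3 := by
        apply hE1
        change σ.symm (τ (h k0)) = h k0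
        rw [h2, ← hσ0, AlgEquiv.symm_apply_apply]
      have h4 : τ g3 = g3⁻¹ := by
        have h5 : σ.symm (τ g3) = g3 := h3
        rw [← hσ3]
        conv_rhs => rw [← h5]
        rw [AlgEquiv.apply_symm_apply]
      rw [map_add, map_inv₀, h4, inv_inv, add_comm]
  obtain ⟨G, hG⟩ := (InfiniteGalois.mem_range_algebraMap_iff_fixed (k := RatFunc κ) (K := M)
    (g3 + g3⁻¹)).2 hE2
  refine no_dickson hp hDQ k0 G ?_
  apply (algebraMap (RatFunc κ) M).injective
  let _ : Algebra κ M := ((algebraMap (RatFunc κ) M).comp (algebraMap κ (RatFunc κ))).toAlgebra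
  have : IsScalarTower κ (RatFunc κ) M := IsScalarTower.of_algebraMap_eq fun _ => rfl
  have h3 : algebraMap (RatFunc κ) M (aeval G (dickson 1 (1 : κ) p)) =
      aeval (algebraMap (RatFunc κ) M G) (dickson 1 (1 : κ) p) :=
    (aeval_algebraMap_apply M G _).symm
  rw [h3, hG, ← hh k0, ← hg3p, aeval_def, ← eval_map, map_dickson, map_one,
    dickson_one_one_eval_add_inv _ _ (mul_inv_cancel₀ hg30), inv_pow]

end main

end Pool.Agent.H861.CE.K1aux

namespace Pool.Agent.H861.CE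

open K1aux
open Pool.Agent.H861.CD.T1aux (kum root_fix h_cases mem_of_sq)

theorem kummer2_odd {κ : Type*} [Field κ] [IsAlgClosed κ] [CharZero κ] {p : ℕ} (hp : p.Prime) (hp2 : p ≠ 2)
    {ι : Type*} [Fintype ι] (s : ι → ℕ) (D Q : ι → κ[X]) (hDQ : Nondeg p D Q)
    {N : Type*} [Field N] [Algebra (RatFunc κ) N] [FiniteDimensional (RatFunc κ) N]
    (h R : ι → N) (h0 : ∀ k, h k ≠ 0)
    (hh : ∀ k, h k + (h k)⁻¹ = algebraMap (RatFunc κ) N (algebraMap κ[X] (RatFunc κ) (D k)))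
    (hR : ∀ k, R k ^ (p ^ s k) = h k) :
    p ^ (∑ k, s k) ∣ finrank (RatFunc κ) N := by
  classical
  have : CharZero (RatFunc κ) := charZero_of_injective_algebraMap (algebraMap κ (RatFunc κ)).injective
  have : CharZero (AlgebraicClosure (RatFunc κ)) :=
    charZero_of_injective_algebraMap (algebraMap (RatFunc κ) (AlgebraicClosure (RatFunc κ))).injective
  obtain ⟨φ, -⟩ : ∃ φ : N →ₐ[RatFunc κ] AlgebraicClosure (RatFunc κ), True := ⟨IsAlgClosed.lift, trivial⟩
  have hgal : IsGalois (RatFunc κ) (AlgebraicClosure (RatFunc κ)) := inferInstance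
  obtain ⟨h', hh'⟩ : ∃ h' : ι → AlgebraicClosure (RatFunc κ), h' = fun k => φ (h k) := ⟨_, rfl⟩
  obtain ⟨R', hR'⟩ : ∃ R' : ι → AlgebraicClosure (RatFunc κ), R' = fun k => φ (R k) := ⟨_, rfl⟩
  have h0' : ∀ k, h' k ≠ 0 := by
    intro k
    rw [hh']
    exact (map_ne_zero_iff _ φ.injective).2 (h0 k)
  have hd : ∀ k, p ^ s k ≠ 0 := fun k => pow_ne_zero _ hp.ne_zero
  have hf' : ∀ k, h' k + (h' k)⁻¹ =
      algebraMap (RatFunc κ) (AlgebraicClosure (RatFunc κ)) (fR (D k)) := by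
    intro k
    rw [hh']
    simp only
    rw [← map_inv₀, ← map_add, hh k, φ.commutes]
    rfl
  have hRh : ∀ k, R' k ^ (p ^ s k) = h' k := by
    intro k
    rw [hR', hh']
    simp only
    rw [← map_pow, hR k]
  have hR0 : ∀ k, R' k ≠ 0 := by
    intro k hk
    have := hRh k
    rw [hk, zero_pow (hd k)] at this
    exact h0' k this.symm
  -- the subgroup which fixes the `h k`
  obtain ⟨Γ, hΓ⟩ : ∃ Γ : Subgroup (AlgebraicClosure (RatFunc κ) ≃ₐ[RatFunc κ] AlgebraicClosure (RatFunc κ)),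
      ∀ τ, τ ∈ Γ ↔ ∀ k, τ (h' k) = h' k := by
    refine ⟨⨅ k, MulAction.stabilizer _ (h' k), fun τ => ?_⟩
    simp only [Subgroup.mem_iInf, MulAction.mem_stabilizer_iff]
    rfl
  have key := (kum (K := RatFunc κ) Γ (fun k => p ^ s k) hd R' hR0
    (fun k ζ hζ τ _ => root_fix ζ _ (hd k) hζ τ)
    (fun k τ hτ => by rw [← map_pow, hRh k, (hΓ τ).1 hτ k]) ?_).2
    φ.fieldRange.fixingSubgroup ?_ ?_
  · have h1 : φ.fieldRange.fixingSubgroup ≤ Γ := by
      intro τ hτ
      rw [hΓ]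
      intro k
      rw [hh']
      exact hτ ⟨φ (h k), ⟨h k, rfl⟩⟩
    have h2 := key.trans (Subgroup.relIndex_dvd_index_of_le h1)
    rw [← IntermediateField.finrank_eq_fixingSubgroup_index] at h2
    rw [Finset.prod_pow_eq_pow_sum] at h2
    have h3 : finrank (RatFunc κ) φ.fieldRange = finrank (RatFunc κ) N :=
      (AlgEquiv.ofInjectiveField φ).toLinearEquiv.finrank_eq.symm
    rwa [h3] at h2
  · -- independence
    intro a ha
    -- the least `m`
    have hex : ∃ m : ℕ, ∀ k, ((p ^ s k : ℕ) : ℤ) ∣ (p : ℤ) ^ m * a k := by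
      refine ⟨∑ k, s k, fun k => Dvd.dvd.mul_right ?_ _⟩
      rw [Nat.cast_pow]
      exact pow_dvd_pow _ (Finset.single_le_sum (fun _ _ => Nat.zero_le _) (Finset.mem_univ k))
    obtain ⟨m, hm, hmin⟩ : ∃ m : ℕ, (∀ k, ((p ^ s k : ℕ) : ℤ) ∣ (p : ℤ) ^ m * a k) ∧
        ∀ m' < m, ¬ ∀ k, ((p ^ s k : ℕ) : ℤ) ∣ (p : ℤ) ^ m' * a k :=
      ⟨Nat.find hex, Nat.find_spec hex, fun m' hm' => Nat.find_min hex hm'⟩
    rcases Nat.eq_zero_or_pos m with hm0 | hm0
    · intro k
      have := hm k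
      rw [hm0, pow_zero, one_mul] at this
      exact this
    · exfalso
      obtain ⟨m', rfl⟩ : ∃ m', m = m' + 1 := ⟨m - 1, by omega⟩
      choose e he using hm
      apply hmin m' (Nat.lt_succ_self _)
      have h1 := pindep hp hp2 h' h0' D Q hDQ hf' e ((∏ k, R' k ^ a k) ^ (p ^ m')) ?_ ?_
      · intro k
        obtain ⟨b, hb⟩ := h1 k
        refine ⟨b, ?_⟩
        have h2 := he k
        rw [hb, pow_succ] at h2
        have h3 : (p : ℤ) ≠ 0 := by exact_mod_cast hp.ne_zero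
        apply mul_left_cancel₀ h3
        linear_combination h2
      · rw [← pow_mul, ← pow_succ, ← Finset.prod_pow]
        refine Finset.prod_congr rfl fun k _ => ?_
        rw [← hRh k, ← zpow_natCast, ← zpow_natCast, ← zpow_mul, ← zpow_mul, ← he k]
        congr 1
        push_cast
        ring
      · intro τ hτ
        rw [map_pow, ha τ ((hΓ τ).2 hτ)]
  · intro τ hτ
    rw [hΓ]
    intro k
    rw [hh']
    exact hτ ⟨φ (h k), ⟨h k, rfl⟩⟩
  · intro τ hτ k
    rw [hR']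
    exact hτ ⟨φ (R k), ⟨R k, rfl⟩⟩

end Pool.Agent.H861.CE
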