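import Pool.Agent.H861.CD.T1b
import Pool.Agent.H861.CE.Defs

/-!
Project CE (helper861), MP_8dbee4_ag, part K2: `kummer2_two` below (`p = 2`). It generalises `kummer_indep_two` of
`Pool/Agent/H861/CD/T1b.lean` (there `D k = X^δ + X^(-δ) + c k`); the proof there (`base_ind`, `kummer_pos`) can be copied with the changes below and its generic lemmas
(`tower`, `ind_step`, `ind_adj`, `square_descend`, `two_cases`, `not_sq`, ...) cited.

Proof. First drop the `k` with `s k = 0`. For `s k ≥ 1`: `g_k := R_k^(2^(s k - 1))`, `g_k^2 = h_k`; `a_k := g_k + g_k⁻¹`, `a_k^2 = D_k + 2`, `b_k := g_k - g_k⁻¹`, `b_k^2 = D_k - 2` (both in `N`), `g_k = (a_k + b_k)/2`. (`D_k ± 2 ≠ 0` : from `prim` and `two`, `0 = 0^2`; `T_2 = X^2 - 2`.)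
`D_k + 2` is not a square in `κ[X]` by `prim` (`dickson 1 1 2 = X^2 - 2`), so not in `κ(X)`; `D_k - 2` is not a square by `two`; `(D_k+2)(D_k-2) = Q_k B_k^2` is not a square as `Q_k` is squarefree and nonconstant. Moreover an irreducible polynomial with odd multiplicity in `D_k + 2` or in `D_k - 2`
(these are coprime: their difference is 4) divides `Q_k` (multiplicity one), and the `Q_k` are pairwise coprime, so: no product of a nonempty subset of the family `(D_k + 2, D_k - 2)_k` is a square in `κ(X)` : pick `k` which occurs; one of the three `D_k+2`, `D_k-2`, `(D_k+2)(D_k-2)` occurs, not being a square it has an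
irreducible (linear) factor of odd multiplicity, which divides `Q_k`; it has even multiplicity in the factors for all `l ≠ k` (else it would divide `Q_l`).
So `F := κ(X)(a_k, b_k : k)` has degree `2^(2r)` over `κ(X)`, the `g_k` are independent modulo squares in `F` (as in T1b, `base_ind`), and the tower lemma gives `2^(Σ s_k)` (even `2^(r + Σ s_k)`) as a divisor of `[N : κ(X)]`. Follow T1b.
-/

set_option autoImplicit false

open Polynomial Module

namespace Pool.Agent.H861.CE

namespace K2aux

open Pool.Agent.H861.CD.T1baux (adj le_adj mem_adj Ind ind_adj tower)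

section poly

variable {κ : Type*} [Field κ]

theorem rm_prod {J : Type*} (w : κ) (A : Finset J) (G : J → κ[X]) (hG : ∀ p ∈ A, G p ≠ 0) :
    rootMultiplicity w (∏ p ∈ A, G p) = ∑ p ∈ A, rootMultiplicity w (G p) := by
  classical
  induction A using Finset.induction_on with
  | empty =>
    rw [Finset.prod_empty, Finset.sum_empty]
    exact rootMultiplicity_eq_zero (by simp)
  | insert a A ha ih =>
    have h1 : ∀ p ∈ A, G p ≠ 0 := fun p hp => hG p (Finset.mem_insert_of_mem hp)
    rw [Finset.prod_insert ha, Finset.sum_insert ha, rootMultiplicity_mul, ih h1]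
    exact mul_ne_zero (hG a (Finset.mem_insert_self a A)) (Finset.prod_ne_zero_iff.2 h1)

/-- a polynomial which is not a square has a root of odd multiplicity -/
theorem exists_odd [IsAlgClosed κ] {f : κ[X]} (hf : ∀ G : κ[X], f ≠ G ^ 2) :
    ∃ w : κ, Odd (rootMultiplicity w f) := by
  classical
  by_contra hne
  push Not at hne
  have hne' : ∀ w, Even (rootMultiplicity w f) := fun w => Nat.not_odd_iff_even.1 (hne w)
  obtain ⟨c, hc⟩ := IsAlgClosed.exists_pow_nat_eq f.leadingCoeff (n := 2) (by norm_num)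
  apply hf (C c * ∏ r ∈ f.roots.toFinset, (X - C r) ^ (rootMultiplicity r f / 2))
  have h1 : C f.leadingCoeff * (f.roots.map fun r => X - C r).prod = f :=
    C_leadingCoeff_mul_prod_multiset_X_sub_C (splits_iff_card_roots.1 (IsAlgClosed.splits f))
  have h2 : (f.roots.map fun r => X - C r).prod =
      ∏ r ∈ f.roots.toFinset, (X - C r) ^ rootMultiplicity r f := by
    rw [Finset.prod_multiset_map_count]
    refine Finset.prod_congr rfl fun r _ => ?_
    rw [count_roots]
  rw [mul_pow, ← C_pow, hc, ← Finset.prod_pow]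
  conv_lhs => rw [← h1, h2]
  congr 1
  refine Finset.prod_congr rfl fun r _ => ?_
  rw [← pow_mul, Nat.div_mul_cancel (even_iff_two_dvd.1 (hne' r))]

end poly

section base

variable {κ : Type*} [Field κ] {ι : Type*} {D Q : ι → κ[X]}

theorem P_ne (hDQ : Nondeg 2 D Q) (k : ι) (G : κ[X]) : D k + 2 ≠ G ^ 2 := by
  intro h
  apply hDQ.prim k G
  rw [dickson_two, sub_comp, pow_comp, X_comp, ← h]
  simp only [map_one, one_mul, Nat.cast_one, sub_comp, one_comp]
  have : (3 : κ[X]).comp G = 3 := by
    have e : (3 : κ[X]) = C 3 := (map_ofNat C 3).symm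
    rw [e, C_comp]
  rw [this]
  ring

theorem M_ne (hDQ : Nondeg 2 D Q) (k : ι) (G : κ[X]) : D k - 2 ≠ G ^ 2 := hDQ.two rfl k G

theorem P_ne0 (hDQ : Nondeg 2 D Q) (k : ι) : D k + 2 ≠ 0 := by
  intro h
  exact P_ne hDQ k 0 (by rw [h]; ring)

theorem M_ne0 (hDQ : Nondeg 2 D Q) (k : ι) : D k - 2 ≠ 0 := by
  intro h
  exact M_ne hDQ k 0 (by rw [h]; ring)

/-- the multiplicities -/
theorem mult [CharZero κ] (hDQ : Nondeg 2 D Q) (k : ι) (w : κ) :
    (rootMultiplicity w (D k + 2) = 0 ∨ rootMultiplicity w (D k - 2) = 0) ∧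
    ∃ m : ℕ, rootMultiplicity w (D k + 2) + rootMultiplicity w (D k - 2) =
      rootMultiplicity w (Q k) + 2 * m := by
  constructor
  · by_contra h
    push Not at h
    obtain ⟨h1, h2⟩ := h
    have r1 : (D k + 2).IsRoot w := (rootMultiplicity_pos (P_ne0 hDQ k)).1 (Nat.pos_of_ne_zero h1)
    have r2 : (D k - 2).IsRoot w := (rootMultiplicity_pos (M_ne0 hDQ k)).1 (Nat.pos_of_ne_zero h2)
    have e : (D k + 2 : κ[X]) - (D k - 2) = C 4 := by
      rw [map_ofNat]
      ring
    have e2 := congrArg (eval w) e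
    rw [eval_sub, r1, r2, eval_C] at e2
    have h4 : (4 : κ) ≠ 0 := by norm_num
    exact h4 (by rw [← e2]; ring)
  · obtain ⟨B, hB⟩ := hDQ.pell k
    have hprod : (D k + 2) * (D k - 2) = Q k * B ^ 2 := by rw [← hB]; ring
    have hne := mul_ne_zero (P_ne0 hDQ k) (M_ne0 hDQ k)
    have hne2 := hne
    rw [hprod] at hne2
    have hB0 : B ≠ 0 := by
      rintro rfl
      apply hne2
      ring
    refine ⟨rootMultiplicity w B, ?_⟩
    rw [← rootMultiplicity_mul hne, hprod, rootMultiplicity_mul hne2, sq,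
      rootMultiplicity_mul (mul_ne_zero hB0 hB0)]
    ring

theorem Q_ne0 (hDQ : Nondeg 2 D Q) (k : ι) : Q k ≠ 0 := by
  intro h
  apply hDQ.deg k
  rw [h, natDegree_zero]

/-- a root of odd multiplicity is a root of `Q` -/
theorem root_Q [CharZero κ] (hDQ : Nondeg 2 D Q) {k : ι} {w : κ}
    (h : Odd (rootMultiplicity w (D k + 2)) ∨ Odd (rootMultiplicity w (D k - 2))) :
    (Q k).IsRoot w := by
  obtain ⟨h1, m, hm⟩ := mult hDQ k w
  by_contra hQ
  rw [rootMultiplicity_eq_zero hQ] at hm
  rw [Nat.odd_iff, Nat.odd_iff] at h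
  omega

/-- the multiplicities of a root of another `Q` are even -/
theorem even_of [CharZero κ] (hDQ : Nondeg 2 D Q) {k l : ι} (hkl : k ≠ l) {w : κ}
    (h : (Q k).IsRoot w) : Even (rootMultiplicity w (D l + 2)) ∧
      Even (rootMultiplicity w (D l - 2)) := by
  obtain ⟨h1, m, hm⟩ := mult hDQ l w
  have hQ : ¬ (Q l).IsRoot w := by
    intro h2
    obtain ⟨a, b, hab⟩ := hDQ.cop k l hkl
    have := congrArg (eval w) hab
    rw [eval_add, eval_mul, eval_mul, h, h2, eval_one] at this
    apply zero_ne_one (α := κ)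
    rw [← this]
    ring
  rw [rootMultiplicity_eq_zero hQ] at hm
  rw [Nat.even_iff, Nat.even_iff]
  omega

/-- the independent elements -/
noncomputable def GG (D : ι → κ[X]) (p : ι × Bool) : κ[X] :=
  if p.2 = true then D p.1 + 2 else (D p.1 + 2) * (D p.1 - 2)

theorem GG_ne0 (hDQ : Nondeg 2 D Q) (p : ι × Bool) : GG D p ≠ 0 := by
  unfold GG
  split_ifs
  · exact P_ne0 hDQ _
  · exact mul_ne_zero (P_ne0 hDQ _) (M_ne0 hDQ _)

theorem base_ind [IsAlgClosed κ] [CharZero κ] [Fintype ι] [DecidableEq ι] (hDQ : Nondeg 2 D Q)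
    (A : Finset (ι × Bool)) (hA : A.Nonempty) (y : RatFunc κ) :
    y ^ 2 ≠ ∏ p ∈ A, algebraMap κ[X] (RatFunc κ) (GG D p) := by
  intro hy
  rw [← map_prod] at hy
  obtain ⟨y₀, rfl⟩ := IsIntegrallyClosed.exists_algebraMap_eq_of_isIntegral_pow (R := κ[X])
    (K := RatFunc κ) (x := y) (n := 2) (by norm_num)
    (by rw [hy]; exact isIntegral_algebraMap)
  have h2 : y₀ ^ 2 = ∏ p ∈ A, GG D p := by
    apply IsFractionRing.injective κ[X] (RatFunc κ)
    rw [map_pow, hy]
  have hP0 : ∏ p ∈ A, GG D p ≠ 0 := Finset.prod_ne_zero_iff.2 fun p _ => GG_ne0 hDQ p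
  have hy0 : y₀ ≠ 0 := by
    rintro rfl
    apply hP0
    rw [← h2]
    ring
  -- the multiplicity of `w`
  have key : ∀ w : κ, Even (∑ k : ι, ((if (k, true) ∈ A then rootMultiplicity w (D k + 2) else 0) +
      (if (k, false) ∈ A then rootMultiplicity w (D k + 2) + rootMultiplicity w (D k - 2)
        else 0))) := by
    intro w
    have h3 : rootMultiplicity w (y₀ ^ 2) = 2 * rootMultiplicity w y₀ := by
      rw [sq, rootMultiplicity_mul (mul_ne_zero hy0 hy0)]
      ring
    rw [h2, rm_prod w A _ (fun p _ => GG_ne0 hDQ p)] at h3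
    have h4 : ∑ p ∈ A, rootMultiplicity w (GG D p) =
        ∑ k : ι, ((if (k, true) ∈ A then rootMultiplicity w (D k + 2) else 0) +
      (if (k, false) ∈ A then rootMultiplicity w (D k + 2) + rootMultiplicity w (D k - 2)
        else 0)) := by
      have h5 : ∑ p ∈ A, rootMultiplicity w (GG D p) =
          ∑ p : ι × Bool, if p ∈ A then rootMultiplicity w (GG D p) else 0 := by
        rw [Finset.sum_ite_mem, Finset.univ_inter]
      rw [h5, Fintype.sum_prod_type]
      refine Finset.sum_congr rfl fun k _ => ?_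
      rw [Fintype.sum_bool]
      have h6 : GG D (k, true) = D k + 2 := by simp only [GG, if_true]
      have h7 : GG D (k, false) = (D k + 2) * (D k - 2) := by
        simp only [GG, Bool.false_eq_true, if_false]
      rw [h6, h7, rootMultiplicity_mul (mul_ne_zero (P_ne0 hDQ k) (M_ne0 hDQ k))]
    rw [← h4, h3]
    exact even_two_mul _
  obtain ⟨⟨k0, b⟩, hk0⟩ := hA
  -- an odd multiplicity
  obtain ⟨w, hw, hodd⟩ : ∃ w : κ, (Q k0).IsRoot w ∧
      Odd ((if (k0, true) ∈ A then rootMultiplicity w (D k0 + 2) else 0) +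
      (if (k0, false) ∈ A then rootMultiplicity w (D k0 + 2) + rootMultiplicity w (D k0 - 2)
        else 0)) := by
    obtain ⟨w1, hw1⟩ := exists_odd (P_ne hDQ k0)
    obtain ⟨w2, hw2⟩ := exists_odd (M_ne hDQ k0)
    by_cases ht : (k0, true) ∈ A
    · by_cases hf : (k0, false) ∈ A
      · refine ⟨w2, root_Q hDQ (Or.inr hw2), ?_⟩
        rw [if_pos ht, if_pos hf]
        obtain ⟨n, hn⟩ := hw2
        exact ⟨rootMultiplicity w2 (D k0 + 2) + n, by rw [hn]; ring⟩
      · refine ⟨w1, root_Q hDQ (Or.inl hw1), ?_⟩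
        rw [if_pos ht, if_neg hf, add_zero]
        exact hw1
    · have hf : (k0, false) ∈ A := by
        cases b
        · exact hk0
        · exact absurd hk0 ht
      refine ⟨w1, root_Q hDQ (Or.inl hw1), ?_⟩
      rw [if_neg ht, if_pos hf, zero_add]
      obtain ⟨h1, -⟩ := mult hDQ k0 w1
      have h3 : rootMultiplicity w1 (D k0 - 2) = 0 := by
        rcases h1 with h1 | h1
        · rw [h1] at hw1
          exact absurd hw1 (by decide)
        · exact h1
      rw [h3, add_zero]
      exact hw1
  have h5 := key w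
  rw [← Finset.add_sum_erase _ _ (Finset.mem_univ k0)] at h5
  have h6 : Even (∑ k ∈ (Finset.univ : Finset ι).erase k0,
      ((if (k, true) ∈ A then rootMultiplicity w (D k + 2) else 0) +
      (if (k, false) ∈ A then rootMultiplicity w (D k + 2) + rootMultiplicity w (D k - 2)
        else 0))) := by
    apply Finset.even_sum
    intro k hk
    obtain ⟨e1, e2⟩ := even_of hDQ (Finset.ne_of_mem_erase hk).symm hw
    refine Even.add ?_ ?_
    · split_ifs
      · exact e1
      · exact Even.zero
    · split_ifs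
      · exact e1.add e2
      · exact Even.zero
  have h7 := hodd.add_even h6
  exact (Nat.not_even_iff_odd.2 h7) h5

end base

end K2aux

open K2aux
open Pool.Agent.H861.CD.T1baux (adj le_adj mem_adj Ind ind_adj tower)

theorem kummer2_two {κ : Type*} [Field κ] [IsAlgClosed κ] [CharZero κ]
    {ι : Type*} [Fintype ι] (s : ι → ℕ) (D Q : ι → κ[X]) (hDQ : Nondeg 2 D Q)
    {N : Type*} [Field N] [Algebra (RatFunc κ) N] [FiniteDimensional (RatFunc κ) N]
    (h R : ι → N) (h0 : ∀ k, h k ≠ 0)
    (hh : ∀ k, h k + (h k)⁻¹ = algebraMap (RatFunc κ) N (algebraMap κ[X] (RatFunc κ) (D k)))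
    (hR : ∀ k, R k ^ (2 ^ s k) = h k) :
    2 ^ (∑ k, s k) ∣ finrank (RatFunc κ) N := by
  classical
  have h2K : (2 : RatFunc κ) ≠ 0 := by
    have : (2 : RatFunc κ) = RatFunc.C 2 := (map_ofNat RatFunc.C 2).symm
    rw [this, Ne, map_eq_zero]
    exact two_ne_zero
  have h2 : (2 : N) ≠ 0 := by
    have : (2 : N) = algebraMap (RatFunc κ) N 2 := (map_ofNat (algebraMap (RatFunc κ) N) 2).symm
    rw [this, Ne, map_eq_zero]
    exact h2K
  set a : ι × Bool → N := fun p => algebraMap (RatFunc κ) N (algebraMap κ[X] (RatFunc κ) (GG D p))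
    with ha
  have haT : ∀ k, a (k, true) = h k + (h k)⁻¹ + 2 := by
    intro k
    have h3 : a (k, true) = algebraMap (RatFunc κ) N (algebraMap κ[X] (RatFunc κ) (D k + 2)) := by
      rw [ha]
      simp only [GG, if_true]
    rw [h3, map_add, map_add, ← hh, map_ofNat, map_ofNat]
  have haF : ∀ k, a (k, false) = (h k - (h k)⁻¹) ^ 2 := by
    intro k
    have h3 : a (k, false) = algebraMap (RatFunc κ) N (algebraMap κ[X] (RatFunc κ) (D k + 2)) *
        algebraMap (RatFunc κ) N (algebraMap κ[X] (RatFunc κ) (D k - 2)) := by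
      rw [ha, ← map_mul, ← map_mul]
      simp only [GG, Bool.false_eq_true, if_false]
    rw [h3, map_add, map_add, map_sub, map_sub, ← hh, map_ofNat, map_ofNat]
    have := h0 k
    field_simp
    ring
  have key : ∀ B : Finset ι, ∃ F : IntermediateField (RatFunc κ) N, (∀ k ∈ B, h k ∈ F) ∧
      Ind F (Finset.univ.filter (fun p : ι × Bool => p.2 = true ∨ p.1 ∉ B)) a := by
    intro B
    induction B using Finset.induction_on with
    | empty =>
      refine ⟨⊥, by simp, ?_⟩
      intro A _ hAne x hx hxA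
      obtain ⟨y, rfl⟩ := IntermediateField.mem_bot.mp hx
      refine base_ind hDQ A hAne y ?_
      apply (algebraMap (RatFunc κ) N).injective
      rw [map_pow, map_prod]
      exact hxA
    | insert j B hj ih =>
      obtain ⟨F, hF1, hF2⟩ := ih
      have hI : Finset.univ.filter (fun p : ι × Bool => p.2 = true ∨ p.1 ∉ B) =
          insert (j, false)
            (Finset.univ.filter (fun p : ι × Bool => p.2 = true ∨ p.1 ∉ insert j B)) := by
        ext ⟨k, b⟩
        simp only [Finset.mem_filter, Finset.mem_univ, true_and, Finset.mem_insert, Prod.mk.injEq,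
          not_or]
        cases b
        · by_cases hk : k = j
          · subst hk; simp [hj]
          · simp [hk]
        · simp
      rw [hI] at hF2
      refine ⟨adj F (h j - (h j)⁻¹), ?_, ?_⟩
      · intro k hk
        rcases Finset.mem_insert.mp hk with rfl | hk
        · have h3 : ((h k + (h k)⁻¹) + (h k - (h k)⁻¹)) / 2 = h k := by
            have := h0 k
            field_simp
            ring
          have h4 : ((h k + (h k)⁻¹) + (h k - (h k)⁻¹)) / 2 ∈ adj F (h k - (h k)⁻¹) := by
            refine div_mem (add_mem ?_ (mem_adj _ _)) ?_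
            · rw [hh]; exact IntermediateField.algebraMap_mem _ _
            · rw [← map_ofNat (algebraMap (RatFunc κ) N) 2]
              exact IntermediateField.algebraMap_mem _ _
          rwa [h3] at h4
        · exact le_adj _ _ (hF1 k hk)
      · refine ind_adj h2 F _ a (j, false) (by simp) ?_ hF2 _ (haF j).symm
        intro p _
        exact IntermediateField.algebraMap_mem _ _
  obtain ⟨F, hF1, hF2⟩ := key Finset.univ
  have hInd : Ind F (Finset.univ : Finset ι) h := by
    intro A _ hAne x hx hxA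
    let em : ι ↪ ι × Bool := ⟨fun k => (k, true), fun k l hkl => (Prod.mk.inj hkl).1⟩
    have hem : ∀ k, em k = (k, true) := fun _ => rfl
    refine hF2 (A.map em) ?_ ?_ (x * ∏ k ∈ A, (1 + (h k)⁻¹)) ?_ ?_
    · intro p hp
      obtain ⟨k, _, rfl⟩ := Finset.mem_map.mp hp
      rw [hem]
      simp
    · simpa using hAne
    · refine mul_mem hx (prod_mem ?_)
      intro k _
      exact add_mem (one_mem _) (inv_mem (hF1 k (Finset.mem_univ k)))
    · rw [mul_pow, hxA, ← Finset.prod_pow, ← Finset.prod_mul_distrib, Finset.prod_map]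
      apply Finset.prod_congr rfl
      intro k _
      rw [hem, haT]
      have := h0 k
      field_simp
      ring
  obtain ⟨i, hi⟩ := IsAlgClosed.exists_pow_nat_eq (-1 : κ) (n := 2) (by norm_num)
  have him2 : (algebraMap (RatFunc κ) N (RatFunc.C i)) ^ 2 = -1 := by
    rw [← map_pow, ← map_pow, hi, map_neg, map_neg, map_one, map_one]
  have ht := tower h2 _ him2 (∑ k, s k) F (IntermediateField.algebraMap_mem _ _) Finset.univ h s R
    (fun k hk => hF1 k hk) hInd (fun k _ => hR k) rfl
  rw [← Module.finrank_mul_finrank (RatFunc κ) F N]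
  exact Dvd.dvd.mul_left ht _

end Pool.Agent.H861.CE
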