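import Pool.Agent.H861.CE.Curve3
import Pool.Agent.H861.CE.F1
import Pool.Agent.H861.CE.Fam
import Pool.Agent.H861.CE.K1
import Pool.Agent.H861.CE.K2
import Pool.Agent.H861.CD.Final

set_option autoImplicit false

open Module

namespace Pool.Agent.H861.CE

open Pool.Agent.H861.CD (sig eY eZ emb loss div_dvd div_of_primes)
open Pool.Agent.Q271.CI (Div AllDiv Coefs)

theorem kummer2 {p : ℕ} (hp : p.Prime) : Kummer2 p := by
  intro κ _ _ _ ι _ s D Q hDQ N _ _ _ h R h0 hh hR
  by_cases hp2 : p = 2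
  · subst hp2
    exact kummer2_two s D Q hDQ h R h0 hh hR
  · exact kummer2_odd hp hp2 s D Q hDQ h R h0 hh hR

theorem example2 {n r : ℕ} (hn : 2 ≤ n) (m : Fin r → ℕ) (hm : ∀ k, n ≤ m k) {p : ℕ} (hp : p.Prime)
    (s : Fin r → ℕ) (hs : ∀ k, s k ≠ 0) : ∃ f : Fin r → MvPolynomial (Fin (n + r + 1)) ℂ,
      (∀ k, (f k).IsHomogeneous (m k * (p ^ s k * (n.factorial * 2 ^ n)))) ∧
      AllDiv (p ^ ((∑ k, s k) - loss n r p)) f := by
  obtain ⟨D, H, L, B, hP, hG⟩ := exists_family (ι := Fin r) (J := Fin n) hp s hs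
  have hmu : ∀ k, ∃ μ : Fin n → ℕ → ℂ, GoodMu (H k) (L k) μ := fun k =>
    exists_mu (H k) (L k) (fun j => ⟨(hP k j).H_monic, (hP k j).H_deg⟩) (fun j => (hP k j).L_deg)
  choose μ hμ using hmu
  have hδ : ∀ k, 2 ≤ p ^ s k := fun k => le_trans hp.two_le (Nat.le_self_pow (hs k) p)
  have hform : ∀ k, ∃ F, IsForm2 (m k) (p ^ s k) (D k) (H k) (L k) (B k) (μ k) F := fun k =>
    exists_form2 (by omega) (hm k) (hδ k) (D k) (H k) (L k) (B k) (hP k) (μ k)
  choose F hF using hform
  refine ⟨fun k => MvPolynomial.rename (emb k) (F k), fun k => (hF k).1.rename_isHomogeneous, ?_⟩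
  intro I e hI hf
  exact curve_dvd2 hn m hm hp (kummer2 hp) s hs D H L B hP hG μ hμ F hF I hI.hom hI.prime hI.pos hI.deg hf

/-- the statement for one prime -/
theorem div_prime2 {n r : ℕ} (hn : 2 ≤ n) {p : ℕ} (hp : p.Prime) (a d : Fin r → ℕ)
    (hd : ∀ i, a i ≠ 0 → ∃ m, n ≤ m ∧ d i = m * (p ^ a i * (n.factorial * 2 ^ n))) :
    Div (n + r) d (p ^ ((∑ i, a i) - loss n r p)) := by
  classical
  set J : Finset (Fin r) := Finset.univ.filter fun i => a i ≠ 0 with hJ
  set ι : Fin J.card → Fin r := fun j => J.orderEmbOfFin rfl j with hι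
  have hιm : StrictMono ι := (J.orderEmbOfFin rfl).strictMono
  have hιJ : ∀ j, a (ι j) ≠ 0 := by
    intro j
    have := J.orderEmbOfFin_mem rfl j
    exact (Finset.mem_filter.1 this).2
  have hsum : ∑ j, a (ι j) = ∑ i, a i := by
    have e1 : J = Finset.univ.map (J.orderEmbOfFin rfl).toEmbedding := by
      apply Finset.coe_injective
      rw [Finset.coe_map, Finset.coe_univ, Set.image_univ]
      exact (J.range_orderEmbOfFin rfl).symm
    have e2 : ∑ i ∈ J, a i = ∑ i, a i := by
      rw [hJ]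
      exact Finset.sum_filter_ne_zero _
    rw [← e2]
    conv_rhs => rw [e1, Finset.sum_map]
    rfl
  have hcard : J.card ≤ r := by
    have := Finset.card_le_univ J
    rwa [Fintype.card_fin] at this
  have hloss : loss n J.card p ≤ loss n r p := by
    unfold loss
    gcongr
  choose m hm hdm using fun j => hd (ι j) (hιJ j)
  refine Pool.Agent.Q271.CI.div_sub d ι hιm ?_
  obtain ⟨f, hf1, hf2⟩ := example2 hn m hm hp (fun j => a (ι j)) hιJ
  have h3 := Pool.Agent.Q271.CI.div_of_example (N := n + J.card) (fun j => d (ι j)) f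
    (fun j => by rw [hdm j]; exact hf1 j) hf2
  refine div_dvd (pow_dvd_pow p ?_) h3
  rw [hsum]
  omega

/-- the constant -/
def C2 (n r : ℕ) : ℕ := ∏ p ∈ (Finset.range (n + 1)).filter Nat.Prime, p ^ loss n r p

lemma loss_eq_zero {n r p : ℕ} (hpn : n < p) : loss n r p = 0 := by
  unfold loss
  rw [Nat.log_of_lt hpn, mul_zero]

lemma C2_pos (n r : ℕ) : 0 < C2 n r := Finset.prod_pos fun p hp =>
  pow_pos (Finset.mem_filter.1 hp).2.pos _

lemma C2_fact {n r p : ℕ} (hp : p.Prime) : (C2 n r).factorization p = loss n r p := by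
  unfold C2
  rw [Nat.factorization_prod fun q hq => pow_ne_zero _ (Finset.mem_filter.1 hq).2.ne_zero]
  rw [Finset.sum_apply']
  by_cases h : p ≤ n
  · rw [Finset.sum_eq_single p]
    · rw [Nat.Prime.factorization_pow hp, Finsupp.single_eq_same]
    · intro q hq hqp
      rw [Nat.Prime.factorization_pow (Finset.mem_filter.1 hq).2, Finsupp.single_eq_of_ne (Ne.symm hqp)]
    · intro h1
      exact absurd (Finset.mem_filter.2 ⟨Finset.mem_range.2 (by omega), hp⟩) h1
  · rw [loss_eq_zero (by omega)]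
    refine Finset.sum_eq_zero fun q hq => ?_
    have h1 := Finset.mem_filter.1 hq
    rw [Nat.Prime.factorization_pow h1.2, Finsupp.single_eq_of_ne]
    rintro rfl
    have := Finset.mem_range.1 h1.1
    omega

/-- the main theorem: linear degrees -/
theorem div_linear {n r : ℕ} (hn : 2 ≤ n) (q x : Fin r → ℕ) (hq : ∀ i, 0 < q i) (hx : ∀ i, n ≤ x i) :
    Div (n + r) (fun i => n.factorial * 2 ^ n * (q i * x i)) ((∏ i, q i) / Nat.gcd (∏ i, q i) (C2 n r)) := by
  classical
  have hQ : 0 < ∏ i, q i := Finset.prod_pos fun i _ => hq i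
  have hg : 0 < Nat.gcd (∏ i, q i) (C2 n r) := Nat.gcd_pos_of_pos_left _ hQ
  have hQ' : 0 < (∏ i, q i) / Nat.gcd (∏ i, q i) (C2 n r) :=
    Nat.div_pos (Nat.gcd_le_left _ hQ) hg
  refine div_of_primes hQ' fun p hp hpQ => ?_
  have hsum : (∏ i, q i).factorization p = ∑ i, (q i).factorization p := by
    rw [Nat.factorization_prod fun i _ => (hq i).ne']
    simp
  have h5 : ((∏ i, q i) / Nat.gcd (∏ i, q i) (C2 n r)).factorization p ≤
      (∏ i, q i).factorization p - loss n r p := by
    rw [Nat.factorization_div (Nat.gcd_dvd_left _ _), Nat.factorization_gcd hQ.ne' (C2_pos n r).ne']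
    simp only [Finsupp.coe_tsub, Pi.sub_apply, Finsupp.inf_apply, C2_fact hp]
    omega
  refine div_dvd (pow_dvd_pow p (h5.trans ?_)) (div_prime2 hn hp (fun i => (q i).factorization p) _ fun i _ => ?_)
  · rw [hsum]
  · refine ⟨q i / p ^ (q i).factorization p * x i, ?_, ?_⟩
    · have h1 : 0 < q i / p ^ (q i).factorization p := Nat.ordCompl_pos p (hq i).ne'
      calc n ≤ 1 * x i := by rw [one_mul]; exact hx i
        _ ≤ _ := Nat.mul_le_mul_right _ h1
    · have h1 : p ^ (q i).factorization p * (q i / p ^ (q i).factorization p) = q i :=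
        Nat.ordProj_mul_ordCompl_eq_self (q i) p
      calc n.factorial * 2 ^ n * (q i * x i)
          = n.factorial * 2 ^ n * ((p ^ (q i).factorization p * (q i / p ^ (q i).factorization p)) * x i) := by
            rw [h1]
        _ = _ := by ring

end Pool.Agent.H861.CE
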